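import Pool.Agent.NPC.Sat2
import Pool.Agent.H671R2.PolyAuto

/-!
# Exact cover by 3-sets is NP-hard
-/

namespace Pool.Agent.NPC.H632

/-- components of a triple -/
def el {E : Type} (t : E × E × E) : List E := [t.1, t.2.1, t.2.2]

/-- typed exact cover: some of the triples of `S` have components forming exactly the list `L` -/
def XC {E : Type} (S : List (E × E × E)) (L : List E) : Prop :=
  ∃ C : List (E × E × E), (∀ t ∈ C, t ∈ S) ∧ (C.flatMap el).Perm L

/-- Exact cover by 3-sets of `{0, ..., 3q-1}`: some of the triples of the list have components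
forming exactly `0, ..., 3q-1`, each occurring once. -/
def X3C (I : List (ℕ × ℕ × ℕ) × ℕ) : Prop := XC I.1 (List.range (3 * I.2))

/-- Promise: the components of each triple are distinct and below `3q`, and `1 ≤ q ≤` number of triples. -/
def X3CPr (I : List (ℕ × ℕ × ℕ) × ℕ) : Prop :=
  (∀ t ∈ I.1, (el t).Nodup ∧ ∀ x ∈ el t, x < 3 * I.2) ∧ 1 ≤ I.2 ∧ I.2 ≤ I.1.length

/-! ### Renaming -/

section Ren

variable {E : Type}

theorem map_index {L : List E} (h : L.Nodup) : L.map (index L) = List.range L.length := by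
  apply List.ext_getElem
  · simp
  · intro i h1 h2
    rw [List.getElem_map, List.getElem_range]
    have h3 : i < L.length := by simpa using h1
    have h4 := getElem?_index (l := L) (v := L[i]) (List.getElem_mem h3)
    rw [List.getElem?_eq_some_iff] at h4
    obtain ⟨h5, h6⟩ := h4
    exact (h.getElem_inj_iff).1 h6

/-- renaming of the elements by positions -/
noncomputable def ren (L : List E) (t : E × E × E) : ℕ × ℕ × ℕ :=
  (index L t.1, index L t.2.1, index L t.2.2)

theorem flatMap_ren (L : List E) (C : List (E × E × E)) :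
    (C.map (ren L)).flatMap el = (C.flatMap el).map (index L) := by
  induction C with
  | nil => rfl
  | cons t C ih =>
    simp only [List.map_cons, List.flatMap_cons, List.map_append, ih]
    rfl

theorem exists_preimage {α β : Type} (f : α → β) (S : List α) (C : List β)
    (h : ∀ t ∈ C, t ∈ S.map f) : ∃ D : List α, (∀ t ∈ D, t ∈ S) ∧ D.map f = C := by
  induction C with
  | nil => exact ⟨[], by simp, rfl⟩
  | cons c C ih =>
    obtain ⟨D, hD, hDC⟩ := ih fun t ht => h t (List.mem_cons_of_mem _ ht)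
    obtain ⟨d, hd, hdc⟩ := List.mem_map.1 (h c (List.mem_cons_self ..))
    refine ⟨d :: D, ?_, by rw [List.map_cons, hdc, hDC]⟩
    intro t ht
    rcases List.mem_cons.1 ht with rfl | ht
    · exact hd
    · exact hD t ht

theorem XC_ren {S : List (E × E × E)} {L : List E} {q : ℕ} (hL : L.Nodup) (hlen : L.length = 3 * q)
    (hS : ∀ t ∈ S, ∀ e ∈ el t, e ∈ L) : XC S L ↔ X3C (S.map (ren L), q) := by
  unfold X3C
  dsimp only
  rw [← hlen, ← map_index hL]
  constructor
  · rintro ⟨C, hC, hp⟩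
    refine ⟨C.map (ren L), ?_, ?_⟩
    · intro t ht
      obtain ⟨s, hs, rfl⟩ := List.mem_map.1 ht
      exact List.mem_map_of_mem (hC s hs)
    · rw [flatMap_ren]
      exact hp.map _
  · rintro ⟨C, hC, hp⟩
    obtain ⟨D, hD, rfl⟩ := exists_preimage _ _ _ hC
    refine ⟨D, hD, ?_⟩
    rw [flatMap_ren] at hp
    have h1 := hp.map (fun n => L[n]?)
    rw [List.map_map, List.map_map] at h1
    have h2 : ∀ M : List E, (∀ e ∈ M, e ∈ L) →
        M.map ((fun n => L[n]?) ∘ index L) = M.map some := by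
      intro M hM
      apply List.map_congr_left
      intro e he
      exact getElem?_index (hM e he)
    rw [h2 _ (fun e he => he), h2] at h1
    · exact (List.map_perm_map_iff (Option.some_injective _)).1 h1
    · intro e he
      obtain ⟨t, ht, het⟩ := List.mem_flatMap.1 he
      exact hS t (hD t ht) e het

end Ren

/-! ### The reduction from 3SAT -/

abbrev E3 : Type := ℕ × ℕ × ℕ

def ea (i j : ℕ) : E3 := (0, i, j)
def eb (i j : ℕ) : E3 := (1, i, j)
def tip (s : Bool) (i j : ℕ) : E3 := (bif s then 2 else 3, i, j)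
def es1 (j : ℕ) : E3 := (4, 0, j)
def es2 (j : ℕ) : E3 := (5, 0, j)
def eg1 (k : ℕ) : E3 := (6, 0, k)
def eg2 (k : ℕ) : E3 := (7, 0, k)

def grid (m : ℕ) : List (ℕ × ℕ) := List.range (3 * m) ×ˢ List.range m

theorem mem_grid {m : ℕ} {p : ℕ × ℕ} : p ∈ grid m ↔ p.1 < 3 * m ∧ p.2 < m := by
  obtain ⟨i, j⟩ := p
  simp [grid, List.mem_product]

def tT (i j : ℕ) : E3 × E3 × E3 := (tip false i j, ea i j, eb i j)
def tF (m i j : ℕ) : E3 × E3 × E3 := (tip true i j, ea i ((j + 1) % m), eb i j)
def tC (l : Bool × ℕ) (j : ℕ) : E3 × E3 × E3 := (tip l.1 l.2 j, es1 j, es2 j)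
def tG (s : Bool) (i j k : ℕ) : E3 × E3 × E3 := (tip s i j, eg1 k, eg2 k)

def trips (φ : List (Lit ℕ × Lit ℕ × Lit ℕ)) : List (E3 × E3 × E3) :=
  (grid φ.length).flatMap (fun p => [tT p.1 p.2, tF φ.length p.1 p.2]) ++
  φ.zipIdx.flatMap (fun cj => [tC cj.1.1 cj.2, tC cj.1.2.1 cj.2, tC cj.1.2.2 cj.2]) ++
  (grid φ.length).flatMap (fun p => (List.range (3 * φ.length * φ.length - φ.length)).flatMap
    (fun k => [tG true p.1 p.2 k, tG false p.1 p.2 k]))

def elems (m : ℕ) : List E3 :=
  (grid m).map (fun p => ea p.1 p.2) ++ ((grid m).map (fun p => eb p.1 p.2) ++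
  ((grid m).map (fun p => tip true p.1 p.2) ++ ((grid m).map (fun p => tip false p.1 p.2) ++
  ((List.range m).map es1 ++ ((List.range m).map es2 ++
  ((List.range (3 * m * m - m)).map eg1 ++ (List.range (3 * m * m - m)).map eg2))))))

theorem grid_nodup (m : ℕ) : (grid m).Nodup := (List.nodup_range).product (List.nodup_range)

theorem grid_length (m : ℕ) : (grid m).length = 3 * m * m := by
  simp [grid, List.length_product]

theorem elems_length {m : ℕ} : (elems m).length = 3 * (6 * m * m) := by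
  simp only [elems, List.length_append, List.length_map, List.length_range, grid_length]
  have : m ≤ 3 * m * m := by nlinarith [Nat.zero_le m, Nat.mul_self_le_mul_self (Nat.zero_le m)]
  zify [this]
  ring

theorem elems_nodup (m : ℕ) : (elems m).Nodup := by
  have hg := grid_nodup m
  have hr : (List.range m).Nodup := List.nodup_range
  have hr' : (List.range (3 * m * m - m)).Nodup := List.nodup_range
  unfold elems
  simp only [List.nodup_append', List.disjoint_append_right]
  have inj2 : ∀ f : ℕ → ℕ → E3, (∀ i j i' j', f i j = f i' j' → i = i' ∧ j = j') →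
      ((grid m).map (fun p => f p.1 p.2)).Nodup := by
    intro f hf
    refine hg.map ?_
    rintro ⟨i, j⟩ ⟨i', j'⟩ h
    obtain ⟨rfl, rfl⟩ := hf _ _ _ _ h
    rfl
  refine ⟨inj2 _ ?_, ⟨inj2 _ ?_, ⟨inj2 _ ?_, ⟨inj2 _ ?_, ⟨hr.map ?_, ⟨hr.map ?_, ⟨hr'.map ?_,
    hr'.map ?_, ?_⟩, ?_⟩, ?_⟩, ?_⟩, ?_⟩, ?_⟩, ?_⟩
  all_goals simp [List.Disjoint, ea, eb, tip, es1, es2, eg1, eg2, Function.Injective]
  all_goals (constructorm* _ ∧ _) <;> (intros; omega)

theorem mem_trips {φ : List (Lit ℕ × Lit ℕ × Lit ℕ)} {t : E3 × E3 × E3} :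
    t ∈ trips φ ↔ (∃ i j, i < 3 * φ.length ∧ j < φ.length ∧ (t = tT i j ∨ t = tF φ.length i j)) ∨
      (∃ c j, φ[j]? = some c ∧ (t = tC c.1 j ∨ t = tC c.2.1 j ∨ t = tC c.2.2 j)) ∨
      (∃ s i j k, i < 3 * φ.length ∧ j < φ.length ∧ k < 3 * φ.length * φ.length - φ.length ∧
        t = tG s i j k) := by
  unfold trips
  simp only [List.mem_append, List.mem_flatMap, List.mem_cons, List.not_mem_nil, or_false,
    Prod.exists, mem_grid, List.mem_range, List.mem_zipIdx_iff_getElem?]
  constructor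
  · rintro ((⟨i, j, ⟨h1, h2⟩, h3⟩ | ⟨a, b, c, j, h1, h2⟩) | ⟨i, j, ⟨h1, h2⟩, k, h3, h4⟩)
    · exact Or.inl ⟨i, j, h1, h2, h3⟩
    · exact Or.inr (Or.inl ⟨a, b, c, j, h1, h2⟩)
    · right; right
      rcases h4 with h4 | h4
      · exact ⟨_, _, _, _, h1, h2, h3, h4⟩
      · exact ⟨_, _, _, _, h1, h2, h3, h4⟩
  · rintro (⟨i, j, h1, h2, h3⟩ | ⟨a, b, c, j, h1, h2⟩ | ⟨s, i, j, k, h1, h2, h3, h4⟩)
    · exact Or.inl (Or.inl ⟨i, j, ⟨h1, h2⟩, h3⟩)
    · exact Or.inl (Or.inr ⟨a, b, c, j, h1, h2⟩)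
    · right
      refine ⟨i, j, ⟨h1, h2⟩, k, h3, ?_⟩
      cases s
      · exact Or.inr h4
      · exact Or.inl h4

theorem mem_elems {m : ℕ} {e : E3} : e ∈ elems m ↔
    (∃ i j, i < 3 * m ∧ j < m ∧ (e = ea i j ∨ e = eb i j ∨ ∃ s, e = tip s i j)) ∨
    (∃ j, j < m ∧ (e = es1 j ∨ e = es2 j)) ∨
    (∃ k, k < 3 * m * m - m ∧ (e = eg1 k ∨ e = eg2 k)) := by
  unfold elems
  simp only [List.mem_append, List.mem_map, Prod.exists, mem_grid, List.mem_range]
  constructor
  · rintro (⟨i, j, h, rfl⟩ | ⟨i, j, h, rfl⟩ | ⟨i, j, h, rfl⟩ | ⟨i, j, h, rfl⟩ | ⟨j, h, rfl⟩ | ⟨j, h, rfl⟩ |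
      ⟨j, h, rfl⟩ | ⟨j, h, rfl⟩)
    · exact Or.inl ⟨i, j, h.1, h.2, Or.inl rfl⟩
    · exact Or.inl ⟨i, j, h.1, h.2, Or.inr (Or.inl rfl)⟩
    · exact Or.inl ⟨i, j, h.1, h.2, Or.inr (Or.inr ⟨_, rfl⟩)⟩
    · exact Or.inl ⟨i, j, h.1, h.2, Or.inr (Or.inr ⟨_, rfl⟩)⟩
    · exact Or.inr (Or.inl ⟨j, h, Or.inl rfl⟩)
    · exact Or.inr (Or.inl ⟨j, h, Or.inr rfl⟩)
    · exact Or.inr (Or.inr ⟨j, h, Or.inl rfl⟩)
    · exact Or.inr (Or.inr ⟨j, h, Or.inr rfl⟩)
  · rintro (⟨i, j, h1, h2, rfl | rfl | ⟨s, rfl⟩⟩ | ⟨j, h, rfl | rfl⟩ | ⟨j, h, rfl | rfl⟩)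
    · exact Or.inl ⟨i, j, ⟨h1, h2⟩, rfl⟩
    · exact Or.inr (Or.inl ⟨i, j, ⟨h1, h2⟩, rfl⟩)
    · cases s
      · exact Or.inr (Or.inr (Or.inr (Or.inl ⟨i, j, ⟨h1, h2⟩, rfl⟩)))
      · exact Or.inr (Or.inr (Or.inl ⟨i, j, ⟨h1, h2⟩, rfl⟩))
    · exact Or.inr (Or.inr (Or.inr (Or.inr (Or.inl ⟨j, h, rfl⟩))))
    · exact Or.inr (Or.inr (Or.inr (Or.inr (Or.inr (Or.inl ⟨j, h, rfl⟩)))))
    · exact Or.inr (Or.inr (Or.inr (Or.inr (Or.inr (Or.inr (Or.inl ⟨j, h, rfl⟩))))))
    · exact Or.inr (Or.inr (Or.inr (Or.inr (Or.inr (Or.inr (Or.inr ⟨j, h, rfl⟩))))))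

theorem trips_sub {φ : List (Lit ℕ × Lit ℕ × Lit ℕ)} (hb : Bounded3 φ) :
    ∀ t ∈ trips φ, ∀ e ∈ el t, e ∈ elems φ.length := by
  intro t ht e he
  rw [mem_elems]
  rcases mem_trips.1 ht with ⟨i, j, h1, h2, rfl | rfl⟩ | ⟨c, j, h1, h2⟩ | ⟨s, i, j, k, h1, h2, h3, rfl⟩
  · simp only [el, tT, List.mem_cons, List.not_mem_nil, or_false] at he
    rcases he with rfl | rfl | rfl
    · exact Or.inl ⟨i, j, h1, h2, Or.inr (Or.inr ⟨_, rfl⟩)⟩
    · exact Or.inl ⟨i, j, h1, h2, Or.inl rfl⟩
    · exact Or.inl ⟨i, j, h1, h2, Or.inr (Or.inl rfl)⟩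
  · simp only [el, tF, List.mem_cons, List.not_mem_nil, or_false] at he
    rcases he with rfl | rfl | rfl
    · exact Or.inl ⟨i, j, h1, h2, Or.inr (Or.inr ⟨_, rfl⟩)⟩
    · exact Or.inl ⟨i, _, h1, Nat.mod_lt _ (by omega), Or.inl rfl⟩
    · exact Or.inl ⟨i, j, h1, h2, Or.inr (Or.inl rfl)⟩
  · have hj : j < φ.length := (List.getElem?_eq_some_iff.1 h1).1
    have hc := hb c (List.mem_of_getElem? h1)
    have key : ∀ l : Lit ℕ, l.2 < 3 * φ.length → e ∈ el (tC l j) →
        (∃ i j, i < 3 * φ.length ∧ j < φ.length ∧ (e = ea i j ∨ e = eb i j ∨ ∃ s, e = tip s i j)) ∨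
        (∃ j, j < φ.length ∧ (e = es1 j ∨ e = es2 j)) ∨
        (∃ k, k < 3 * φ.length * φ.length - φ.length ∧ (e = eg1 k ∨ e = eg2 k)) := by
      intro l hl he
      simp only [el, tC, List.mem_cons, List.not_mem_nil, or_false] at he
      rcases he with rfl | rfl | rfl
      · exact Or.inl ⟨l.2, j, hl, hj, Or.inr (Or.inr ⟨_, rfl⟩)⟩
      · exact Or.inr (Or.inl ⟨j, hj, Or.inl rfl⟩)
      · exact Or.inr (Or.inl ⟨j, hj, Or.inr rfl⟩)
    rcases h2 with rfl | rfl | rfl
    · exact key _ hc.1 he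
    · exact key _ hc.2.1 he
    · exact key _ hc.2.2 he
  · simp only [el, tG, List.mem_cons, List.not_mem_nil, or_false] at he
    rcases he with rfl | rfl | rfl
    · exact Or.inl ⟨i, j, h1, h2, Or.inr (Or.inr ⟨_, rfl⟩)⟩
    · exact Or.inr (Or.inr ⟨k, h3, Or.inl rfl⟩)
    · exact Or.inr (Or.inr ⟨k, h3, Or.inr rfl⟩)

theorem tC_nodup (l : Bool × ℕ) (j : ℕ) : (el (tC l j)).Nodup := by
  obtain ⟨s, i⟩ := l
  cases s <;> simp [el, tC, tip, es1, es2]

theorem trips_nodup {φ : List (Lit ℕ × Lit ℕ × Lit ℕ)} : ∀ t ∈ trips φ, (el t).Nodup := by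
  intro t ht
  rcases mem_trips.1 ht with ⟨i, j, h1, h2, rfl | rfl⟩ | ⟨c, j, h1, rfl | rfl | rfl⟩ |
    ⟨s, i, j, k, h1, h2, h3, rfl⟩
  · simp [el, tT, tip, ea, eb]
  · simp [el, tF, tip, ea, eb]
  · exact tC_nodup _ _
  · exact tC_nodup _ _
  · exact tC_nodup _ _
  · cases s <;> simp [el, tG, tip, eg1, eg2]

/-- criterion for exact covers: everything is covered and the number of triples is right -/
theorem perm_of_cover {E : Type} {C : List (E × E × E)} {L : List E} (hL : L.Nodup)
    (hc : ∀ e ∈ L, ∃ t ∈ C, e ∈ el t) (hlen : 3 * C.length ≤ L.length) : (C.flatMap el).Perm L := by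
  have h1 : List.Subperm L (C.flatMap el) := by
    apply List.subperm_of_subset hL
    intro e he
    obtain ⟨t, ht, het⟩ := hc e he
    exact List.mem_flatMap.2 ⟨t, ht, het⟩
  have h2 : (C.flatMap el).length = 3 * C.length := by
    rw [List.length_flatMap]
    have : ∀ t ∈ C, (el t).length = 3 := fun t _ => rfl
    rw [List.map_congr_left this]
    simp [mul_comm]
  exact (h1.perm_of_length_le (by omega)).symm

theorem sat_to_cover {φ : List (Lit ℕ × Lit ℕ × Lit ℕ)} (hb : Bounded3 φ) (hne : φ ≠ [])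
    (h : SAT3 φ) : XC (trips φ) (elems φ.length) := by
  obtain ⟨τ, hτ⟩ := h
  set m := φ.length with hm
  have hm0 : 0 < m := List.length_pos_iff.2 hne
  -- chosen literals
  have hsel : ∀ j, ∃ l : Lit ℕ, j < m → (τ l.2 = l.1 ∧ l.2 < 3 * m ∧ tC l j ∈ trips φ) := by
    intro j
    by_cases hj : j < m
    · have hc : φ[j] ∈ φ := List.getElem_mem hj
      have hq : φ[j]? = some φ[j] := List.getElem?_eq_getElem hj
      have hbb := hb _ hc
      rcases hτ _ hc with h1 | h1 | h1
      · exact ⟨_, fun _ => ⟨h1, hbb.1, mem_trips.2 (Or.inr (Or.inl ⟨_, j, hq, Or.inl rfl⟩))⟩⟩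
      · exact ⟨_, fun _ => ⟨h1, hbb.2.1,
          mem_trips.2 (Or.inr (Or.inl ⟨_, j, hq, Or.inr (Or.inl rfl)⟩))⟩⟩
      · exact ⟨_, fun _ => ⟨h1, hbb.2.2,
          mem_trips.2 (Or.inr (Or.inl ⟨_, j, hq, Or.inr (Or.inr rfl)⟩))⟩⟩
    · exact ⟨(true, 0), fun h => absurd h hj⟩
  choose l hl using hsel
  let Rp : List (ℕ × ℕ) := (grid m).filter (fun p => decide (p.1 ≠ (l p.2).2))
  have hRlen : Rp.length ≤ 3 * m * m - m := by
    have h1 : (grid m).length = Rp.length +
        ((grid m).filter (fun p => !decide (p.1 ≠ (l p.2).2))).length := by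
      rw [← List.countP_eq_length_filter, ← List.countP_eq_length_filter]
      have h0 := List.length_eq_countP_add_countP (l := grid m)
        (fun p : ℕ × ℕ => decide (p.1 ≠ (l p.2).2))
      rw [h0]
      congr 2
      funext p
      simp
    have h2 : m ≤ ((grid m).filter (fun p => !decide (p.1 ≠ (l p.2).2))).length := by
      have h3 : List.Subperm ((List.range m).map (fun j => ((l j).2, j)))
          ((grid m).filter (fun p => !decide (p.1 ≠ (l p.2).2))) := by
        apply List.subperm_of_subset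
        · apply (List.nodup_range).map
          intro a b hab
          exact congrArg Prod.snd hab
        · intro p hp
          obtain ⟨j, hj, rfl⟩ := List.mem_map.1 hp
          rw [List.mem_range] at hj
          rw [List.mem_filter, mem_grid]
          exact ⟨⟨(hl j hj).2.1, hj⟩, by simp⟩
      have h4 := h3.length_le
      simpa using h4
    rw [grid_length] at h1
    omega
  let g : ℕ → E3 × E3 × E3 := fun k =>
    match Rp[k]? with
    | none => tG true 0 0 k
    | some p => tG (τ p.1) p.1 p.2 k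
  let w : ℕ × ℕ → E3 × E3 × E3 := fun p => bif τ p.1 then tT p.1 p.2 else tF m p.1 p.2
  let C : List (E3 × E3 × E3) := (grid m).map w ++ ((List.range m).map (fun j => tC (l j) j) ++
    (List.range (3 * m * m - m)).map g)
  have hw : ∀ i j, i < 3 * m → j < m → w (i, j) ∈ C := by
    intro i j hi hj
    exact List.mem_append_left _ (List.mem_map_of_mem (mem_grid.2 ⟨hi, hj⟩))
  have hcl : ∀ j, j < m → tC (l j) j ∈ C := by
    intro j hj
    exact List.mem_append_right _ (List.mem_append_left _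
      (List.mem_map_of_mem (f := fun j => tC (l j) j) (List.mem_range.2 hj)))
  have hg : ∀ k, k < 3 * m * m - m → g k ∈ C := by
    intro k hk
    exact List.mem_append_right _ (List.mem_append_right _
      (List.mem_map_of_mem (List.mem_range.2 hk)))
  refine ⟨C, ?_, ?_⟩
  · intro t ht
    rcases List.mem_append.1 ht with ht | ht
    · obtain ⟨⟨i, j⟩, hp, rfl⟩ := List.mem_map.1 ht
      rw [mem_grid] at hp
      refine mem_trips.2 (Or.inl ⟨i, j, hp.1, hp.2, ?_⟩)
      simp only [w]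
      cases τ i
      · exact Or.inr rfl
      · exact Or.inl rfl
    · rcases List.mem_append.1 ht with ht | ht
      · obtain ⟨j, hj, rfl⟩ := List.mem_map.1 ht
        exact (hl j (List.mem_range.1 hj)).2.2
      · obtain ⟨k, hk, rfl⟩ := List.mem_map.1 ht
        rw [List.mem_range] at hk
        simp only [g]
        cases hR : Rp[k]? with
        | none => exact mem_trips.2 (Or.inr (Or.inr ⟨_, 0, 0, k, by omega, hm0, hk, rfl⟩))
        | some p =>
          have hp : p ∈ grid m := (List.mem_filter.1 (List.mem_of_getElem? hR)).1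
          rw [mem_grid] at hp
          exact mem_trips.2 (Or.inr (Or.inr ⟨_, p.1, p.2, k, hp.1, hp.2, hk, rfl⟩))
  · apply perm_of_cover (elems_nodup m)
    · intro e he
      rcases mem_elems.1 he with ⟨i, j, h1, h2, rfl | rfl | ⟨s, rfl⟩⟩ | ⟨j, h1, rfl | rfl⟩ |
        ⟨k, h1, rfl | rfl⟩
      · -- `ea i j`
        cases hti : τ i
        · refine ⟨w (i, (j + (m - 1)) % m), hw _ _ h1 (Nat.mod_lt _ hm0), ?_⟩
          have : ((j + (m - 1)) % m + 1) % m = j := by
            rw [Nat.mod_add_mod, show j + (m - 1) + 1 = j + m by omega, Nat.add_mod_right,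
              Nat.mod_eq_of_lt h2]
          simp only [w, hti, cond_false, tF, this, el]
          simp
        · refine ⟨w (i, j), hw _ _ h1 h2, ?_⟩
          simp [w, hti, tT, el]
      · refine ⟨w (i, j), hw _ _ h1 h2, ?_⟩
        simp only [w]
        cases τ i <;> simp [tT, tF, el]
      · by_cases hs : s = τ i
        · subst hs
          by_cases hi : i = (l j).2
          · refine ⟨_, hcl j h2, ?_⟩
            have := (hl j h2).1
            simp [tC, el, hi, this]
          · have hR : (i, j) ∈ Rp := List.mem_filter.2 ⟨mem_grid.2 ⟨h1, h2⟩, by simpa using hi⟩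
            obtain ⟨k, hk, hkR⟩ := List.getElem_of_mem hR
            refine ⟨_, hg k (by omega), ?_⟩
            simp only [g]
            rw [List.getElem?_eq_getElem hk, hkR]
            simp [tG, el]
        · refine ⟨w (i, j), hw _ _ h1 h2, ?_⟩
          simp only [w]
          revert hs
          cases s <;> cases τ i <;> simp [tT, tF, el]
      · exact ⟨_, hcl j h1, by simp [tC, el]⟩
      · exact ⟨_, hcl j h1, by simp [tC, el]⟩
      · refine ⟨_, hg k h1, ?_⟩
        simp only [g]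
        cases Rp[k]? <;> simp [tG, el]
      · refine ⟨_, hg k h1, ?_⟩
        simp only [g]
        cases Rp[k]? <;> simp [tG, el]
    · rw [elems_length]
      simp only [C, List.length_append, List.length_map, List.length_range, grid_length]
      have : m ≤ 3 * m * m := by nlinarith
      zify [this]
      nlinarith

theorem cover_unique {E : Type} {C : List (E × E × E)} {L : List E} (hL : L.Nodup)
    (hp : (C.flatMap el).Perm L) {t t' : E × E × E} (ht : t ∈ C) (ht' : t' ∈ C) {e : E}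
    (he : e ∈ el t) (he' : e ∈ el t') : t = t' := by
  by_contra hne
  have h1 : (C.flatMap el).Nodup := hp.nodup_iff.2 hL
  rw [List.nodup_flatMap] at h1
  have hsymm : Std.Symm (Function.onFun List.Disjoint (el (E := E))) := ⟨fun a b h => h.symm⟩
  exact (h1.2.forall ht ht' hne) he he'

theorem cover_to_sat {φ : List (Lit ℕ × Lit ℕ × Lit ℕ)} (hb : Bounded3 φ)
    (h : XC (trips φ) (elems φ.length)) : SAT3 φ := by
  classical
  obtain ⟨C, hC, hp⟩ := h
  set m := φ.length with hm
  have hex : ∀ e ∈ elems m, ∃ t ∈ C, e ∈ el t := by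
    intro e he
    exact List.mem_flatMap.1 (hp.mem_iff.2 he)
  have huniq : ∀ {t t' : E3 × E3 × E3}, t ∈ C → t' ∈ C → ∀ {e : E3}, e ∈ el t → e ∈ el t' →
      t = t' := by
    intro t t' ht ht' e he he'
    exact cover_unique (elems_nodup m) hp ht ht' he he'
  have hTF : ∀ i j, tT i j ∈ C → tF m i j ∈ C → False := by
    intro i j h1 h2
    have := huniq h1 h2 (e := eb i j) (by simp [tT, el]) (by simp [tF, el])
    simp [tT, tF, tip] at this
  have hB : ∀ i j, i < 3 * m → j < m → tT i j ∈ C ∨ tF m i j ∈ C := by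
    intro i j hi hj
    obtain ⟨t, ht, he⟩ := hex (eb i j) (mem_elems.2 (Or.inl ⟨i, j, hi, hj, Or.inr (Or.inl rfl)⟩))
    rcases mem_trips.1 (hC t ht) with ⟨i', j', h1, h2, rfl | rfl⟩ | ⟨c, j', h1, rfl | rfl | rfl⟩ |
      ⟨s, i', j', k, h1, h2, h3, rfl⟩
    · simp [el, tT, tip, ea, eb] at he
      obtain ⟨rfl, rfl⟩ := he
      exact Or.inl ht
    · simp [el, tF, tip, ea, eb] at he
      obtain ⟨rfl, rfl⟩ := he
      exact Or.inr ht
    · obtain ⟨⟨s, i'⟩, c⟩ := c
      cases s <;> simp [el, tC, tip, es1, es2, eb] at he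
    · obtain ⟨_, ⟨s, i'⟩, c⟩ := c
      cases s <;> simp [el, tC, tip, es1, es2, eb] at he
    · obtain ⟨_, _, ⟨s, i'⟩⟩ := c
      cases s <;> simp [el, tC, tip, es1, es2, eb] at he
    · cases s <;> simp [el, tG, tip, eg1, eg2, eb] at he
  have hstep : ∀ i j, i < 3 * m → j < m → tT i j ∈ C → tT i ((j + 1) % m) ∈ C := by
    intro i j hi hj hT
    have hm0 : 0 < m := by omega
    have hj' : (j + 1) % m < m := Nat.mod_lt _ hm0
    obtain ⟨t, ht, he⟩ := hex (ea i ((j + 1) % m))
      (mem_elems.2 (Or.inl ⟨i, _, hi, hj', Or.inl rfl⟩))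
    rcases mem_trips.1 (hC t ht) with ⟨i', j', h1, h2, rfl | rfl⟩ | ⟨c, j', h1, rfl | rfl | rfl⟩ |
      ⟨s, i', j', k, h1, h2, h3, rfl⟩
    · simp [el, tT, tip, ea, eb] at he
      obtain ⟨rfl, rfl⟩ := he
      exact ht
    · simp [el, tF, tip, ea, eb] at he
      obtain ⟨rfl, he⟩ := he
      exfalso
      have : j' = j := by
        have hjj : j' < m := h2
        rcases Nat.lt_or_ge (j + 1) m with h3 | h3
        · rw [Nat.mod_eq_of_lt h3] at he
          rcases Nat.lt_or_ge (j' + 1) m with h4 | h4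
          · rw [Nat.mod_eq_of_lt h4] at he
            omega
          · have : j' + 1 = m := by omega
            rw [this, Nat.mod_self] at he
            omega
        · have h5 : j + 1 = m := by omega
          rw [h5, Nat.mod_self] at he
          rcases Nat.lt_or_ge (j' + 1) m with h4 | h4
          · rw [Nat.mod_eq_of_lt h4] at he
            omega
          · omega
      subst this
      exact hTF _ _ hT ht
    · obtain ⟨⟨s, i'⟩, c⟩ := c
      cases s <;> simp [el, tC, tip, es1, es2, ea] at he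
    · obtain ⟨_, ⟨s, i'⟩, c⟩ := c
      cases s <;> simp [el, tC, tip, es1, es2, ea] at he
    · obtain ⟨_, _, ⟨s, i'⟩⟩ := c
      cases s <;> simp [el, tC, tip, es1, es2, ea] at he
    · cases s <;> simp [el, tG, tip, eg1, eg2, ea] at he
  have hup : ∀ i, i < 3 * m → ∀ d j, j + d < m → tT i j ∈ C → tT i (j + d) ∈ C := by
    intro i hi d
    induction d with
    | zero => intro j _ h; exact h
    | succ d ih =>
      intro j hj h
      have h1 := ih j (by omega) h
      have h2 := hstep i (j + d) hi (by omega) h1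
      rw [Nat.mod_eq_of_lt (by omega)] at h2
      exact h2
  have hall : ∀ i j, i < 3 * m → j < m → (tT i j ∈ C ↔ tT i 0 ∈ C) := by
    intro i j hi hj
    constructor
    · intro h
      have h1 := hup i hi (m - 1 - j) j (by omega) h
      have h2 : j + (m - 1 - j) = m - 1 := by omega
      rw [h2] at h1
      have h3 := hstep i (m - 1) hi (by omega) h1
      have h4 : m - 1 + 1 = m := by omega
      rwa [h4, Nat.mod_self] at h3
    · intro h
      have := hup i hi j 0 (by omega) h
      rwa [Nat.zero_add] at this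
  -- the assignment
  refine ⟨fun i => decide (tT i 0 ∈ C), ?_⟩
  have hlit : ∀ (l : Lit ℕ) (j : ℕ), l.2 < 3 * m → j < m → tC l j ∈ C →
      decide (tT l.2 0 ∈ C) = l.1 := by
    rintro ⟨s, i⟩ j hi hj ht
    dsimp only at hi ⊢
    have hBj := hB i j hi hj
    cases s
    · rw [decide_eq_false_iff_not, ← hall i j hi hj]
      intro hT
      have := huniq ht hT (e := tip false i j) (by simp [tC, el]) (by simp [tT, el])
      simp [tC, tT, es1, ea] at this
    · rw [decide_eq_true_iff, ← hall i j hi hj]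
      rcases hBj with hT | hF
      · exact hT
      · exfalso
        have := huniq ht hF (e := tip true i j) (by simp [tC, el]) (by simp [tF, el])
        simp [tC, tF, es1, ea] at this
  intro c hc
  obtain ⟨j, hj, hjc⟩ := List.getElem_of_mem hc
  have hjm : j < m := hj
  have hq : φ[j]? = some c := by rw [List.getElem?_eq_getElem hj, hjc]
  have hbc := hb c hc
  obtain ⟨t, ht, he⟩ := hex (es1 j) (mem_elems.2 (Or.inr (Or.inl ⟨j, hjm, Or.inl rfl⟩)))
  have hkey : ∀ (l : Lit ℕ) (j' : ℕ), es1 j ∈ el (tC l j') → j = j' := by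
    rintro ⟨s, i'⟩ j' h
    cases s <;> simpa [el, tC, tip, es1, es2] using h
  rcases mem_trips.1 (hC t ht) with ⟨i', j', h1, h2, rfl | rfl⟩ | ⟨c', j', h1, rfl | rfl | rfl⟩ |
      ⟨s, i', j', k, h1, h2, h3, rfl⟩
  · simp [el, tT, tip, ea, eb, es1] at he
  · simp [el, tF, tip, ea, eb, es1] at he
  · obtain rfl := hkey _ _ he
    obtain rfl : c' = c := by rw [hq] at h1; exact (Option.some.inj h1).symm
    exact Or.inl (hlit _ _ hbc.1 hjm ht)
  · obtain rfl := hkey _ _ he
    obtain rfl : c' = c := by rw [hq] at h1; exact (Option.some.inj h1).symm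
    exact Or.inr (Or.inl (hlit _ _ hbc.2.1 hjm ht))
  · obtain rfl := hkey _ _ he
    obtain rfl : c' = c := by rw [hq] at h1; exact (Option.some.inj h1).symm
    exact Or.inr (Or.inr (hlit _ _ hbc.2.2 hjm ht))
  · cases s <;> simp [el, tG, tip, eg1, eg2, es1] at he

/-! ### Polynomial time -/

theorem poly_range_mul {α : Type} [TEnc α] {n : α → ℕ} (hn : UPoly n) :
    Poly (fun a => grid (n a)) :=
  R671.poly_product (UPoly.range (UPoly.mul (UPoly.const 3) hn)) (UPoly.range hn)

theorem uG {α : Type} [TEnc α] {n : α → ℕ} (hn : UPoly n) :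
    UPoly (fun a => 3 * n a * n a - n a) :=
  UPoly.of_le (Poly.sub (UPoly.toPoly (UPoly.mul (UPoly.mul (UPoly.const 3) hn) hn)) hn.toPoly)
    (UPoly.mul (UPoly.mul (UPoly.const 3) hn) hn) (fun a => Nat.sub_le _ _)

theorem poly_elems {α : Type} [TEnc α] {n : α → ℕ} (hn : UPoly n) : Poly (fun a => elems (n a)) := by
  have h1 := poly_range_mul hn
  have h2 := UPoly.range hn
  have h3 := UPoly.range (uG hn)
  unfold elems ea eb tip es1 es2 eg1 eg2
  simp only [cond_true, cond_false]
  fun_prop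

theorem poly_trips : Poly trips := by
  have hl : UPoly (fun φ : List (Lit ℕ × Lit ℕ × Lit ℕ) => φ.length) := UPoly.length Poly.id
  have h1 := poly_range_mul hl
  have h2 := UPoly.range (uG hl)
  have h2' : Poly (fun p : List (Lit ℕ × Lit ℕ × Lit ℕ) × ℕ × ℕ =>
      List.range (3 * p.1.length * p.1.length - p.1.length)) := h2.comp (Poly.fst Poly.id)
  unfold trips tT tF tC tG ea eb tip es1 es2 eg1 eg2
  refine Poly.append (Poly.append ?_ ?_) ?_
  · fun_prop
  · fun_prop
  · refine Poly.flatMap (F := fun (φ : List (Lit ℕ × Lit ℕ × Lit ℕ)) (p : ℕ × ℕ) =>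
      (List.range (3 * φ.length * φ.length - φ.length)).flatMap
      (fun k => [((bif true then 2 else 3, p.1, p.2), (6, 0, k), (7, 0, k)),
        ((bif false then 2 else 3, p.1, p.2), (6, 0, k), (7, 0, k))])) h1 ?_
    refine Poly.flatMap h2' ?_
    simp only [cond_true, cond_false]
    fun_prop

/-- the reduction -/
noncomputable def red (φ : List (Lit ℕ × Lit ℕ × Lit ℕ)) : List (ℕ × ℕ × ℕ) × ℕ :=
  ((trips φ).map (ren (elems φ.length)), 6 * φ.length * φ.length)

theorem poly_red : Poly red := by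
  have hl : UPoly (fun φ : List (Lit ℕ × Lit ℕ × Lit ℕ) => φ.length) := UPoly.length Poly.id
  have he := poly_elems hl
  have he' : Poly (fun p : List (Lit ℕ × Lit ℕ × Lit ℕ) × (E3 × E3 × E3) => elems p.1.length) :=
    he.comp (Poly.fst Poly.id)
  unfold red ren
  refine Poly.pair (Poly.map poly_trips ?_) ?_
  · exact Poly.pair (Poly.index he' (by fun_prop))
      (Poly.pair (Poly.index he' (by fun_prop)) (Poly.index he' (by fun_prop)))
  · fun_prop

theorem mem_trips_length {φ : List (Lit ℕ × Lit ℕ × Lit ℕ)} :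
    6 * φ.length * φ.length ≤ (trips φ).length := by
  have h : ((grid φ.length).flatMap (fun p => [tT p.1 p.2, tF φ.length p.1 p.2])).length =
      6 * φ.length * φ.length := by
    rw [List.length_flatMap]
    simp [grid_length]
    ring
  unfold trips
  rw [List.length_append, List.length_append, h]
  omega

/-- **Exact cover by 3-sets is NP-hard**, with the promise `X3CPr`. -/
theorem hardPr_X3C : HardPr X3CPr X3C := by
  refine hardPr_SAT3b.trans poly_red ?_ ?_
  · rintro φ ⟨_, hb, hne⟩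
    have hm0 : 0 < φ.length := List.length_pos_iff.2 hne
    refine ⟨?_, ?_, ?_⟩
    · intro t ht
      obtain ⟨s, hs, rfl⟩ := List.mem_map.1 ht
      have h1 := trips_nodup s hs
      have h2 := trips_sub hb s hs
      have h3 : el (ren (elems φ.length) s) = (el s).map (index (elems φ.length)) := rfl
      rw [h3]
      constructor
      · refine (List.nodup_map_iff_inj_on h1).2 ?_
        intro x hx y hy hxy
        exact index_inj (h2 x hx) (h2 y hy) hxy
      · intro x hx
        obtain ⟨e, he, rfl⟩ := List.mem_map.1 hx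
        have := index_lt (h2 e he)
        rw [elems_length] at this
        exact this
    · show 1 ≤ 6 * φ.length * φ.length
      nlinarith
    · show 6 * φ.length * φ.length ≤ ((trips φ).map _).length
      rw [List.length_map]
      exact mem_trips_length
  · rintro φ ⟨_, hb, hne⟩
    unfold red
    rw [← XC_ren (elems_nodup _) elems_length (trips_sub hb)]
    exact ⟨sat_to_cover hb hne, cover_to_sat hb⟩

theorem hardI_X3C : HardI X3C := hardPr_X3C.toHardI

/-- the number of triples of an exact cover -/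
theorem X3C_length {C : List (ℕ × ℕ × ℕ)} {q : ℕ} (h : (C.flatMap el).Perm (List.range (3 * q))) :
    C.length = q := by
  have h1 := h.length_eq
  have h2 : (C.flatMap el).length = 3 * C.length := by
    rw [List.length_flatMap]
    have : ∀ t ∈ C, (el t).length = 3 := fun t _ => rfl
    rw [List.map_congr_left this]
    simp [mul_comm]
  rw [List.length_range] at h1
  omega

/-- exact covers in terms of sets -/
theorem X3C_iff_finset {I : List (ℕ × ℕ × ℕ) × ℕ} (hI : X3CPr I) :
    X3C I ↔ ∃ C : Finset (ℕ × ℕ × ℕ), (∀ t ∈ C, t ∈ I.1) ∧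
      ∀ x < 3 * I.2, ∃! t, t ∈ C ∧ x ∈ el t := by
  classical
  constructor
  · rintro ⟨C, hC, hp⟩
    refine ⟨C.toFinset, fun t ht => hC t (List.mem_toFinset.1 ht), fun x hx => ?_⟩
    obtain ⟨t, ht, hxt⟩ := List.mem_flatMap.1 (hp.mem_iff.2 (List.mem_range.2 hx))
    refine ⟨t, ⟨List.mem_toFinset.2 ht, hxt⟩, ?_⟩
    rintro t' ⟨ht', hxt'⟩
    exact cover_unique List.nodup_range hp (List.mem_toFinset.1 ht') ht hxt' hxt
  · rintro ⟨C, hC, hu⟩
    refine ⟨C.toList, fun t ht => hC t (Finset.mem_toList.1 ht), ?_⟩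
    refine (List.perm_ext_iff_of_nodup ?_ List.nodup_range).2 ?_
    · rw [List.nodup_flatMap]
      refine ⟨fun t ht => (hI.1 t (hC t (Finset.mem_toList.1 ht))).1, ?_⟩
      refine (C.nodup_toList).imp_of_mem ?_
      intro t t' ht ht' hne x hx hx'
      have hxlt := (hI.1 t (hC t (Finset.mem_toList.1 ht))).2 x hx
      exact hne ((hu x hxlt).unique ⟨Finset.mem_toList.1 ht, hx⟩ ⟨Finset.mem_toList.1 ht', hx'⟩)
    · intro x
      rw [List.mem_range]
      constructor
      · intro hx
        obtain ⟨t, ht, hxt⟩ := List.mem_flatMap.1 hx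
        exact (hI.1 t (hC t (Finset.mem_toList.1 ht))).2 x hxt
      · intro hx
        obtain ⟨t, ⟨ht, hxt⟩, _⟩ := hu x hx
        exact List.mem_flatMap.2 ⟨t, Finset.mem_toList.2 ht, hxt⟩

end Pool.Agent.NPC.H632
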