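import Pool.Agent.H546R2.SL.A14

set_option autoImplicit false

open Module MvPolynomial

namespace Pool.Agent.H632R2.Border

open Pool.Agent.H546R2.SL

variable {Ω K : Type*} [Field Ω] [Field K] {σ ι : Type*}

/-- specialization of a subspace along a place `φ : O → Ω` with a section `j` -/
def spec (O : ValuationSubring K) (φ : O →+* Ω) (j : Ω →+* O) (hj : ∀ c, φ (j c) = c)
    (V : Submodule K (MvPolynomial ι K)) : Submodule Ω (MvPolynomial ι Ω) where
  carrier := {p | ∃ G : MvPolynomial ι O, map O.subtype G ∈ V ∧ map φ G = p}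
  add_mem' := by
    rintro p q ⟨G, hG, rfl⟩ ⟨H, hH, rfl⟩
    exact ⟨G + H, by rw [map_add]; exact V.add_mem hG hH, by rw [map_add]⟩
  zero_mem' := ⟨0, by rw [map_zero]; exact V.zero_mem, by rw [map_zero]⟩
  smul_mem' := by
    rintro c p ⟨G, hG, rfl⟩
    refine ⟨C (j c) * G, ?_, ?_⟩
    · rw [map_mul, map_C, ← smul_eq_C_mul]
      exact V.smul_mem _ hG
    · rw [map_mul, map_C, hj, smul_eq_C_mul]

variable {O : ValuationSubring K} {φ : O →+* Ω} {j : Ω →+* O} {hj : ∀ c, φ (j c) = c}

lemma mem_spec {V : Submodule K (MvPolynomial ι K)} {p : MvPolynomial ι Ω} :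
    p ∈ spec O φ j hj V ↔ ∃ G : MvPolynomial ι O, map O.subtype G ∈ V ∧ map φ G = p := Iff.rfl

lemma spec_mono {V W : Submodule K (MvPolynomial ι K)} (h : V ≤ W) :
    spec O φ j hj V ≤ spec O φ j hj W := by
  rintro p ⟨G, hG, rfl⟩
  exact ⟨G, h hG, rfl⟩

/-- in a finite nonzero family of elements of `K` one divides the others -/
lemma exists_max {B : Type*} (s : Finset B) (c : B → K) (h : ∃ b ∈ s, c b ≠ 0) :
    ∃ b ∈ s, c b ≠ 0 ∧ ∀ b' ∈ s, c b' / c b ∈ O := by
  classical
  induction s using Finset.induction_on with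
  | empty => obtain ⟨b, hb, _⟩ := h; simp at hb
  | insert a s ha ih =>
    by_cases hs : ∃ b ∈ s, c b ≠ 0
    · obtain ⟨b, hb, hb0, hbm⟩ := ih hs
      rcases O.mem_or_inv_mem (c a / c b) with h1 | h1
      · refine ⟨b, Finset.mem_insert_of_mem hb, hb0, ?_⟩
        intro b' hb'
        rcases Finset.mem_insert.mp hb' with rfl | hb'
        · exact h1
        · exact hbm _ hb'
      · by_cases ha0 : c a = 0
        · refine ⟨b, Finset.mem_insert_of_mem hb, hb0, ?_⟩
          intro b' hb'
          rcases Finset.mem_insert.mp hb' with rfl | hb'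
          · rw [ha0, zero_div]; exact O.zero_mem
          · exact hbm _ hb'
        · refine ⟨a, Finset.mem_insert_self _ _, ha0, ?_⟩
          intro b' hb'
          rcases Finset.mem_insert.mp hb' with rfl | hb'
          · rw [div_self ha0]; exact O.one_mem
          · have h2 := O.mul_mem _ _ (hbm b' hb') h1
            rwa [inv_div, div_mul_div_cancel₀ hb0] at h2
    · push Not at hs
      obtain ⟨b, hb, hb0⟩ := h
      rcases Finset.mem_insert.mp hb with rfl | hb
      · refine ⟨b, Finset.mem_insert_self _ _, hb0, ?_⟩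
        intro b' hb'
        rcases Finset.mem_insert.mp hb' with rfl | hb'
        · rw [div_self hb0]; exact O.one_mem
        · rw [hs b' hb', zero_div]; exact O.zero_mem
      · exact absurd (hs b hb) hb0

lemma linInd_lift {B : Type*} (G : B → MvPolynomial ι O)
    (h : LinearIndependent Ω (fun b => map φ (G b))) :
    LinearIndependent K (fun b => map O.subtype (G b)) := by
  classical
  rw [linearIndependent_iff'] at h ⊢
  intro s c hc b hb
  by_contra hb0
  obtain ⟨b₀, hb₀, hc₀, hmax⟩ := exists_max (O := O) s c ⟨b, hb, hb0⟩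
  set d : B → O := fun b' => if hb' : b' ∈ s then ⟨c b' / c b₀, hmax b' hb'⟩ else 0 with hd
  have hd1 : ∀ b' ∈ s, ((d b' : O) : K) = c b' / c b₀ := by
    intro b' hb'
    rw [hd]; simp only [hb', dif_pos]
  have h1 : map O.subtype (∑ b' ∈ s, C (d b') * G b') = 0 := by
    rw [map_sum]
    have h2 : ∀ b' ∈ s, map O.subtype (C (d b') * G b') =
        (c b₀)⁻¹ • (c b' • map O.subtype (G b')) := by
      intro b' hb'
      rw [map_mul, map_C, ← smul_eq_C_mul, smul_smul]
      congr 1
      change ((d b' : O) : K) = _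
      rw [hd1 b' hb']
      field_simp
    rw [Finset.sum_congr rfl h2, ← Finset.smul_sum, hc, smul_zero]
  have h3 : (∑ b' ∈ s, C (d b') * G b') = 0 := by
    apply map_injective O.subtype Subtype.val_injective
    rw [h1, map_zero]
  have h4 := congrArg (map φ) h3
  rw [map_sum, map_zero] at h4
  have h5 := h s (fun b' => φ (d b')) (by
    rw [← h4]
    refine Finset.sum_congr rfl fun b' _ => ?_
    rw [map_mul, map_C, smul_eq_C_mul]) b₀ hb₀
  have h6 : d b₀ = 1 := by
    apply Subtype.val_injective
    rw [hd1 b₀ hb₀, div_self hc₀]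
    rfl
  rw [h6, map_one] at h5
  exact one_ne_zero h5

lemma spec_fg {V : Submodule K (MvPolynomial ι K)} (hV : V.FG) : (spec O φ j hj V).FG ∧
    finrank Ω ↥(spec O φ j hj V) ≤ finrank K ↥V := by
  classical
  have : FiniteDimensional K ↥V := Module.Finite.iff_fg.mpr hV
  let b := Basis.ofVectorSpace Ω ↥(spec O φ j hj V)
  have hG : ∀ i, ∃ G : MvPolynomial ι O, map O.subtype G ∈ V ∧
      map φ G = (b i : MvPolynomial ι Ω) := fun i => (b i).2
  choose G hGV hGb using hG
  have h1 : LinearIndependent Ω (fun i => map φ (G i)) := by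
    have h2 := b.linearIndependent.map' (spec O φ j hj V).subtype (Submodule.ker_subtype _)
    have h3 : (⇑(spec O φ j hj V).subtype ∘ ⇑b) = fun i => map φ (G i) := by
      funext i
      rw [hGb]; rfl
    rwa [h3] at h2
  have h4 := linInd_lift (φ := φ) G h1
  have h5 : LinearIndependent K (fun i => (⟨map O.subtype (G i), hGV i⟩ : ↥V)) := by
    apply LinearIndependent.of_comp V.subtype
    exact h4
  have := h5.finite
  have := Fintype.ofFinite (Basis.ofVectorSpaceIndex Ω ↥(spec O φ j hj V))
  refine ⟨?_, ?_⟩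
  · have := Module.Finite.of_basis b
    exact Module.Finite.iff_fg.mp inferInstance
  · rw [finrank_eq_card_basis b]
    exact h5.fintype_card_le_finrank

lemma spec_pow_le (V : Submodule K (MvPolynomial ι K)) (t : ℕ) :
    (spec O φ j hj V) ^ t ≤ spec O φ j hj (V ^ t) := by
  induction t with
  | zero =>
    rw [pow_zero, pow_zero]
    intro p hp
    obtain ⟨c, rfl⟩ := Submodule.mem_one.mp hp
    refine ⟨C (j c), ?_, ?_⟩
    · rw [map_C]
      exact Submodule.mem_one.mpr ⟨_, rfl⟩
    · rw [map_C, hj]; rfl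
  | succ t ih =>
    rw [pow_succ, pow_succ, Submodule.mul_le]
    intro p hp q hq
    obtain ⟨G, hG, rfl⟩ := ih hp
    obtain ⟨H, hH, rfl⟩ := hq
    refine ⟨G * H, ?_, ?_⟩
    · rw [map_mul]; exact Submodule.mul_mem_mul hG hH
    · rw [map_mul]

lemma spec_good {h : ℕ → ℕ} {R : ℕ} {V : Submodule K (MvPolynomial ι K)} (hV : Good h R V) :
    Good h R (spec O φ j hj V) := by
  refine ⟨(spec_fg hV.fg).1, ⟨1, by rw [map_one]; exact hV.one, by rw [map_one]⟩, fun t => ?_⟩
  have h1 := spec_fg (O := O) (φ := φ) (j := j) (hj := hj) (hV.fg.pow t)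
  have : FiniteDimensional Ω ↥(spec O φ j hj (V ^ t)) := Module.Finite.iff_fg.mpr h1.1
  exact (Submodule.finrank_mono (spec_pow_le V t)).trans (h1.2.trans (hV.bound t))

lemma totalDegree_map_le {A B : Type*} [CommSemiring A] [CommSemiring B] (ψ : A →+* B)
    (p : MvPolynomial ι A) : (map ψ p).totalDegree ≤ p.totalDegree := by
  unfold MvPolynomial.totalDegree
  exact Finset.sup_mono (support_map_subset _ _)

lemma restrict_le_spec {W : Submodule K (MvPolynomial ι K)}
    (hW : restrictTotalDegree ι K 1 ≤ W) :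
    restrictTotalDegree ι Ω 1 ≤ spec O φ j hj W := by
  intro p hp
  refine ⟨map j p, ?_, ?_⟩
  · apply hW
    rw [mem_restrictTotalDegree] at hp ⊢
    rw [map_map]
    exact (totalDegree_map_le _ _).trans hp
  · rw [map_map]
    have : φ.comp j = RingHom.id Ω := RingHom.ext hj
    rw [this, map_id]

lemma map_aeval_comm {A B : Type*} [CommRing A] [CommRing B] (ψ : A →+* B)
    (S : σ → MvPolynomial ι A) (p : MvPolynomial σ A) :
    map ψ (aeval S p) = aeval (fun v => map ψ (S v)) (map ψ p) := by
  induction p using MvPolynomial.induction_on with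
  | C a => simp
  | add p q hp hq => rw [map_add, map_add, hp, hq, map_add, map_add]
  | mul_X p v hp => rw [map_mul, map_mul, hp, map_mul, map_mul]; simp

/-- the gradient of a limit of a computed polynomial lies in a good space -/
theorem gradient_good_border [Fintype ι] (hj : ∀ c, φ (j c) = c) (S : σ → MvPolynomial ι Ω)
    (hS : ∀ v, S v ∈ restrictTotalDegree ι Ω 1) (s : ℕ) (M : Finset ℕ)
    (g : ℕ → MvPolynomial σ K) (hg : NSLP s M g) (F : MvPolynomial σ O) (f : MvPolynomial σ Ω)
    (hF : ∃ i < s, map O.subtype F = g i) (hf : map φ F = f) :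
    ∃ W : Submodule Ω (MvPolynomial ι Ω), restrictTotalDegree ι Ω 1 ≤ W ∧
      Good (Nm ι) (3 * M.card) W ∧ ∀ v, aeval S (pderiv v f) ∈ W := by
  classical
  set S' : σ → MvPolynomial ι K := fun v => map (O.subtype.comp j) (S v) with hS'
  have hS'd : ∀ v, S' v ∈ restrictTotalDegree ι K 1 := by
    intro v
    rw [mem_restrictTotalDegree]
    exact (totalDegree_map_le _ _).trans ((mem_restrictTotalDegree _ _ _).mp (hS v))
  obtain ⟨W, hW0, hWg, hWd⟩ := gradient_good' (good_W₀ (K := K) (ι := ι)) (aeval S')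
    (fun v => by rw [aeval_X]; exact hS'd v) s M g hg (map O.subtype F) hF
  refine ⟨spec O φ j hj W, restrict_le_spec hW0, spec_good hWg, fun v => ?_⟩
  refine ⟨aeval (fun v => map j (S v)) (pderiv v F), ?_, ?_⟩
  · have h1 := hWd v
    rw [map_aeval_comm]
    have h2 : (fun v => map O.subtype (map j (S v))) = S' := by
      funext v; rw [map_map]
    rw [h2, ← pderiv_map]
    exact h1
  · rw [map_aeval_comm]
    have h2 : (fun v => map φ (map j (S v))) = S := by
      funext v
      rw [map_map]
      have : φ.comp j = RingHom.id Ω := RingHom.ext hj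
      rw [this, map_id]
    rw [h2, ← pderiv_map, hf]

end Pool.Agent.H632R2.Border
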