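import Pool.Agent.H632R2.Border1

set_option autoImplicit false
set_option linter.unusedSectionVars false

open Module MvPolynomial Finset

namespace Pool.Agent.H632R2.Border

open Pool.Agent.H546R2.SL

/-- the main inequality, for limits of computed polynomials -/
theorem main_ineq_border (K : Type*) [Field K] [IsAlgClosed K] [CharZero K]
    {F : Type*} [Field F] (O : ValuationSubring F) (φ : O →+* K) (ψ : K →+* O)
    (hψ : ∀ c, φ (ψ c) = c) {k n n₁ L B E₀ : ℕ}
    (hk : 2 ≤ k) (hkn : k ≤ n) (hB : 0 < B) (hn : 2 * n₁ ≤ n) (hL : L + E₀ ^ 2 ≤ n₁)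
    (hE : ∀ Cf : Finset (Fin (2 * k)) → K,
      (∀ T : Finset (Fin (2 * k)), T.card = k → Cf T = 1) →
      ∀ P : Finset (Fin k → K), (∀ z ∈ P, ∀ j : Fin (2 * k),
        ∑ r ∈ Finset.range k, (-1) ^ r * ((r.factorial : K) *
          ∑ J ∈ (Finset.univ.erase j).powersetCard r, (∏ c ∈ J, avec z c) * Cf (insert j J)) = 0) →
      P.card ≤ E₀)
    (N : ℕ) (hN : N = n + (B * (2 * k) + (B - 1) * k))
    (s : ℕ) (M : Finset ℕ) (g : ℕ → MvPolynomial (Fin N × Fin N) F) (hg : NSLP s M g)
    (G : MvPolynomial (Fin N × Fin N) O) (hG : ∃ i < s, map O.subtype G = g i)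
    (hf : map φ G = perN K N) :
    (k - 1) ^ (B * (L * k)) ≤ 2 ^ (3 * M.card) := by
  classical
  obtain ⟨ζ₀, hζ₀⟩ := exists_zeta K k (by omega)
  set ι := Fin B × Fin L × Fin k with hι
  set ζ : Fin k → MvPolynomial ι K := fun c => C (ζ₀ c) with hζ
  have hζ1 : ∀ t ≤ k, ∑ V : Finset (Fin k), (if V.card = t then ∏ c ∈ V, ζ c else 0) =
      if t = 0 then 1 else if t = k then -1 else 0 := by
    intro t ht
    have h1 := congrArg (C (σ := ι)) (hζ₀ t ht)
    rw [map_sum] at h1
    have h2 : ∀ V : Finset (Fin k), (if V.card = t then ∏ c ∈ V, ζ c else 0) =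
        C (σ := ι) (if V.card = t then ∏ c ∈ V, ζ₀ c else 0) := by
      intro V
      split_ifs
      · rw [map_prod]
      · rw [map_zero]
    simp_rw [h2]
    rw [h1]
    split_ifs
    · rw [map_one]
    · rw [map_neg, map_one]
    · rw [map_zero]
  set a := aent K k n₁ L B n with ha
  have hcr := card_row n k (2 * k) B
  have hcc := card_col n k (2 * k) B hkn hB
  let er : Fin N ≃ Fin n ⊕ RowV k (2 * k) B :=
    Fintype.equivOfCardEq (by rw [hcr, Fintype.card_fin, hN])
  let ec : Fin N ≃ Col n k (2 * k) B :=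
    Fintype.equivOfCardEq (by rw [hcc, Fintype.card_fin, hN])
  have hdeg : ∀ r c, bigM ζ a r c ∈ restrictTotalDegree ι K 1 := by
    intro r c
    rw [mem_restrictTotalDegree]
    rcases r with i | ⟨b, _⟩ | _
    · rcases c with c | ⟨b, j | j⟩
      · simp [bigM, rowR]
      · exact (aent_homog K k n₁ L B n b i j).totalDegree_le
      · simp [bigM, rowR]
    · rcases c with c | ⟨b', d⟩
      · simp [bigM, rowV, ded]
      · simp only [bigM, rowV, ded, Sum.elim_inr]
        split_ifs <;> simp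
    · rcases c with c | ⟨b', d | d⟩
      · simp [bigM, rowV, fl]
      · simp [bigM, rowV, fl]
      · simp only [bigM, rowV, fl, Sum.elim_inr, hζ]
        rw [totalDegree_C]; exact Nat.zero_le _
  obtain ⟨W, hW0, hWgood, hWd⟩ := gradient_good_border (O := O) (φ := φ) (j := ψ) hψ
    (fun p : Fin N × Fin N => bigM ζ a (er p.1) (ec p.2))
    (fun v => hdeg _ _) s M g hg G (perN K N) hG hf
  set y : Fin B × Fin n × Fin (2 * k) → MvPolynomial ι K := fun v =>
    phi k (X v.2.2 * ∏ i' ∈ Finset.univ.erase v.2.1, (1 + lin (a v.1 i'))) with hy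
  have hyW : ∀ v, y v ∈ W := by
    rintro ⟨b, i, j⟩
    have h1 := hWd (er.symm (Sum.inl i), ec.symm (Sum.inr (b, Sum.inl j)))
    rw [aeval_pderiv, Equiv.apply_symm_apply, Equiv.apply_symm_apply,
      eps_bigM_deriv ζ (by omega) hkn hB hζ1 a b i j, cst_C, ← smul_eq_C_mul] at h1
    have h2 := W.smul_mem (cst K n k (2 * k) B)⁻¹ h1
    rwa [smul_smul, inv_mul_cancel₀ (cst_ne_zero K n k (2 * k) B), one_smul] at h2
  have hcardι : Fintype.card ι = B * (L * k) := by
    change Fintype.card (Fin B × Fin L × Fin k) = _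
    simp [Fintype.card_prod]
  rw [← hcardι]
  apply degree_bound y (k - 1) (by omega) (fun v => phi_deriv_homog (a v.1)
    (fun i c => aent_homog K k n₁ L B n v.1 i c) v.2.1 v.2.2) ?_ (3 * M.card) W hW0 hWgood hyW
  intro ξ hξ
  have h3 : ∀ b : Fin B, (fun (l : Fin L) (r : Fin k) => ξ (b, l, r)) = 0 := by
    intro b
    apply block_zero hk hn hL hE _ (fun i j => eval ξ (a b i j))
    · intro i j
      exact eval_aent K k n₁ L B n ξ b i j
    · intro i j
      have h4 := hξ (b, i, j)
      rw [hy] at h4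
      simp only at h4
      rwa [map_phi_deriv] at h4
  funext ⟨b, l, r⟩
  exact congrFun (congrFun (h3 b) l) r


end Pool.Agent.H632R2.Border
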