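import Pool.Agent.H632R2.Border2

set_option autoImplicit false

open Module MvPolynomial Finset

namespace Pool.Agent.H632R2.Border

open Pool.Agent.H546R2.SL

section Place

variable (Ω : Type*) [Field Ω]

lemma eval_mul_ne {p q : Polynomial Ω} (hp : p.eval 0 ≠ 0) (hq : q.eval 0 ≠ 0) :
    (p * q).eval 0 ≠ 0 := by
  rw [Polynomial.eval_mul]; exact mul_ne_zero hp hq

lemma eval_ne_of_dvd {p q : Polynomial Ω} (h : p ∣ q) (hq : q.eval 0 ≠ 0) : p.eval 0 ≠ 0 := by
  obtain ⟨r, rfl⟩ := h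
  rw [Polynomial.eval_mul] at hq
  exact left_ne_zero_of_mul hq

/-- the local ring of rational functions defined at `0` -/
noncomputable def O0 : ValuationSubring (RatFunc Ω) where
  carrier := {x | x.denom.eval 0 ≠ 0}
  mul_mem' {x y} hx hy :=
    eval_ne_of_dvd Ω (RatFunc.denom_mul_dvd x y) (eval_mul_ne Ω hx hy)
  one_mem' := by simp
  add_mem' {x y} hx hy :=
    eval_ne_of_dvd Ω (RatFunc.denom_add_dvd x y) (eval_mul_ne Ω hx hy)
  zero_mem' := by simp
  neg_mem' {x} hx := by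
    have h : (-x) = (RatFunc.C (-1)) * x := by simp
    show (-x).denom.eval 0 ≠ 0
    rw [h]
    refine eval_ne_of_dvd Ω (RatFunc.denom_mul_dvd _ _) (eval_mul_ne Ω ?_ hx)
    rw [RatFunc.denom_C]; simp
  mem_or_inv_mem' x := by
    by_cases hx : x = 0
    · left; rw [hx]; simp
    by_cases h : x.denom.eval 0 = 0
    · right
      refine eval_ne_of_dvd Ω (RatFunc.denom_inv_dvd hx) ?_
      intro h2
      obtain ⟨a, b, hab⟩ := RatFunc.isCoprime_num_denom x
      have h3 := congrArg (Polynomial.eval 0) hab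
      rw [Polynomial.eval_add, Polynomial.eval_mul, Polynomial.eval_mul, h, h2] at h3
      simp at h3
    · exact Or.inl h

lemma mem_O0 {x : RatFunc Ω} : x ∈ O0 Ω ↔ x.denom.eval 0 ≠ 0 := Iff.rfl

/-- evaluation at `0` -/
noncomputable def φ0 : O0 Ω →+* Ω where
  toFun x := RatFunc.eval (RingHom.id Ω) 0 (x : RatFunc Ω)
  map_one' := by
    show RatFunc.eval (RingHom.id Ω) 0 (1 : RatFunc Ω) = 1
    simp
  map_zero' := by
    show RatFunc.eval (RingHom.id Ω) 0 (0 : RatFunc Ω) = 0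
    simp
  map_add' x y := RatFunc.eval_add (RingHom.id Ω) 0 x.2 y.2
  map_mul' x y := RatFunc.eval_mul (RingHom.id Ω) 0 x.2 y.2

/-- constants -/
noncomputable def ψ0 : Ω →+* O0 Ω :=
  (RatFunc.C (K := Ω)).codRestrict (O0 Ω).toSubring (fun c => by
    show (RatFunc.C c).denom.eval 0 ≠ 0
    rw [RatFunc.denom_C]; simp)

lemma φψ (c : Ω) : φ0 Ω (ψ0 Ω c) = c := by
  show RatFunc.eval (RingHom.id Ω) 0 (RatFunc.C c) = c
  rw [RatFunc.eval_C]; rfl

lemma φ0_poly (p : Polynomial Ω) (h : algebraMap (Polynomial Ω) (RatFunc Ω) p ∈ O0 Ω) :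
    φ0 Ω ⟨_, h⟩ = p.eval 0 := by
  show RatFunc.eval (RingHom.id Ω) 0 (algebraMap (Polynomial Ω) (RatFunc Ω) p) = _
  rw [RatFunc.eval_algebraMap]
  simp [Polynomial.coeff_zero_eq_eval_zero]

end Place

section Map

variable {k Ω : Type*} [Field k] [Field Ω] (f : k →+* Ω)

/-- base change of rational functions -/
noncomputable def rmap : RatFunc k →+* RatFunc Ω :=
  RatFunc.mapRingHom (Polynomial.mapRingHom f) (by
    intro p hp
    rw [Submonoid.mem_comap]
    rw [mem_nonZeroDivisors_iff_ne_zero] at hp ⊢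
    exact (Polynomial.map_ne_zero_iff f.injective).mpr hp)

lemma rmap_apply (x : RatFunc k) : rmap f x =
    algebraMap _ _ (x.num.map f) / algebraMap _ _ (x.denom.map f) := by
  have h := RatFunc.map_apply (Polynomial.mapRingHom f) (by
    intro p hp
    rw [Submonoid.mem_comap]
    rw [mem_nonZeroDivisors_iff_ne_zero] at hp ⊢
    exact (Polynomial.map_ne_zero_iff f.injective).mpr hp) x
  exact h

lemma rmap_mem {x : RatFunc k} (hx : x.denom.eval 0 ≠ 0) : rmap f x ∈ O0 Ω := by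
  rw [mem_O0, rmap_apply]
  refine eval_ne_of_dvd Ω (RatFunc.denom_div_dvd _ _) ?_
  rw [Polynomial.eval_map, Polynomial.eval₂_at_zero]
  rw [← Polynomial.coeff_zero_eq_eval_zero] at hx
  exact fun h => hx (f.injective (by rw [h, map_zero]))

lemma rmap_eval {x : RatFunc k} (hx : x.denom.eval 0 ≠ 0) :
    φ0 Ω ⟨rmap f x, rmap_mem f hx⟩ = f (x.eval (RingHom.id k) 0) := by
  have hp : ∀ p : Polynomial Ω, algebraMap (Polynomial Ω) (RatFunc Ω) p ∈ O0 Ω := by
    intro p
    rw [mem_O0, RatFunc.denom_algebraMap]; simp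
  have hd : (x.denom.map f).eval 0 ≠ 0 := by
    rw [Polynomial.eval_map, Polynomial.eval₂_at_zero]
    rw [← Polynomial.coeff_zero_eq_eval_zero] at hx
    exact fun h => hx (f.injective (by rw [h, map_zero]))
  have hd0 : x.denom.map f ≠ 0 := fun h => hd (by rw [h, Polynomial.eval_zero])
  have h1 : (⟨rmap f x, rmap_mem f hx⟩ : O0 Ω) * ⟨_, hp (x.denom.map f)⟩ =
      ⟨_, hp (x.num.map f)⟩ := by
    apply Subtype.ext
    show rmap f x * algebraMap _ _ (x.denom.map f) = algebraMap _ _ (x.num.map f)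
    rw [rmap_apply, div_mul_cancel₀]
    exact (map_ne_zero_iff _ (RatFunc.algebraMap_injective Ω)).mpr hd0
  have h2 := congrArg (φ0 Ω) h1
  rw [map_mul, φ0_poly, φ0_poly] at h2
  have h3 : x.eval (RingHom.id k) 0 = x.num.eval 0 / x.denom.eval 0 := by
    rw [RatFunc.eval]; simp [Polynomial.coeff_zero_eq_eval_zero]
  have h4 : ∀ p : Polynomial k, (p.map f).eval 0 = f (p.eval 0) := by
    intro p
    rw [Polynomial.eval_map, Polynomial.eval₂_at_zero, Polynomial.coeff_zero_eq_eval_zero]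
  rw [h3, map_div₀, ← h4, ← h4, eq_div_iff hd]
  exact h2

end Map

/-- superlinear lower bound for the approximative complexity of the permanent -/
theorem superlinear_border (k : Type*) [Field k] [CharZero k] (c : ℕ) :
    ∃ N₀ : ℕ, ∀ N ≥ N₀, ∀ (s : ℕ) (M : Finset ℕ)
      (g : ℕ → MvPolynomial (Fin N × Fin N) (RatFunc k)) (F : MvPolynomial (Fin N × Fin N) (RatFunc k)),
      NSLP s M g → (∃ i < s, F = g i) →
      (∀ d, (coeff d F).denom.eval 0 ≠ 0 ∧
        (coeff d F).eval (RingHom.id k) 0 = coeff d (perN k N)) →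
      c * N ^ 2 ≤ M.card := by
  set k' := 2 ^ (90 * c) + 1 with hk
  have hk1 : 1 ≤ 2 ^ (90 * c) := Nat.one_le_two_pow
  have hk2 : 2 ≤ k' := by omega
  obtain ⟨E₀, hE⟩ := rows_finite (AlgebraicClosure k) k' hk2
  refine ⟨60 * k' + 40 * E₀ ^ 2 + 40, ?_⟩
  intro N hN s M g F hg hF hv
  set Ω := AlgebraicClosure k with hΩ
  set ρ := rmap (algebraMap k Ω) with hρ
  have hg' := hg.map ρ
  -- the lift
  have hcoef : ∀ d, coeff d (MvPolynomial.map ρ F) ∈ O0 Ω := by
    intro d
    rw [coeff_map]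
    exact rmap_mem _ (hv d).1
  have hrange : MvPolynomial.map ρ F ∈ (MvPolynomial.map (σ := Fin N × Fin N) (O0 Ω).subtype).range := by
    rw [RingHom.mem_range]
    change _ ∈ Set.range _
    rw [mem_range_map_iff_coeffs_subset]
    intro x hx
    rw [Finset.mem_coe, mem_coeffs_iff] at hx
    obtain ⟨d, _, rfl⟩ := hx
    exact ⟨⟨_, hcoef d⟩, rfl⟩
  obtain ⟨G, hG⟩ := hrange
  have hφ : MvPolynomial.map (φ0 Ω) G = perN Ω N := by
    rw [← map_perN (algebraMap k Ω) N]
    ext d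
    rw [coeff_map, coeff_map, ← (hv d).2, ← rmap_eval (algebraMap k Ω) (hv d).1]
    congr 1
    apply Subtype.ext
    have h1 := congrArg (coeff d) hG
    rw [coeff_map, coeff_map] at h1
    exact h1
  have hf' : ∃ i < s, MvPolynomial.map (O0 Ω).subtype G =
      (fun i => MvPolynomial.map ρ (g i)) i := by
    obtain ⟨i, hi, hfi⟩ := hF
    refine ⟨i, hi, ?_⟩
    beta_reduce
    rw [← hfi]
    exact hG
  set B := N / (6 * k') with hB
  have hB1 : B * (6 * k') ≤ N := Nat.div_mul_le_self N (6 * k')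
  have hB2 : N < B * (6 * k') + 6 * k' := by
    have := Nat.lt_div_mul_add (a := N) (b := 6 * k') (by omega)
    exact this
  have hBpos : 0 < B := Nat.div_pos (by omega) (by omega)
  set L := N / 4 - E₀ ^ 2 with hL
  have hBk : (B - 1) * k' + k' = B * k' := by
    have : B = (B - 1) + 1 := by omega
    conv_rhs => rw [this]
    ring
  have h6 : B * (6 * k') = 6 * (B * k') := by ring
  have h2 : B * (2 * k') = 2 * (B * k') := by ring
  rw [h6] at hB1 hB2
  have hmain := main_ineq_border Ω (O0 Ω) (φ0 Ω) (ψ0 Ω) (φψ Ω) (k := k')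
    (n := N - (B * (2 * k') + (B - 1) * k')) (n₁ := N / 4) (L := L) (B := B) (E₀ := E₀)
    hk2 (by omega) hBpos (by omega) (by omega) hE N (by omega) s M _ hg' G hf' hφ
  rw [show k' - 1 = 2 ^ (90 * c) by omega, ← pow_mul] at hmain
  have h3 := (Nat.pow_le_pow_iff_right (by norm_num : 1 < 2)).mp hmain
  have h4 : 9 * N ≤ 60 * (B * k') := by omega
  have h5 : 9 * N ≤ 40 * L := by omega
  have h7 : (9 * N) * (9 * N) ≤ (60 * (B * k')) * (40 * L) := Nat.mul_le_mul h4 h5
  have h8 : N ^ 2 ≤ 30 * (B * (L * k')) := by nlinarith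
  have h9 : c * N ^ 2 ≤ c * (30 * (B * (L * k'))) := Nat.mul_le_mul_left c h8
  have h10 : 90 * c * (B * (L * k')) = 3 * (c * (30 * (B * (L * k')))) := by ring
  omega

end Pool.Agent.H632R2.Border
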