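import Pool.Agent.H632R2.Border3
import Pool.Agent.H546R2.SM.B8

set_option autoImplicit false
set_option linter.unusedSectionVars false

open Module MvPolynomial Finset

namespace Pool.Agent.H632R2.Border4

open Pool.Agent.H546R2.SM Pool.Agent.H632R2.Border
open Pool.Agent.H546R2.SL (perN aeval_pderiv exists_zeta phi lin Good Nm good_W₀ degree_bound
  NSLP phi_sum phi_C_mul eps map_perN)

/-- the main inequality, for limits of computed polynomials -/
theorem main_ineq_border (K : Type*) [Field K] [IsAlgClosed K] [CharZero K]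
    {F : Type*} [Field F] (O : ValuationSubring F) (φ : O →+* K) (ψ : K →+* O)
    (hψ : ∀ c, φ (ψ c) = c) {q h k p : ℕ}
    (hk : 2 ≤ k) (N : ℕ)
    (hN : N = q * (4 * k + h) + h * (2 * k + h + 2) + (3 * k + h + 1) + p)
    (s : ℕ) (M : Finset ℕ) (g : ℕ → MvPolynomial (Fin N × Fin N) F) (hg : NSLP s M g)
    (G : MvPolynomial (Fin N × Fin N) O) (hG : ∃ i < s, map O.subtype G = g i)
    (hf : map φ G = perN K N) :
    (k - 1) ^ (q * (q * (h * k))) ≤ 2 ^ (3 * M.card) := by
  classical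
  obtain ⟨zC, hzC⟩ := exists_zeta K (2 * k + h) (by omega)
  obtain ⟨zU, hzU⟩ := exists_zeta K (k + 1) (by omega)
  obtain ⟨zm, hzm⟩ := exists_zeta K (2 * k) (by omega)
  obtain ⟨zV, hzV⟩ := exists_zeta K (k + h + 1) (by omega)
  obtain ⟨t, ht, hzero⟩ := exists_t (q := q) (h := h) (k := k) (C₀ := 2 * k + h) K hk rfl
  set FMA := FM K q h k p t zC zU zm zV (Aent K q h k t) with hFMA
  let er : Fin N ≃ FR q h (2 * k) (2 * k + h) k (k + h) p :=
    Fintype.equivOfCardEq (by rw [card_FR, Fintype.card_fin, hN]; ring)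
  let ec : Fin N ≃ FC q h (2 * k) (2 * k + h) k (k + h) p :=
    Fintype.equivOfCardEq (by rw [card_FC, Fintype.card_fin, hN]; ring)
  have hCmem : ∀ x : K, C x ∈ restrictTotalDegree (Idx q h k) K 1 := by
    intro x
    rw [mem_restrictTotalDegree, totalDegree_C]
    exact Nat.zero_le _
  have hdeg : ∀ i j, FMA i j ∈ restrictTotalDegree (Idx q h k) K 1 := by
    intro i j
    rw [hFMA]
    unfold FM
    apply fin_mem (W := (restrictTotalDegree (Idx q h k) K 1 : Set (MvPolynomial (Idx q h k) K)))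
    · exact Submodule.zero_mem _
    · exact hCmem 1
    · exact fun _ => hCmem _
    · exact fun _ => hCmem _
    · exact fun _ => hCmem _
    · exact fun _ => hCmem _
    · intro b b' r c
      have := ((zent_homog (K := K) (h := h) b b' r c).C_mul (t ^ ex c r 0)).totalDegree_le
      exact (mem_restrictTotalDegree _ _ _).mpr this
    · exact fun _ _ => hCmem _
    · exact fun _ _ => hCmem _
    · exact fun _ => hCmem _
  obtain ⟨W, hW0, hWgood, hWd⟩ := gradient_good_border (O := O) (φ := φ) (j := ψ) hψ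
    (fun x : Fin N × Fin N => FMA (er x.1) (ec x.2))
    (fun v => hdeg _ _) s M g hg G (perN K N) hG hf
  have hyW : ∀ v, Yf K q h k (2 * k + h) t v ∈ W := by
    rintro ⟨b₀, b₀', r₀, c₀⟩
    have h1 := hWd (er.symm (posR b₀' c₀), ec.symm (posC b₀ r₀))
    rw [aeval_pderiv, Equiv.apply_symm_apply, Equiv.apply_symm_apply] at h1
    have h2 := per_add FMA (FM K q h k p t zC zU zm zV (fun b b' r c => Aent K q h k t b b' r c +
        if b' = b₀' ∧ c = c₀ then (if b = b₀ ∧ r = r₀ then 1 else 0) else 0))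
      (posR b₀' c₀) (posC b₀ r₀) (fun i j => fin_add _ _ _ _ _ _ _ _ _ b₀ b₀' r₀ c₀
        (fun _ _ _ _ => rfl) i j)
    rw [← h2] at h1
    have h3 := W.smul_mem (t ^ ex c₀ r₀ 0) h1
    rw [smul_eq_C_mul, hFMA, FM_diff ht (by omega) zC zU zm zV hzC hzU hzm hzV b₀ b₀' r₀ c₀,
      ← smul_eq_C_mul] at h3
    have hne := cst_ne_zero (K := K) q h (2 * k) (2 * k + h) k (k + h) p
    have h4 := W.smul_mem (cst K q h (2 * k) (2 * k + h) k (k + h) p (-1) (-1) (-1) (-1))⁻¹ h3
    rwa [smul_smul, inv_mul_cancel₀ hne, one_smul] at h4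
  have hcardι : Fintype.card (Idx q h k) = q * (q * (h * k)) := by
    simp [Idx, Fintype.card_prod]
  rw [← hcardι]
  exact degree_bound (fun v => Yf K q h k (2 * k + h) t v) (k - 1) (by omega)
    (fun v => Yf_homog t v) hzero (3 * M.card) W hW0 hWgood hyW

/-- lower bound for the number of product lines, approximative version -/
theorem nlogn_border (k₀ : Type*) [Field k₀] [CharZero k₀] (N : ℕ) (s : ℕ) (M : Finset ℕ)
    (g : ℕ → MvPolynomial (Fin N × Fin N) (RatFunc k₀))
    (F : MvPolynomial (Fin N × Fin N) (RatFunc k₀)) (hg : NSLP s M g) (hF : ∃ i < s, F = g i)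
    (hv : ∀ d, (coeff d F).denom.eval 0 ≠ 0 ∧
        (coeff d F).eval (RingHom.id k₀) 0 = coeff d (perN k₀ N)) :
    N ^ 2 * (Nat.log 2 N - 11) ≤ 112 * M.card := by
  by_cases hL : Nat.log 2 N ≤ 11
  · rw [Nat.sub_eq_zero_of_le hL, mul_zero]
    exact Nat.zero_le _
  push Not at hL
  have hN0 : N ≠ 0 := by
    rintro rfl
    simp at hL
  set L := Nat.log 2 N with hLdef
  set a := L / 2 - 5 with ha
  set x := 2 ^ a with hx
  have hNL : 2 ^ L ≤ N := Nat.pow_log_le_self 2 hN0
  have hxN : 1024 * (x * x) ≤ N := by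
    calc 1024 * (x * x) = 2 ^ (a + a + 10) := by
          rw [hx, pow_add, pow_add]; norm_num; ring
      _ ≤ 2 ^ L := Nat.pow_le_pow_right (by norm_num) (by omega)
      _ ≤ N := hNL
  have hx2 : 2 ≤ x := by
    have : 1 ≤ a := by omega
    calc 2 = 2 ^ 1 := by norm_num
      _ ≤ 2 ^ a := Nat.pow_le_pow_right (by norm_num) this
  set k := x + 1 with hk
  have hkk : 24 * (k * k) + 23 * k + 1 ≤ 72 * (x * x) := by
    have h1 : 2 * x ≤ x * x := Nat.mul_le_mul_right x hx2
    have h2 : k * k = x * x + 2 * x + 1 := by rw [hk]; ring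
    rw [h2, hk]
    nlinarith
  set G' := 24 * (k * k) + 15 * k + 1 with hG'
  set q := (N - G') / (8 * k) with hq
  have hkpos : 0 < 8 * k := by omega
  have hq1 : q * (8 * k) ≤ N - G' := Nat.div_mul_le_self _ _
  have hq2 : N - G' < q * (8 * k) + 8 * k := Nat.lt_div_mul_add hkpos
  have hGN : G' ≤ N := by omega
  have hqk : q * (8 * k) = 8 * (q * k) := by ring
  have hNform : N = q * (4 * k + 4 * k) + 4 * k * (2 * k + 4 * k + 2) + (3 * k + 4 * k + 1) +
      (N - G' - q * (8 * k)) := by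
    have h1 : q * (4 * k + 4 * k) = q * (8 * k) := by ring
    have h2 : 4 * k * (2 * k + 4 * k + 2) = 24 * (k * k) + 8 * k := by ring
    rw [h1, h2]
    omega
  set Ω := AlgebraicClosure k₀ with hΩ
  set ρ := rmap (algebraMap k₀ Ω) with hρ
  have hg' := hg.map ρ
  -- the lift
  have hcoef : ∀ d, coeff d (MvPolynomial.map ρ F) ∈ O0 Ω := by
    intro d
    rw [coeff_map]
    exact rmap_mem _ (hv d).1
  have hrange : MvPolynomial.map ρ F ∈ (MvPolynomial.map (σ := Fin N × Fin N) (O0 Ω).subtype).range := by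
    rw [RingHom.mem_range]
    change _ ∈ Set.range _
    rw [mem_range_map_iff_coeffs_subset]
    intro x hx
    rw [Finset.mem_coe, mem_coeffs_iff] at hx
    obtain ⟨d, _, rfl⟩ := hx
    exact ⟨⟨_, hcoef d⟩, rfl⟩
  obtain ⟨G, hG⟩ := hrange
  have hφ : MvPolynomial.map (φ0 Ω) G = perN Ω N := by
    rw [← map_perN (algebraMap k₀ Ω) N]
    ext d
    rw [coeff_map, coeff_map, ← (hv d).2, ← rmap_eval (algebraMap k₀ Ω) (hv d).1]
    congr 1
    apply Subtype.ext
    have h1 := congrArg (coeff d) hG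
    rw [coeff_map, coeff_map] at h1
    exact h1
  have hf' : ∃ i < s, MvPolynomial.map (O0 Ω).subtype G =
      (fun i => MvPolynomial.map ρ (g i)) i := by
    obtain ⟨i, hi, hfi⟩ := hF
    refine ⟨i, hi, ?_⟩
    beta_reduce
    rw [← hfi]
    exact hG
  have hmain := main_ineq_border Ω (O0 Ω) (φ0 Ω) (ψ0 Ω) (φψ Ω) (q := q) (h := 4 * k) (k := k)
    (p := N - G' - q * (8 * k)) (by omega) N hNform s M _ hg' G hf' hφ
  rw [show k - 1 = 2 ^ a by rw [← hx]; omega, ← pow_mul] at hmain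
  have h3 := (Nat.pow_le_pow_iff_right (by norm_num : 1 < 2)).mp hmain
  have h4 : q * (q * (4 * k * k)) = 4 * ((q * k) * (q * k)) := by ring
  rw [h4] at h3
  have h5 : 952 * N ≤ 8192 * (q * k) := by omega
  have h6 : (952 * N) * (952 * N) ≤ (8192 * (q * k)) * (8192 * (q * k)) := Nat.mul_le_mul h5 h5
  have h7 : L - 11 ≤ 2 * a := by omega
  set Q := (q * k) * (q * k) with hQ
  have h8 : 906304 * (N ^ 2) ≤ 67108864 * Q := by
    rw [hQ]; nlinarith
  have h9 : a * (906304 * (N ^ 2)) ≤ a * (67108864 * Q) := Nat.mul_le_mul_left a h8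
  have h10 : a * (4 * Q) = 4 * (a * Q) := by ring
  have h11 : a * (67108864 * Q) = 67108864 * (a * Q) := by ring
  have h12 : a * (906304 * (N ^ 2)) = 906304 * (a * N ^ 2) := by ring
  rw [h10] at h3
  rw [h11, h12] at h9
  have h13 : N ^ 2 * (L - 11) ≤ 2 * (a * N ^ 2) := by
    calc N ^ 2 * (L - 11) ≤ N ^ 2 * (2 * a) := Nat.mul_le_mul_left _ h7
      _ = 2 * (a * N ^ 2) := by ring
  omega

end Pool.Agent.H632R2.Border4
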