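import Pool.Agent.H632R2.Laman

/-!
The generic rigidity matroid of a simple graph in the plane: definitions and the bridge to the
count matroid.
-/

namespace Pool.Agent.H632R2.Cogirth

open Pool.Agent.H598R2.Cnt Pool.Agent.H632R2.Laman

/-- The rigidity matrix `R(G, p)` of the graph `G` at the realization `p : V → ℝ²`: one row per
edge, two columns per vertex.  In the row of the edge `e`, the two columns of an endpoint `w` of
`e` hold `p(w) - p(w')`, where `w'` is the other endpoint of `e`; all other entries are `0`. -/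
noncomputable def rigidityMatrix {V : Type} [DecidableEq V] (G : SimpleGraph V)
    (p : V → Fin 2 → ℝ) : Matrix G.edgeSet (V × Fin 2) ℝ :=
  fun e c => if h : c.1 ∈ e.1 then p c.1 c.2 - p (Sym2.Mem.other h) c.2 else 0

/-- A realization is generic if its `2|V|` coordinates are algebraically independent over `ℚ`. -/
def Generic {V : Type} (p : V → Fin 2 → ℝ) : Prop :=
  AlgebraicIndependent ℚ (fun c : V × Fin 2 => p c.1 c.2)

/-- `G` is rigid in the plane: at (every) generic realization, the rank of the rigidity matrix is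
at least `min(binom(|V|, 2), 2|V| - 3)`. -/
def RigidInPlane {V : Type} [Fintype V] [DecidableEq V] (G : SimpleGraph V) : Prop :=
  ∀ p : V → Fin 2 → ℝ, Generic p →
    min ((Fintype.card V).choose 2) (2 * Fintype.card V - 3) ≤ (rigidityMatrix G p).rank

/-- The co-girth of the generic rigidity matroid: the least size of a set `F` of edges such that
`G - F` is not rigid in the plane. -/
noncomputable def cogirth {V : Type} [Fintype V] [DecidableEq V] (G : SimpleGraph V) : ℕ :=
  sInf {k | ∃ F : Finset (Sym2 V), (F : Set (Sym2 V)) ⊆ G.edgeSet ∧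
    ¬ RigidInPlane (G.deleteEdges (F : Set (Sym2 V))) ∧ F.card = k}

section Bridge

variable {V : Type} [Fintype V] [DecidableEq V]

open Classical in
/-- the edges of a graph as a set of pairs -/
noncomputable def prs (G : SimpleGraph V) : Finset (Finset V) := G.edgeFinset.image Sym2.toFinset

theorem prs_pairs (G : SimpleGraph V) : Pairs (prs G) := by
  classical
  intro e he
  obtain ⟨f, hf, rfl⟩ := Finset.mem_image.1 he
  exact Sym2.card_toFinset_of_not_isDiag _ (G.not_isDiag_of_mem_edgeFinset hf)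

omit [Fintype V] in
theorem toFinset_mk (u v : V) : Sym2.toFinset s(u, v) = {u, v} := by
  ext x
  simp

omit [Fintype V] in
theorem toFinset_injective : Function.Injective (Sym2.toFinset (α := V)) := by
  intro e f h
  apply Sym2.ext
  intro x
  rw [← Sym2.mem_toFinset, ← Sym2.mem_toFinset, h]

theorem row_eq (G : SimpleGraph V) (p : V → Fin 2 → ℝ) (e : G.edgeSet) (w : V) (k : Fin 2) :
    rigidityMatrix G p e (w, k) = rv p (Sym2.toFinset e.1) w k := by
  obtain ⟨e, he⟩ := e
  induction e with
  | _ u v =>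
    have huv : u ≠ v := G.ne_of_adj he
    unfold rigidityMatrix
    rw [toFinset_mk, rv_pair p huv]
    dsimp only
    split_ifs with h h1 h2 h1 h2
    · subst h1
      have : Sym2.Mem.other h = v := by
        have h3 := Sym2.other_spec h
        exact Sym2.congr_right.1 h3
      rw [this]
      rfl
    · subst h2
      have : Sym2.Mem.other h = u := by
        have h3 := Sym2.other_spec h
        rw [Sym2.eq_swap] at h3
        exact Sym2.congr_left.1 h3
      rw [this]
      rfl
    · simp at h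
      tauto
    · subst h1
      simp at h
    · subst h2
      simp at h
    · rfl

theorem rank_eq (G : SimpleGraph V) (p : V → Fin 2 → ℝ) : (rigidityMatrix G p).rank =
    Module.finrank ℝ (Submodule.span ℝ (rv p '' (prs G : Set (Finset V)))) := by
  classical
  rw [Matrix.rank_eq_finrank_span_row]
  let L : (V → Fin 2 → ℝ) ≃ₗ[ℝ] (V × Fin 2 → ℝ) := (LinearEquiv.curry ℝ ℝ V (Fin 2)).symm
  have h1 : Set.range (rigidityMatrix G p).row = L '' (rv p '' (prs G : Set (Finset V))) := by
    ext x
    simp only [Set.mem_range, Set.mem_image, prs, Finset.coe_image, SimpleGraph.coe_edgeFinset]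
    constructor
    · rintro ⟨e, rfl⟩
      refine ⟨rv p (Sym2.toFinset e.1), ⟨_, ⟨e.1, e.2, rfl⟩, rfl⟩, ?_⟩
      funext c
      exact (row_eq G p e c.1 c.2).symm
    · rintro ⟨_, ⟨_, ⟨e, he, rfl⟩, rfl⟩, rfl⟩
      refine ⟨⟨e, he⟩, ?_⟩
      funext c
      exact row_eq G p ⟨e, he⟩ c.1 c.2
  rw [h1, show (L '' (rv p '' (prs G : Set (Finset V)))) =
    ((L : (V → Fin 2 → ℝ) →ₗ[ℝ] (V × Fin 2 → ℝ)) '' (rv p '' (prs G : Set (Finset V)))) from rfl,
    Submodule.span_image]
  exact LinearEquiv.finrank_map_eq L _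

theorem choose_le {n : ℕ} (h : 2 ≤ n) : 2 * n - 3 ≤ n.choose 2 := by
  obtain ⟨m, rfl⟩ := Nat.exists_eq_add_of_le h
  rw [Nat.choose_two_right]
  rw [Nat.le_div_iff_mul_le (by norm_num)]
  have : 2 + m - 1 = m + 1 := by omega
  rw [this]
  have h2 : 2 * (2 + m) - 3 = 2 * m + 1 := by omega
  rw [h2]
  rcases m with _ | _ | m
  · norm_num
  · norm_num
  · nlinarith

theorem rigid_iff (G : SimpleGraph V) (h : 2 ≤ Fintype.card V) :
    RigidInPlane G ↔ Rig (prs G) Finset.univ := by
  unfold RigidInPlane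
  rw [min_eq_right (choose_le h)]
  constructor
  · intro hG
    obtain ⟨p, hp⟩ := exists_gen V
    have h1 := hG p hp
    rw [rank_eq] at h1
    refine (rig_iff_rank (z := p) hp (prs_pairs G) (fun _ _ => Finset.subset_univ _)
      (by simpa using h)).2 ?_
    rw [Finset.card_univ]
    omega
  · intro hG p hp
    have h1 := (rig_iff_rank (z := p) hp (prs_pairs G) (fun _ _ => Finset.subset_univ _)
      (by simpa using h)).1 hG
    rw [Finset.card_univ] at h1
    rw [rank_eq]
    omega

theorem prs_deleteEdges (G : SimpleGraph V) (F : Finset (Sym2 V)) :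
    prs (G.deleteEdges (F : Set (Sym2 V))) = prs G \ F.image Sym2.toFinset := by
  classical
  ext e
  simp only [prs, Finset.mem_image, Finset.mem_sdiff, SimpleGraph.mem_edgeFinset,
    SimpleGraph.edgeSet_deleteEdges, Set.mem_sdiff, Finset.mem_coe]
  constructor
  · rintro ⟨a, ⟨h1, h2⟩, rfl⟩
    refine ⟨⟨a, h1, rfl⟩, ?_⟩
    rintro ⟨b, hb, hab⟩
    rw [toFinset_injective hab] at hb
    exact h2 hb
  · rintro ⟨⟨a, h1, rfl⟩, h2⟩
    exact ⟨a, ⟨h1, fun h3 => h2 ⟨a, h3, rfl⟩⟩, rfl⟩

omit [Fintype V] in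
theorem not_rig_empty {X : Finset V} (_ : 2 ≤ X.card) : ¬ Rig (∅ : Finset (Finset V)) X := by
  rintro ⟨I, hI, _, _, hc⟩
  rw [Finset.subset_empty.1 hI] at hc
  simp at hc
  omega

theorem cogirth_le_iff (G : SimpleGraph V) (h : 2 ≤ Fintype.card V) (k : ℕ) :
    cogirth G ≤ k ↔ ∃ F ⊆ prs G, F.card ≤ k ∧ ¬ Rig (prs G \ F) Finset.univ := by
  classical
  have hset : {k | ∃ F : Finset (Sym2 V), (F : Set (Sym2 V)) ⊆ G.edgeSet ∧
      ¬ RigidInPlane (G.deleteEdges (F : Set (Sym2 V))) ∧ F.card = k} =
      {k | ∃ F ⊆ prs G, ¬ Rig (prs G \ F) Finset.univ ∧ F.card = k} := by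
    ext k
    constructor
    · rintro ⟨F, h1, h2, rfl⟩
      refine ⟨F.image Sym2.toFinset, ?_, ?_, ?_⟩
      · apply Finset.image_subset_image
        intro e he
        rw [SimpleGraph.mem_edgeFinset]
        exact h1 he
      · rw [← prs_deleteEdges, ← rigid_iff _ h]
        exact h2
      · exact Finset.card_image_of_injective _ toFinset_injective
    · rintro ⟨F, h1, h2, rfl⟩
      have h3 : F ⊆ Finset.univ.image (Sym2.toFinset (α := V)) := by
        intro e he
        obtain ⟨a, _, ha⟩ := Finset.mem_image.1 (h1 he)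
        exact Finset.mem_image.2 ⟨a, Finset.mem_univ _, ha⟩
      obtain ⟨F', -, rfl⟩ := Finset.subset_image_iff.1 h3
      refine ⟨F', ?_, ?_, (Finset.card_image_of_injective _ toFinset_injective).symm⟩
      · intro e he
        have h4 := h1 (Finset.mem_image_of_mem _ he)
        obtain ⟨a, ha, hae⟩ := Finset.mem_image.1 h4
        rw [toFinset_injective hae] at ha
        exact SimpleGraph.mem_edgeFinset.1 ha
      · rw [rigid_iff _ h, prs_deleteEdges]
        exact h2
  unfold cogirth
  rw [hset]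
  constructor
  · intro hk
    have hne : {k | ∃ F ⊆ prs G, ¬ Rig (prs G \ F) Finset.univ ∧ F.card = k}.Nonempty := by
      refine ⟨(prs G).card, prs G, subset_rfl, ?_, rfl⟩
      rw [Finset.sdiff_self]
      exact not_rig_empty (by simpa using h)
    obtain ⟨F, h1, h2, h3⟩ := Nat.sInf_mem hne
    exact ⟨F, h1, by omega, h2⟩
  · rintro ⟨F, h1, h2, h3⟩
    have h4 : F.card ∈ {k | ∃ F ⊆ prs G, ¬ Rig (prs G \ F) Finset.univ ∧ F.card = k} :=
      ⟨F, h1, h3, rfl⟩
    exact (Nat.sInf_le h4).trans h2

end Bridge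

/-! ### Transport along injections -/

section Transport

variable {V W : Type} [DecidableEq V] [DecidableEq W]

/-- images of sets under an injection, as an injection -/
def mp (f : V ↪ W) : Finset V ↪ Finset W := (Finset.mapEmbedding f).toEmbedding

omit [DecidableEq V] [DecidableEq W] in
theorem mp_apply (f : V ↪ W) (e : Finset V) : mp f e = e.map f := rfl

theorem ins_map (f : V ↪ W) (I : Finset (Finset V)) (Y : Finset W) :
    ins (I.map (mp f)) Y = ins I (Y.preimage f f.injective.injOn) := by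
  unfold ins
  rw [← Finset.card_map (mp f)]
  congr 1
  ext e
  simp only [Finset.mem_filter, Finset.mem_map]
  constructor
  · rintro ⟨⟨a, ha, rfl⟩, h⟩
    refine ⟨a, ⟨ha, ?_⟩, rfl⟩
    intro x hx
    rw [Finset.mem_preimage]
    exact h (Finset.mem_map_of_mem f hx)
  · rintro ⟨a, ⟨ha, h⟩, rfl⟩
    refine ⟨⟨a, ha, rfl⟩, ?_⟩
    intro y hy
    obtain ⟨x, hx, rfl⟩ := Finset.mem_map.1 hy
    exact Finset.mem_preimage.1 (h hx)

omit [DecidableEq V] [DecidableEq W] in
theorem preimage_map (f : V ↪ W) (X : Finset V) :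
    (X.map f).preimage f f.injective.injOn = X := by
  ext x
  simp

theorem sp_map (f : V ↪ W) {I : Finset (Finset V)} (hI : Pairs I) :
    Sp (I.map (mp f)) ↔ Sp I := by
  constructor
  · intro h X hX
    have h1 := h (X.map f) (by rwa [Finset.card_map])
    rwa [ins_map, preimage_map, Finset.card_map] at h1
  · intro h Y hY
    rw [ins_map]
    have h2 : (Y.preimage f f.injective.injOn).card ≤ Y.card := by
      rw [← Finset.card_map f]
      apply Finset.card_le_card
      intro y hy
      obtain ⟨x, hx, rfl⟩ := Finset.mem_map.1 hy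
      exact Finset.mem_preimage.1 hx
    by_cases h3 : 2 ≤ (Y.preimage f f.injective.injOn).card
    · have := h _ h3
      omega
    · have h4 : ins I (Y.preimage f f.injective.injOn) = 0 := by
        unfold ins
        rw [Finset.card_eq_zero, Finset.filter_eq_empty_iff]
        intro e he h5
        have h6 := Finset.card_le_card h5
        rw [hI e he] at h6
        exact h3 h6
      omega

theorem rig_map (f : V ↪ W) {Γ : Finset (Finset V)} (hΓ : Pairs Γ) (X : Finset V) :
    Rig (Γ.map (mp f)) (X.map f) ↔ Rig Γ X := by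
  constructor
  · rintro ⟨I, hI, h1, h2, h3⟩
    obtain ⟨J, hJ, rfl⟩ := Finset.subset_map_iff.1 hI
    refine ⟨J, hJ, (sp_map f (fun e he => hΓ e (hJ he))).1 h1, ?_, ?_⟩
    · intro e he
      have := h2 _ (Finset.mem_map_of_mem (mp f) he)
      exact Finset.map_subset_map.1 this
    · rwa [Finset.card_map, Finset.card_map] at h3
  · rintro ⟨I, hI, h1, h2, h3⟩
    refine ⟨I.map (mp f), Finset.map_subset_map.2 hI, (sp_map f (fun e he => hΓ e (hI he))).2 h1,
      ?_, ?_⟩
    · intro e he
      obtain ⟨a, ha, rfl⟩ := Finset.mem_map.1 he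
      exact Finset.map_subset_map.2 (h2 a ha)
    · rwa [Finset.card_map, Finset.card_map]

end Transport

/-! ### Coded graphs -/

/-- The graph with vertex set `{0, …, n-1}` and edge list `E`. -/
def graph (I : ℕ × List (ℕ × ℕ)) : SimpleGraph (Fin I.1) :=
  SimpleGraph.fromRel (fun u v => ((u : ℕ), (v : ℕ)) ∈ I.2)

/-- `(n, E)` is a valid code of a simple graph with at least two vertices: every edge is given once,
as a pair `(u, v)` with `u < v < n`. -/
def IsCode (I : ℕ × List (ℕ × ℕ)) : Prop := 2 ≤ I.1 ∧ (∀ e ∈ I.2, e.1 < e.2 ∧ e.2 < I.1) ∧ I.2.Nodup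

/-- the pairs of a list of edges -/
def ps (E : List (ℕ × ℕ)) : Finset (Finset ℕ) := (E.map (fun e => {e.1, e.2})).toFinset

theorem prs_graph {I : ℕ × List (ℕ × ℕ)} (h : IsCode I) :
    (prs (graph I)).map (mp Fin.valEmbedding) = ps I.2 := by
  ext e
  simp only [Finset.mem_map, prs, Finset.mem_image, SimpleGraph.mem_edgeFinset, ps,
    List.mem_toFinset, List.mem_map, mp_apply]
  constructor
  · rintro ⟨_, ⟨a, ha, rfl⟩, rfl⟩
    induction a with
    | _ u v =>
      rw [SimpleGraph.mem_edgeSet, graph, SimpleGraph.fromRel_adj] at ha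
      rw [toFinset_mk]
      rcases ha.2 with h1 | h1
      · refine ⟨_, h1, ?_⟩
        simp
      · refine ⟨_, h1, ?_⟩
        simp [Finset.pair_comm]
  · rintro ⟨⟨u, v⟩, huv, rfl⟩
    have h1 := h.2.1 _ huv
    dsimp only at h1
    refine ⟨{⟨u, h1.1.trans h1.2⟩, ⟨v, h1.2⟩}, ⟨s(⟨u, h1.1.trans h1.2⟩, ⟨v, h1.2⟩), ?_, ?_⟩, ?_⟩
    · rw [SimpleGraph.mem_edgeSet, graph, SimpleGraph.fromRel_adj]
      refine ⟨?_, Or.inl huv⟩
      intro h2
      have := congrArg Fin.val h2
      dsimp only at this
      omega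
    · rw [toFinset_mk]
    · simp

theorem map_univ_range (n : ℕ) :
    (Finset.univ : Finset (Fin n)).map Fin.valEmbedding = Finset.range n := by
  ext x
  simp only [Finset.mem_map, Finset.mem_univ, true_and, Finset.mem_range]
  constructor
  · rintro ⟨a, rfl⟩
    exact a.2
  · intro h
    exact ⟨⟨x, h⟩, rfl⟩

theorem rigidInPlane_graph {I : ℕ × List (ℕ × ℕ)} (h : IsCode I) :
    RigidInPlane (graph I) ↔ Rig (ps I.2) (Finset.range I.1) := by
  rw [rigid_iff _ (by simpa using h.1), ← prs_graph h, ← map_univ_range, rig_map _ (prs_pairs _)]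

theorem cogirth_graph {I : ℕ × List (ℕ × ℕ)} (h : IsCode I) (k : ℕ) :
    cogirth (graph I) ≤ k ↔ ∃ F ⊆ ps I.2, F.card ≤ k ∧ ¬ Rig (ps I.2 \ F) (Finset.range I.1) := by
  rw [cogirth_le_iff _ (by simpa using h.1), ← prs_graph h, ← map_univ_range]
  constructor
  · rintro ⟨F, h1, h2, h3⟩
    refine ⟨F.map (mp Fin.valEmbedding), Finset.map_subset_map.2 h1, by rwa [Finset.card_map], ?_⟩
    rw [← Finset.map_sdiff, rig_map _ (fun e he => prs_pairs _ e (Finset.mem_sdiff.1 he).1)]
    exact h3
  · rintro ⟨F, h1, h2, h3⟩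
    obtain ⟨F, h4, rfl⟩ := Finset.subset_map_iff.1 h1
    refine ⟨F, h4, by rwa [Finset.card_map] at h2, ?_⟩
    rwa [← Finset.map_sdiff, rig_map _ (fun e he => prs_pairs _ e (Finset.mem_sdiff.1 he).1)] at h3

end Pool.Agent.H632R2.Cogirth
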