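import Mathlib

set_option autoImplicit false

open Module Finset

namespace Pool.Agent.H632R2.Dc

variable {κ I : Type*} [Field κ] [Fintype I] [DecidableEq I]

/-- multiplication by a function, as a linear map -/
def mulL (b : I → κ) : (I → κ) →ₗ[κ] (I → κ) := LinearMap.mulLeft κ b

omit [Fintype I] [DecidableEq I] in
@[simp] lemma mulL_apply (b x : I → κ) : mulL b x = b * x := rfl

omit [Fintype I] [DecidableEq I] in
lemma mulL_injective {b : I → κ} (hb : ∀ i, b i ≠ 0) : Function.Injective (mulL b) := by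
  intro x y h
  funext i
  have h1 := congrFun h i
  simp only [mulL_apply, Pi.mul_apply] at h1
  exact mul_left_cancel₀ (hb i) h1

omit [Fintype I] [DecidableEq I] in
lemma finrank_map_mulL {b : I → κ} (hb : ∀ i, b i ≠ 0) (A : Submodule κ (I → κ)) :
    finrank κ ↥(A.map (mulL b)) = finrank κ ↥A :=
  (LinearEquiv.finrank_eq (Submodule.equivMapOfInjective (mulL b) (mulL_injective hb) A)).symm

/-- invertible elements of a space containing `1` span it -/
lemma mul_mem_of_inv [Infinite κ] (A B : Submodule κ (I → κ)) (h1 : (1 : I → κ) ∈ B)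
    (h : ∀ b ∈ B, (∀ i, b i ≠ 0) → ∀ a ∈ A, b * a ∈ B) (hA : A ≤ B) :
    ∀ a ∈ A, ∀ b ∈ B, a * b ∈ B := by
  classical
  intro a ha b hb
  obtain ⟨t, ht⟩ := Infinite.exists_notMem_finset (Finset.univ.image fun i => - b i)
  have hinv : ∀ i, (b + t • (1 : I → κ)) i ≠ 0 := by
    intro i hi
    apply ht
    rw [Finset.mem_image]
    refine ⟨i, Finset.mem_univ _, ?_⟩
    simp only [Pi.add_apply, Pi.smul_apply, Pi.one_apply, smul_eq_mul, mul_one] at hi
    linear_combination -hi
  have h2 := h _ (B.add_mem hb (B.smul_mem t h1)) hinv a ha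
  have h3 : a * b = (b + t • (1 : I → κ)) * a - t • a := by
    funext i
    simp only [Pi.mul_apply, Pi.add_apply, Pi.smul_apply, Pi.one_apply, Pi.sub_apply, smul_eq_mul]
    ring
  rw [h3]
  exact B.sub_mem h2 (B.smul_mem t (hA ha))

/-- the Dyson transform -/
lemma dyson [Infinite κ] (C P : Submodule κ (I → κ)) (h1C : (1 : I → κ) ∈ C) (μ : ℕ) :
    ∀ (d : ℕ) (A B : Submodule κ (I → κ)), finrank κ ↥A = d → (1 : I → κ) ∈ A → A ≤ B → C ≤ B →
      (∀ a ∈ A, ∀ b ∈ B, a * b ∈ P) → finrank κ ↥A + finrank κ ↥B = μ →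
      ∃ A' B' : Submodule κ (I → κ), (1 : I → κ) ∈ A' ∧ C ≤ B' ∧
        (∀ a ∈ A', ∀ b ∈ B', a * b ∈ P) ∧ (∀ a ∈ A', ∀ b ∈ B', a * b ∈ B') ∧
        finrank κ ↥A' + finrank κ ↥B' = μ := by
  intro d
  induction d using Nat.strong_induction_on with
  | _ d ih =>
    intro A B hd h1A hAB hCB hP hμ
    by_cases hst : ∀ b ∈ B, (∀ i, b i ≠ 0) → ∀ a ∈ A, b * a ∈ B
    · exact ⟨A, B, h1A, hCB, hP, mul_mem_of_inv A B (hCB h1C) hst hAB, hμ⟩
    · push Not at hst
      obtain ⟨b, hbB, hb, a₀, ha₀, hab₀⟩ := hst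
      set A' : Submodule κ (I → κ) := A ⊓ B.comap (mulL b) with hA'
      set B' : Submodule κ (I → κ) := B ⊔ A.map (mulL b) with hB'
      have hinf : B ⊓ A.map (mulL b) = A'.map (mulL b) := by
        ext x
        simp only [Submodule.mem_inf, Submodule.mem_map, hA', Submodule.mem_comap]
        constructor
        · rintro ⟨hx, y, hy, rfl⟩
          exact ⟨y, ⟨hy, hx⟩, rfl⟩
        · rintro ⟨y, ⟨hy, hx⟩, rfl⟩
          exact ⟨hx, y, hy, rfl⟩
      have hsum := Submodule.finrank_sup_add_finrank_inf_eq B (A.map (mulL b))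
      rw [hinf, finrank_map_mulL hb, finrank_map_mulL hb] at hsum
      have hlt : A' < A := by
        refine lt_of_le_of_ne inf_le_left ?_
        intro h
        apply hab₀
        have : a₀ ∈ A' := by rw [h]; exact ha₀
        exact this.2
      have hltf : finrank κ ↥A' < d := by
        rw [← hd]; exact Submodule.finrank_lt_finrank_of_lt hlt
      refine ih _ hltf A' B' rfl ⟨h1A, ?_⟩ (inf_le_left.trans (hAB.trans le_sup_left))
        (hCB.trans le_sup_left) ?_ ?_
      · change b * 1 ∈ B
        rw [mul_one]; exact hbB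
      · intro a ha y hy
        obtain ⟨y₁, hy₁, y₂, hy₂, rfl⟩ := Submodule.mem_sup.mp hy
        obtain ⟨a₂, ha₂, rfl⟩ := Submodule.mem_map.mp hy₂
        rw [mul_add]
        refine P.add_mem (hP a ha.1 y₁ hy₁) ?_
        have h2 : a * mulL b a₂ = a₂ * (b * a) := by
          rw [mulL_apply]; ring
        rw [h2]
        exact hP a₂ ha₂ _ ha.2
      · change finrank κ ↥A' + finrank κ ↥(B ⊔ A.map (mulL b)) = μ
        omega

/-- weighted orthogonality bounds dimensions -/
lemma orth_card {J : Type*} [Fintype J] [DecidableEq J] (ρ : J → κ) (hρ : ∀ i, ρ i ≠ 0)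
    (X Y : Submodule κ (J → κ)) (h : ∀ x ∈ X, ∀ y ∈ Y, ∑ i, ρ i * x i * y i = 0) :
    finrank κ ↥X + finrank κ ↥Y ≤ Fintype.card J := by
  have h1 := Subspace.finrank_add_finrank_dualAnnihilator_eq X
  rw [Module.finrank_fintype_fun_eq_card] at h1
  let φ : (J → κ) →ₗ[κ] Dual κ (J → κ) :=
    { toFun := fun y => ∑ i, (ρ i * y i) • LinearMap.proj i
      map_add' := fun y z => by
        simp only [Pi.add_apply, mul_add, add_smul, Finset.sum_add_distrib]
      map_smul' := fun c y => by
        simp only [Pi.smul_apply, smul_eq_mul, RingHom.id_apply, Finset.smul_sum, smul_smul]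
        exact Finset.sum_congr rfl fun i _ => by congr 1; ring }
  have hφ : ∀ y x, φ y x = ∑ i, ρ i * x i * y i := by
    intro y x
    change (∑ i, (ρ i * y i) • (LinearMap.proj i : (J → κ) →ₗ[κ] κ)) x = _
    rw [LinearMap.sum_apply]
    refine Finset.sum_congr rfl fun i _ => ?_
    rw [LinearMap.smul_apply, LinearMap.proj_apply, smul_eq_mul]; ring
  have hinj : Function.Injective φ := by
    rw [injective_iff_map_eq_zero]
    intro y hy
    funext i
    have h2 := congrArg (fun f => f (Pi.single i 1)) hy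
    simp only [hφ, LinearMap.zero_apply] at h2
    rw [Finset.sum_eq_single i] at h2
    · rw [Pi.single_eq_same, mul_one] at h2
      exact (mul_eq_zero.mp h2).resolve_left (hρ i)
    · intro j _ hj
      rw [Pi.single_eq_of_ne hj]; ring
    · intro hi; exact absurd (Finset.mem_univ _) hi
  have h3 : Y.map φ ≤ X.dualAnnihilator := by
    rintro f ⟨y, hy, rfl⟩
    rw [Submodule.mem_dualAnnihilator]
    intro x hx
    rw [hφ]
    exact h x hx y hy
  have h4 := Submodule.finrank_mono h3
  rw [← LinearEquiv.finrank_eq (Submodule.equivMapOfInjective φ hinj Y)] at h4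
  omega

/-- restriction to a set of coordinates -/
def res (Z : I → Prop) : (I → κ) →ₗ[κ] ({i // Z i} → κ) :=
  LinearMap.funLeft κ κ Subtype.val

omit [Fintype I] [DecidableEq I] in
lemma res_apply (Z : I → Prop) (x : I → κ) (i : {i // Z i}) : res Z x i = x i := rfl

section Core

variable [CharZero κ] [Nonempty I] (M : Submodule κ (I → κ))
  (h2 : ∀ w ∈ M, ∀ w' ∈ M, ∑ i, w i * w' i = 0)
  (h3 : ∀ w ∈ M, ∀ w' ∈ M, ∀ w'' ∈ M, ∑ i, w i * w' i * w'' i = 0)
  (hM : ∀ i, ∃ w ∈ M, w i ≠ 0)

/-- elements with vanishing `Z`-cubic -/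
def GZ (Z : Finset I) : Submodule κ ↥M where
  carrier := {g | ∀ w ∈ M, ∀ w' ∈ M, ∑ i ∈ Z, (g : I → κ) i * w i * w' i = 0}
  add_mem' := by
    intro g g' hg hg' w hw w' hw'
    have h1 := hg w hw w' hw'
    have h2 := hg' w hw w' hw'
    have h3 : ∀ i ∈ Z, ((g + g' : ↥M) : I → κ) i * w i * w' i =
        (g : I → κ) i * w i * w' i + (g' : I → κ) i * w i * w' i := by
      intro i _
      rw [Submodule.coe_add, Pi.add_apply]; ring
    rw [Finset.sum_congr rfl h3, Finset.sum_add_distrib, h1, h2, add_zero]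
  zero_mem' := by
    intro w _ w' _
    simp
  smul_mem' := by
    intro c g hg w hw w' hw'
    have h1 := hg w hw w' hw'
    have h3 : ∀ i ∈ Z, ((c • g : ↥M) : I → κ) i * w i * w' i =
        c * ((g : I → κ) i * w i * w' i) := by
      intro i _
      rw [Submodule.coe_smul, Pi.smul_apply, smul_eq_mul]; ring
    rw [Finset.sum_congr rfl h3, ← Finset.mul_sum, h1, mul_zero]

/-- vanishing of a coordinate -/
def Ki (i : I) : Submodule κ ↥M := LinearMap.ker ((LinearMap.proj i).comp M.subtype)

include hM in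
/-- a generic element -/
lemma exists_generic : ∃ g ∈ M, (∀ i, g i ≠ 0) ∧
    ∀ Z : Finset I, Z.Nonempty → (∃ w ∈ M, ∀ i ∈ Z, w i = 1) →
      ¬ ∀ w ∈ M, ∀ w' ∈ M, ∑ i ∈ Z, g i * w i * w' i = 0 := by
  classical
  set s : Finset (Subspace κ ↥M) := (Finset.univ.image fun i => Ki M i) ∪
    ((Finset.univ.filter fun Z : Finset I => Z.Nonempty ∧ ∃ w ∈ M, ∀ i ∈ Z, w i = 1).image
      fun Z => GZ M Z) with hs
  have htop : (⊤ : Subspace κ ↥M) ∉ s := by
    intro h
    rw [hs, Finset.mem_union, Finset.mem_image, Finset.mem_image] at h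
    rcases h with ⟨i, _, hi⟩ | ⟨Z, hZ, hZt⟩
    · obtain ⟨w, hw, hwi⟩ := hM i
      have h1 : (⟨w, hw⟩ : ↥M) ∈ Ki M i := by rw [hi]; exact Submodule.mem_top
      rw [Ki, LinearMap.mem_ker] at h1
      exact hwi h1
    · rw [Finset.mem_filter] at hZ
      obtain ⟨_, hZne, w, hw, hw1⟩ := hZ
      have h1 : (⟨w, hw⟩ : ↥M) ∈ GZ M Z := by rw [hZt]; exact Submodule.mem_top
      have h2 := h1 w hw w hw
      have h3 : ∀ i ∈ Z, ((⟨w, hw⟩ : ↥M) : I → κ) i * w i * w i = 1 := by
        intro i hi
        change w i * w i * w i = 1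
        rw [hw1 i hi]; ring
      rw [Finset.sum_congr rfl h3, Finset.sum_const, nsmul_eq_mul, mul_one] at h2
      exact hZne.card_ne_zero (by exact_mod_cast h2)
  have h1 := Subspace.biUnion_ne_univ_of_top_notMem htop
  obtain ⟨g, hg⟩ := (Set.ne_univ_iff_exists_notMem _).mp h1
  simp only [Set.mem_iUnion, not_exists] at hg
  refine ⟨g, g.2, ?_, ?_⟩
  · intro i hi
    refine hg (Ki M i) (by rw [hs, Finset.mem_union, Finset.mem_image]
                           exact Or.inl ⟨i, Finset.mem_univ _, rfl⟩) ?_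
    exact hi
  · intro Z hZ hZ1 h
    refine hg (GZ M Z) (by
      rw [hs, Finset.mem_union, Finset.mem_image, Finset.mem_image]
      exact Or.inr ⟨Z, Finset.mem_filter.mpr ⟨Finset.mem_univ _, hZ, hZ1⟩, rfl⟩) ?_
    exact h

/-- elements orthogonal to `1` and to `M`, rescaled -/
def PM (g : I → κ) : Submodule κ (I → κ) where
  carrier := {x | (∑ i, g i * g i * x i = 0) ∧ ∀ w ∈ M, ∑ i, g i * g i * x i * w i = 0}
  add_mem' := by
    rintro x y ⟨hx, hx'⟩ ⟨hy, hy'⟩
    refine ⟨?_, fun w hw => ?_⟩
    · simp only [Pi.add_apply, mul_add, Finset.sum_add_distrib, hx, hy, add_zero]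
    · simp only [Pi.add_apply, mul_add, add_mul, Finset.sum_add_distrib, hx' w hw, hy' w hw,
        add_zero]
  zero_mem' := by simp
  smul_mem' := by
    rintro c x ⟨hx, hx'⟩
    refine ⟨?_, fun w hw => ?_⟩
    · have : ∀ i ∈ (Finset.univ : Finset I), g i * g i * (c • x) i = c * (g i * g i * x i) := by
        intro i _; rw [Pi.smul_apply, smul_eq_mul]; ring
      rw [Finset.sum_congr rfl this, ← Finset.mul_sum, hx, mul_zero]
    · have : ∀ i ∈ (Finset.univ : Finset I), g i * g i * (c • x) i * w i =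
          c * (g i * g i * x i * w i) := by
        intro i _; rw [Pi.smul_apply, smul_eq_mul]; ring
      rw [Finset.sum_congr rfl this, ← Finset.mul_sum, hx' w hw, mul_zero]

include h2 h3 hM in
theorem core : 3 * finrank κ ↥M ≤ Fintype.card I := by
  classical
  obtain ⟨g, hgM, hg0, hgZ⟩ := exists_generic M hM
  set μ := finrank κ ↥M with hμ
  have hginv : ∀ i, (g⁻¹ : I → κ) i ≠ 0 := fun i => inv_ne_zero (hg0 i)
  set C : Submodule κ (I → κ) := M.map (mulL (g⁻¹)) with hC
  have hgg : (g⁻¹ : I → κ) * g = 1 := by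
    funext i
    rw [Pi.mul_apply, Pi.inv_apply, Pi.one_apply, inv_mul_cancel₀ (hg0 i)]
  have h1C : (1 : I → κ) ∈ C := ⟨g, hgM, hgg⟩
  have hCf : finrank κ ↥C = μ := finrank_map_mulL hginv M
  have hCP : ∀ a ∈ C, ∀ b ∈ C, a * b ∈ PM M g := by
    rintro a ⟨w, hw, rfl⟩ b ⟨w', hw', rfl⟩
    have hk : ∀ i, g i * g i * ((mulL (g⁻¹) w) * (mulL (g⁻¹) w')) i = w i * w' i := by
      intro i
      simp only [mulL_apply, Pi.mul_apply, Pi.inv_apply]
      have := hg0 i
      field_simp
    refine ⟨?_, fun w'' hw'' => ?_⟩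
    · rw [Finset.sum_congr rfl fun i _ => hk i]; exact h2 w hw w' hw'
    · rw [Finset.sum_congr rfl fun i _ => by rw [hk i]]; exact h3 w hw w' hw' w'' hw''
  obtain ⟨A, B, h1A, hCB, hP, hst, hAB⟩ := dyson C (PM M g) h1C (μ + μ) μ C C hCf h1C le_rfl le_rfl
    hCP (by rw [hCf])
  -- the stabilizer algebra
  let H : Subalgebra κ (I → κ) :=
    { carrier := {a | ∀ b ∈ B, a * b ∈ B}
      mul_mem' := fun {a a'} ha ha' b hb => by rw [mul_assoc]; exact ha _ (ha' b hb)
      add_mem' := fun {a a'} ha ha' b hb => by rw [add_mul]; exact B.add_mem (ha b hb) (ha' b hb)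
      algebraMap_mem' := fun c b hb => by
        have : algebraMap κ (I → κ) c * b = c • b := by
          rw [Algebra.smul_def]
        rw [this]; exact B.smul_mem c hb }
  have hHmem : ∀ a, a ∈ H ↔ ∀ b ∈ B, a * b ∈ B := fun a => Iff.rfl
  have hAH : ∀ a ∈ A, a ∈ H := fun a ha => hst a ha
  let S : Setoid I :=
    { r := fun i i' => ∀ a ∈ H, a i = a i'
      iseqv := ⟨fun i a _ => rfl, fun h a ha => (h a ha).symm,
        fun h h' a ha => (h a ha).trans (h' a ha)⟩ }
  have hSr : ∀ i i', S.r i i' ↔ ∀ a ∈ H, a i = a i' := fun i i' => Iff.rfl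
  let q : I → Quotient S := Quotient.mk S
  have hq : ∀ i i', q i = q i' ↔ ∀ a ∈ H, a i = a i' := fun i i' => by
    rw [← hSr]; exact Quotient.eq (r := S)
  have hQ : Fintype (Quotient S) := Fintype.ofFinite _
  -- indicators
  have hind : ∀ c : Quotient S, (fun i => if q i = c then (1 : κ) else 0) ∈ H := by
    intro c
    obtain ⟨i₀, rfl⟩ := Quotient.exists_rep c
    have hsep : ∀ i, q i ≠ q i₀ → ∃ a ∈ H, a i₀ ≠ a i := by
      intro i hi
      by_contra hcon
      push Not at hcon
      exact hi ((hq i i₀).mpr fun a ha => (hcon a ha).symm)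
    choose! sa hsaH hsa using hsep
    have hprod : (∏ i ∈ Finset.univ.filter (fun i => q i ≠ q i₀),
        ((sa i i₀ - sa i i)⁻¹ • (sa i - algebraMap κ (I → κ) (sa i i)))) ∈ H := by
      refine H.prod_mem fun i hi => ?_
      rw [Finset.mem_filter] at hi
      exact H.smul_mem (H.sub_mem (hsaH i hi.2) (H.algebraMap_mem _)) _
    convert hprod using 1
    funext i
    rw [Finset.prod_apply]
    change (if q i = q i₀ then (1 : κ) else 0) = _
    by_cases hi : q i = q i₀
    · rw [if_pos hi]
      symm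
      apply Finset.prod_eq_one
      intro l hl
      rw [Finset.mem_filter] at hl
      have h4 : sa l i = sa l i₀ := (hq i i₀).mp hi _ (hsaH l hl.2)
      have h5 : sa l i₀ - sa l l ≠ 0 := sub_ne_zero.mpr (hsa l hl.2)
      rw [Pi.smul_apply, Pi.sub_apply, h4, smul_eq_mul]
      change (sa l i₀ - sa l l)⁻¹ * (sa l i₀ - sa l l) = 1
      exact inv_mul_cancel₀ h5
    · rw [if_neg hi]
      symm
      apply Finset.prod_eq_zero (Finset.mem_filter.mpr ⟨Finset.mem_univ i, hi⟩)
      rw [Pi.smul_apply, Pi.sub_apply]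
      change (sa i i₀ - sa i i)⁻¹ • (sa i i - sa i i) = 0
      rw [sub_self, smul_zero]
  -- dimension of A
  have hAcard : finrank κ ↥A ≤ Fintype.card (Quotient S) := by
    have hsurj : Function.Surjective q := Quotient.mk_surjective
    choose rep hrep using hsurj
    let f : ↥A →ₗ[κ] (Quotient S → κ) := (LinearMap.funLeft κ κ rep).comp A.subtype
    have hf : Function.Injective f := by
      intro a a' haa
      apply Subtype.ext
      funext i
      have h4 := congrFun haa (q i)
      change (a : I → κ) (rep (q i)) = (a' : I → κ) (rep (q i)) at h4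
      have h5 := (hq _ _).mp (hrep (q i))
      rw [← h5 _ (hAH _ a.2), ← h5 _ (hAH _ a'.2)]
      exact h4
    have h4 := LinearMap.finrank_le_finrank_of_injective hf
    rwa [Module.finrank_fintype_fun_eq_card] at h4
  -- blocks
  let Zc : Quotient S → I → Prop := fun c i => q i = c
  have hB1 : ∀ (c : Quotient S) (b), b ∈ B → (fun i => if q i = c then b i else 0) ∈ B := by
    intro c b hb
    have h4 := hind c b hb
    convert h4 using 1
    funext i
    rw [Pi.mul_apply]
    split_ifs <;> simp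
  have h1AP : ∀ b ∈ B, b ∈ PM M g := fun b hb => by
    have := hP 1 h1A b hb
    rwa [one_mul] at this
  have hblock : ∀ c : Quotient S, finrank κ ↥(B.map (res (Zc c))) +
      (finrank κ ↥(M.map (res (Zc c))) + 1) ≤ Fintype.card {i // Zc c i} := by
    intro c
    have hone : (1 : {i // Zc c i} → κ) ∉ M.map (res (Zc c)) := by
      rintro ⟨w, hw, hw1⟩
      refine hgZ (Finset.univ.filter fun i => q i = c) ?_ ⟨w, hw, ?_⟩ ?_
      · obtain ⟨i₀, rfl⟩ := Quotient.exists_rep c
        exact ⟨i₀, Finset.mem_filter.mpr ⟨Finset.mem_univ _, rfl⟩⟩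
      · intro i hi
        rw [Finset.mem_filter] at hi
        exact congrFun hw1 ⟨i, hi.2⟩
      · intro u hu u' hu'
        have h4 : mulL (g⁻¹) u ∈ B := hCB ⟨u, hu, rfl⟩
        have h5 := (h1AP _ (hB1 c _ h4)).2 u' hu'
        rw [Finset.sum_filter]
        refine Eq.trans (Finset.sum_congr rfl fun i _ => ?_) h5
        by_cases hi : q i = c
        · simp only [hi, if_true, mulL_apply, Pi.mul_apply, Pi.inv_apply]
          have := hg0 i
          field_simp
        · simp only [hi, if_false]; ring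
    have h4 : finrank κ ↥(M.map (res (Zc c)) ⊔ Submodule.span κ {(1 : {i // Zc c i} → κ)}) =
        finrank κ ↥(M.map (res (Zc c))) + 1 := by
      have h5 := Submodule.finrank_sup_add_finrank_inf_eq (M.map (res (Zc c)))
        (Submodule.span κ {(1 : {i // Zc c i} → κ)})
      have h6 : M.map (res (Zc c)) ⊓ Submodule.span κ {(1 : {i // Zc c i} → κ)} = ⊥ := by
        rw [eq_bot_iff]
        rintro x ⟨hx1, hx2⟩
        obtain ⟨t, rfl⟩ := Submodule.mem_span_singleton.mp hx2
        by_cases ht : t = 0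
        · rw [ht, zero_smul]; exact Submodule.zero_mem _
        · exact absurd ((Submodule.smul_mem_iff _ ht).mp hx1) hone
      have h7 : (1 : {i // Zc c i} → κ) ≠ 0 := by
        intro h
        apply hone
        rw [h]; exact Submodule.zero_mem _
      rw [h6, finrank_bot, finrank_span_singleton h7] at h5
      omega
    rw [← h4]
    refine orth_card (fun i : {i // Zc c i} => g i * g i) (fun i => mul_ne_zero (hg0 i) (hg0 i))
      _ _ ?_
    rintro x ⟨b, hb, rfl⟩ y hy
    obtain ⟨y₁, ⟨w, hw, rfl⟩, y₂, hy₂, rfl⟩ := Submodule.mem_sup.mp hy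
    obtain ⟨t, rfl⟩ := Submodule.mem_span_singleton.mp hy₂
    have h5 := h1AP _ (hB1 c b hb)
    have h6 := h5.1
    have h7 := h5.2 w hw
    have h8 : ∀ F : I → κ, ∑ i : {i // Zc c i}, F i = ∑ i, if q i = c then F i else 0 := by
      intro F
      rw [← Finset.sum_filter]
      symm
      apply Finset.sum_subtype
      intro i
      simp [Zc]
    have h9 : ∀ i : {i // Zc c i}, g i * g i * res (Zc c) b i *
        (res (Zc c) w + t • (1 : {i // Zc c i} → κ)) i =
        (fun i : I => g i * g i * b i * w i + t * (g i * g i * b i)) i := by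
      intro i
      simp only [Pi.add_apply, Pi.smul_apply, Pi.one_apply, smul_eq_mul, res_apply]
      ring
    rw [Finset.sum_congr rfl fun i _ => h9 i,
      h8 (fun i : I => g i * g i * b i * w i + t * (g i * g i * b i))]
    have h10 : ∀ i ∈ (Finset.univ : Finset I), (if q i = c then
        (fun i : I => g i * g i * b i * w i + t * (g i * g i * b i)) i else 0) =
        g i * g i * (if q i = c then b i else 0) * w i +
        t * (g i * g i * (if q i = c then b i else 0)) := by
      intro i _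
      split_ifs <;> simp
    rw [Finset.sum_congr rfl h10, Finset.sum_add_distrib, ← Finset.mul_sum, h7, h6]
    ring
  -- sum over blocks
  have hinjsum : ∀ X : Submodule κ (I → κ), finrank κ ↥X ≤
      ∑ c : Quotient S, finrank κ ↥(X.map (res (Zc c))) := by
    intro X
    let f : ↥X →ₗ[κ] (∀ c : Quotient S, ↥(X.map (res (Zc c)))) :=
      LinearMap.pi fun c => (res (Zc c)).submoduleMap X
    have hf : Function.Injective f := by
      intro x x' hxx
      apply Subtype.ext
      funext i
      have h4 := congrArg Subtype.val (congrFun hxx (q i))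
      exact congrFun h4 ⟨i, rfl⟩
    have h4 := LinearMap.finrank_le_finrank_of_injective hf
    rwa [Module.finrank_pi_fintype] at h4
  have hcardsum : ∑ c : Quotient S, Fintype.card {i // Zc c i} = Fintype.card I := by
    rw [← Fintype.card_sigma]
    exact Fintype.card_congr (Equiv.sigmaFiberEquiv q)
  have hfin := Finset.sum_le_sum fun (c : Quotient S) (_ : c ∈ Finset.univ) => hblock c
  rw [hcardsum, Finset.sum_add_distrib, Finset.sum_add_distrib, Finset.sum_const,
    Finset.card_univ, smul_eq_mul, mul_one] at hfin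
  have h4 := hinjsum B
  have h5 := hinjsum M
  omega

end Core

end Pool.Agent.H632R2.Dc
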