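import Pool.Agent.H567.Main

set_option autoImplicit false

open Equiv Finset Polynomial

namespace Pool.Agent.H632R2.Dc

open Pool.Agent.H567

section sums

variable {K : Type*} [Field K] {α : Type*} [Fintype α] [DecidableEq α]

lemma sum_ite_ne (a : α) (F : α → K) : ∑ b, (if a ≠ b then F b else 0) = ∑ b, F b - F a := by
  have h : ∀ b, (if a ≠ b then F b else 0) = F b - (if b = a then F b else 0) := by
    intro b
    by_cases hab : a = b
    · subst hab; simp
    · rw [if_pos hab, if_neg (fun h => hab h.symm), sub_zero]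
  rw [Finset.sum_congr rfl fun b _ => h b, Finset.sum_sub_distrib, Finset.sum_ite_eq' univ a]
  simp

lemma dist2 (f g : α → K) (hg : ∑ a, g a = 0) :
    ∑ a, ∑ b, (if a ≠ b then f a * g b else 0) = - ∑ a, f a * g a := by
  have h : ∀ a, ∑ b, (if a ≠ b then f a * g b else 0) = - (f a * g a) := by
    intro a
    rw [sum_ite_ne a fun b => f a * g b, ← Finset.mul_sum, hg]; ring
  rw [Finset.sum_congr rfl fun a _ => h a, Finset.sum_neg_distrib]

lemma inner3 (h : α → K) (hh : ∑ a, h a = 0) (a b : α) (t : K) :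
    ∑ c, (if a ≠ b ∧ a ≠ c ∧ b ≠ c then t * h c else 0) =
      if a ≠ b then t * (- h a - h b) else 0 := by
  by_cases hab : a = b
  · rw [if_neg (by simpa using hab)]
    apply Finset.sum_eq_zero
    intro c _
    rw [if_neg]; rintro ⟨h, _⟩; exact h hab
  · rw [if_pos hab]
    have h1 : ∀ c, (if a ≠ b ∧ a ≠ c ∧ b ≠ c then t * h c else 0) =
        (if a ≠ c then t * h c else 0) - (if c = b then t * h c else 0) := by
      intro c
      by_cases h1 : a = c
      · subst h1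
        rw [if_neg (by rintro ⟨_, h, _⟩; exact h rfl), if_neg (by simp), if_neg hab, sub_zero]
      · by_cases h2 : b = c
        · subst h2
          rw [if_neg (by rintro ⟨_, _, h⟩; exact h rfl), if_pos h1, if_pos rfl, sub_self]
        · rw [if_pos ⟨hab, h1, h2⟩, if_pos h1, if_neg (fun h => h2 h.symm), sub_zero]
    rw [Finset.sum_congr rfl fun c _ => h1 c, Finset.sum_sub_distrib,
      sum_ite_ne a fun c => t * h c, Finset.sum_ite_eq' univ b, if_pos (Finset.mem_univ _),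
      ← Finset.mul_sum, hh]
    ring

lemma dist3 (f g h : α → K) (hg : ∑ a, g a = 0) (hh : ∑ a, h a = 0) :
    ∑ a, ∑ b, ∑ c, (if a ≠ b ∧ a ≠ c ∧ b ≠ c then f a * g b * h c else 0) =
      2 * ∑ a, f a * g a * h a - (∑ a, f a) * ∑ a, g a * h a := by
  have h1 : ∀ a, ∑ b, ∑ c, (if a ≠ b ∧ a ≠ c ∧ b ≠ c then f a * g b * h c else 0) =
      2 * (f a * g a * h a) - f a * ∑ b, g b * h b := by
    intro a
    rw [Finset.sum_congr rfl fun b _ => inner3 h hh a b (f a * g b),
      sum_ite_ne a fun b => f a * g b * (- h a - h b)]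
    have h2 : ∀ b, f a * g b * (- h a - h b) = - (f a * h a) * g b - f a * (g b * h b) := by
      intro b; ring
    rw [Finset.sum_congr rfl fun b _ => h2 b, Finset.sum_sub_distrib, ← Finset.mul_sum,
      ← Finset.mul_sum, hg]
    ring
  rw [Finset.sum_congr rfl fun a _ => h1 a, Finset.sum_sub_distrib, ← Finset.mul_sum,
    ← Finset.sum_mul]

lemma inner4 (k : α → K) (hk : ∑ a, k a = 0) (a b c : α) (t : K) :
    ∑ d, (if (a ≠ b ∧ a ≠ c ∧ b ≠ c) ∧ (a ≠ d ∧ b ≠ d ∧ c ≠ d) then t * k d else 0) =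
      if a ≠ b ∧ a ≠ c ∧ b ≠ c then t * (- k a - k b - k c) else 0 := by
  by_cases habc : a ≠ b ∧ a ≠ c ∧ b ≠ c
  · rw [if_pos habc]
    obtain ⟨hab, hac, hbc⟩ := habc
    have h1 : ∀ d, (if (a ≠ b ∧ a ≠ c ∧ b ≠ c) ∧ (a ≠ d ∧ b ≠ d ∧ c ≠ d) then t * k d else 0) =
        (if a ≠ d then t * k d else 0) - (if d = b then t * k d else 0) -
          (if d = c then t * k d else 0) := by
      intro d
      by_cases h1 : a = d
      · subst h1
        rw [if_neg (by rintro ⟨_, h, _⟩; exact h rfl), if_neg (by simp), if_neg hab, if_neg hac]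
        ring
      · by_cases h2 : b = d
        · subst h2
          rw [if_neg (by rintro ⟨_, _, h, _⟩; exact h rfl), if_pos h1, if_pos rfl, if_neg hbc]
          ring
        · by_cases h3 : c = d
          · subst h3
            rw [if_neg (by rintro ⟨_, _, _, h⟩; exact h rfl), if_pos h1,
              if_neg (fun h => h2 h.symm), if_pos rfl]
            ring
          · rw [if_pos ⟨⟨hab, hac, hbc⟩, h1, h2, h3⟩, if_pos h1, if_neg (fun h => h2 h.symm),
              if_neg (fun h => h3 h.symm)]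
            ring
    rw [Finset.sum_congr rfl fun d _ => h1 d, Finset.sum_sub_distrib, Finset.sum_sub_distrib,
      sum_ite_ne a fun c => t * k c, Finset.sum_ite_eq' univ b, if_pos (Finset.mem_univ _),
      Finset.sum_ite_eq' univ c, if_pos (Finset.mem_univ _), ← Finset.mul_sum, hk]
    ring
  · rw [if_neg habc]
    apply Finset.sum_eq_zero
    intro d _
    rw [if_neg (fun h => habc h.1)]

lemma dist4 (f g h k : α → K) (hf : ∑ a, f a = 0) (hg : ∑ a, g a = 0) (hh : ∑ a, h a = 0)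
    (hk : ∑ a, k a = 0) :
    ∑ a, ∑ b, ∑ c, ∑ d, (if (a ≠ b ∧ a ≠ c ∧ b ≠ c) ∧ (a ≠ d ∧ b ≠ d ∧ c ≠ d) then
      f a * g b * h c * k d else 0) =
      - 6 * ∑ a, f a * g a * h a * k a + (∑ a, f a * k a) * (∑ a, g a * h a) +
        (∑ a, g a * k a) * (∑ a, f a * h a) + (∑ a, h a * k a) * (∑ a, f a * g a) := by
  have h1 : ∀ a b c, ∑ d, (if (a ≠ b ∧ a ≠ c ∧ b ≠ c) ∧ (a ≠ d ∧ b ≠ d ∧ c ≠ d) then
      f a * g b * h c * k d else 0) =
      (if a ≠ b ∧ a ≠ c ∧ b ≠ c then - (f a * k a) * g b * h c else 0) +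
      (if a ≠ b ∧ a ≠ c ∧ b ≠ c then - (g b * k b) * f a * h c else 0) +
      (if a ≠ b ∧ a ≠ c ∧ b ≠ c then - (h c * k c) * f a * g b else 0) := by
    intro a b c
    rw [inner4 k hk a b c (f a * g b * h c)]
    split_ifs <;> ring
  rw [Finset.sum_congr rfl fun a _ => Finset.sum_congr rfl fun b _ =>
    Finset.sum_congr rfl fun c _ => h1 a b c]
  simp only [Finset.sum_add_distrib]
  have e1 := dist3 (fun a => - (f a * k a)) g h hg hh
  have e2 := dist3 (fun a => - (g a * k a)) f h hf hh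
  have e3 := dist3 (fun a => - (h a * k a)) f g hf hg
  have s2 : ∑ a, ∑ b, ∑ c, (if a ≠ b ∧ a ≠ c ∧ b ≠ c then - (g b * k b) * f a * h c else 0) =
      ∑ a, ∑ b, ∑ c, (if a ≠ b ∧ a ≠ c ∧ b ≠ c then - (g a * k a) * f b * h c else 0) := by
    rw [Finset.sum_comm]
    refine Finset.sum_congr rfl fun a _ => Finset.sum_congr rfl fun b _ =>
      Finset.sum_congr rfl fun c _ => ?_
    by_cases hc : b ≠ a ∧ b ≠ c ∧ a ≠ c
    · rw [if_pos hc, if_pos ⟨hc.1.symm, hc.2.2, hc.2.1⟩]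
    · rw [if_neg hc, if_neg (fun h => hc ⟨h.1.symm, h.2.2, h.2.1⟩)]
  have s3 : ∑ a, ∑ b, ∑ c, (if a ≠ b ∧ a ≠ c ∧ b ≠ c then - (h c * k c) * f a * g b else 0) =
      ∑ a, ∑ b, ∑ c, (if a ≠ b ∧ a ≠ c ∧ b ≠ c then - (h a * k a) * f b * g c else 0) := by
    have h2 : ∀ a, ∑ b, ∑ c, (if a ≠ b ∧ a ≠ c ∧ b ≠ c then - (h c * k c) * f a * g b else 0) =
        ∑ c, ∑ b, (if a ≠ b ∧ a ≠ c ∧ b ≠ c then - (h c * k c) * f a * g b else 0) :=
      fun a => Finset.sum_comm
    rw [Finset.sum_congr rfl fun a _ => h2 a, Finset.sum_comm]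
    refine Finset.sum_congr rfl fun c _ => Finset.sum_congr rfl fun a _ =>
      Finset.sum_congr rfl fun b _ => ?_
    by_cases hc : a ≠ b ∧ a ≠ c ∧ b ≠ c
    · rw [if_pos hc, if_pos ⟨hc.2.1.symm, hc.2.2.symm, hc.1⟩]
    · rw [if_neg hc, if_neg (fun h => hc ⟨h.2.2, h.1.symm, h.2.1.symm⟩)]
  rw [s2, s3, e1, e2, e3]
  have t1 : ∑ a, - (f a * k a) * g a * h a = - ∑ a, f a * g a * h a * k a := by
    rw [← Finset.sum_neg_distrib]; exact Finset.sum_congr rfl fun a _ => by ring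
  have t2 : ∑ a, - (g a * k a) * f a * h a = - ∑ a, f a * g a * h a * k a := by
    rw [← Finset.sum_neg_distrib]; exact Finset.sum_congr rfl fun a _ => by ring
  have t3 : ∑ a, - (h a * k a) * f a * g a = - ∑ a, f a * g a * h a * k a := by
    rw [← Finset.sum_neg_distrib]; exact Finset.sum_congr rfl fun a _ => by ring
  rw [t1, t2, t3]
  simp only [Finset.sum_neg_distrib]
  ring

end sums

end Pool.Agent.H632R2.Dc
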