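import Pool.Agent.H632R2.Dc2

set_option autoImplicit false

open Equiv Finset Polynomial

namespace Pool.Agent.H632R2.Dc

open Pool.Agent.H567

section pres

variable {K : Type*} [Field K] {ι : Type*} [Fintype ι] [DecidableEq ι]

lemma pres3 (K : Type*) [Field K] (ι : Type*) [Fintype ι] [DecidableEq ι] :
    ∃ N : ℕ, (3 ≤ Fintype.card ι → N ≠ 0) ∧ ∀ r₀ r₁ r₂ : ι, r₀ ≠ r₁ → r₀ ≠ r₂ → r₁ ≠ r₂ →
      ∀ F : ι → ι → ι → K, ∑ σ : Perm ι, F (σ r₀) (σ r₁) (σ r₂) =
        N * ∑ a, ∑ b, ∑ c, (if a ≠ b ∧ a ≠ c ∧ b ≠ c then F a b c else 0) := by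
  obtain ⟨N, hN, hN0⟩ := exists_card_prescribed 3 ι
  refine ⟨N, hN0, ?_⟩
  intro r₀ r₁ r₂ h01 h02 h12 F
  have hR : Function.Injective (![r₀, r₁, r₂] : Fin 3 → ι) := by
    intro a b h
    fin_cases a <;> fin_cases b <;> simp_all
  have h1 : ∀ σ : Perm ι, F (σ r₀) (σ r₁) (σ r₂) =
      ∑ a, ∑ b, ∑ c, (if σ r₀ = a ∧ σ r₁ = b ∧ σ r₂ = c then F a b c else 0) := by
    intro σ
    rw [Finset.sum_eq_single (σ r₀), Finset.sum_eq_single (σ r₁), Finset.sum_eq_single (σ r₂)]
    · simp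
    · intro c _ hc; rw [if_neg]; rintro ⟨_, _, h⟩; exact hc h.symm
    · simp
    · intro b _ hb
      apply Finset.sum_eq_zero; intro c _; rw [if_neg]; rintro ⟨_, h, _⟩; exact hb h.symm
    · simp
    · intro a _ ha
      apply Finset.sum_eq_zero; intro b _
      apply Finset.sum_eq_zero; intro c _; rw [if_neg]; rintro ⟨h, _, _⟩; exact ha h.symm
    · simp
  rw [Finset.sum_congr rfl fun σ _ => h1 σ, Finset.sum_comm, Finset.mul_sum]
  refine Finset.sum_congr rfl fun a _ => ?_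
  rw [Finset.sum_comm, Finset.mul_sum]
  refine Finset.sum_congr rfl fun b _ => ?_
  rw [Finset.sum_comm, Finset.mul_sum]
  refine Finset.sum_congr rfl fun c _ => ?_
  rw [← Finset.sum_filter, Finset.sum_const, nsmul_eq_mul]
  by_cases habc : a ≠ b ∧ a ≠ c ∧ b ≠ c
  · rw [if_pos habc]
    have hL : Function.Injective (![a, b, c] : Fin 3 → ι) := by
      obtain ⟨h1, h2, h3⟩ := habc
      intro x y h
      fin_cases x <;> fin_cases y <;> simp_all
    have h2 := hN _ _ hR hL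
    simp only [Fin.forall_fin_succ, Matrix.cons_val_zero, Matrix.cons_val_succ,
      IsEmpty.forall_iff, and_true] at h2
    rw [h2]
  · rw [if_neg habc, mul_zero]
    have h2 : (univ.filter fun σ : Perm ι => σ r₀ = a ∧ σ r₁ = b ∧ σ r₂ = c) = ∅ := by
      apply Finset.filter_eq_empty_iff.mpr
      rintro σ _ ⟨rfl, rfl, rfl⟩
      exact habc ⟨fun h => h01 (σ.injective h), fun h => h02 (σ.injective h),
        fun h => h12 (σ.injective h)⟩
    rw [h2]; simp

lemma pres4 (K : Type*) [Field K] (ι : Type*) [Fintype ι] [DecidableEq ι] :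
    ∃ N : ℕ, (4 ≤ Fintype.card ι → N ≠ 0) ∧ ∀ r₀ r₁ r₂ r₃ : ι, r₀ ≠ r₁ → r₀ ≠ r₂ → r₁ ≠ r₂ →
      r₀ ≠ r₃ → r₁ ≠ r₃ → r₂ ≠ r₃ →
      ∀ F : ι → ι → ι → ι → K, ∑ σ : Perm ι, F (σ r₀) (σ r₁) (σ r₂) (σ r₃) =
        N * ∑ a, ∑ b, ∑ c, ∑ d, (if (a ≠ b ∧ a ≠ c ∧ b ≠ c) ∧ (a ≠ d ∧ b ≠ d ∧ c ≠ d) then
          F a b c d else 0) := by
  obtain ⟨N, hN, hN0⟩ := exists_card_prescribed 4 ι
  refine ⟨N, hN0, ?_⟩
  intro r₀ r₁ r₂ r₃ h01 h02 h12 h03 h13 h23 F
  have hR : Function.Injective (![r₀, r₁, r₂, r₃] : Fin 4 → ι) := by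
    intro a b h
    fin_cases a <;> fin_cases b <;> simp_all
  have h1 : ∀ σ : Perm ι, F (σ r₀) (σ r₁) (σ r₂) (σ r₃) =
      ∑ a, ∑ b, ∑ c, ∑ d, (if σ r₀ = a ∧ σ r₁ = b ∧ σ r₂ = c ∧ σ r₃ = d then
        F a b c d else 0) := by
    intro σ
    rw [Finset.sum_eq_single (σ r₀), Finset.sum_eq_single (σ r₁), Finset.sum_eq_single (σ r₂),
      Finset.sum_eq_single (σ r₃)]
    · simp
    · intro c _ hc; rw [if_neg]; rintro ⟨_, _, _, h⟩; exact hc h.symm
    · simp
    · intro b _ hb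
      apply Finset.sum_eq_zero; intro c _; rw [if_neg]; rintro ⟨_, _, h, _⟩; exact hb h.symm
    · simp
    · intro a _ ha
      apply Finset.sum_eq_zero; intro b _
      apply Finset.sum_eq_zero; intro c _; rw [if_neg]; rintro ⟨_, h, _, _⟩; exact ha h.symm
    · simp
    · intro a _ ha
      apply Finset.sum_eq_zero; intro b _
      apply Finset.sum_eq_zero; intro c _
      apply Finset.sum_eq_zero; intro d _; rw [if_neg]; rintro ⟨h, _, _, _⟩; exact ha h.symm
    · simp
  rw [Finset.sum_congr rfl fun σ _ => h1 σ, Finset.sum_comm, Finset.mul_sum]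
  refine Finset.sum_congr rfl fun a _ => ?_
  rw [Finset.sum_comm, Finset.mul_sum]
  refine Finset.sum_congr rfl fun b _ => ?_
  rw [Finset.sum_comm, Finset.mul_sum]
  refine Finset.sum_congr rfl fun c _ => ?_
  rw [Finset.sum_comm, Finset.mul_sum]
  refine Finset.sum_congr rfl fun d _ => ?_
  rw [← Finset.sum_filter, Finset.sum_const, nsmul_eq_mul]
  by_cases habc : (a ≠ b ∧ a ≠ c ∧ b ≠ c) ∧ (a ≠ d ∧ b ≠ d ∧ c ≠ d)
  · rw [if_pos habc]
    have hL : Function.Injective (![a, b, c, d] : Fin 4 → ι) := by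
      obtain ⟨⟨h1, h2, h3⟩, h4, h5, h6⟩ := habc
      intro x y h
      fin_cases x <;> fin_cases y <;> simp_all
    have h2 := hN _ _ hR hL
    simp only [Fin.forall_fin_succ, Matrix.cons_val_zero, Matrix.cons_val_succ,
      IsEmpty.forall_iff, and_true] at h2
    rw [h2]
  · rw [if_neg habc, mul_zero]
    have h2 : (univ.filter fun σ : Perm ι => σ r₀ = a ∧ σ r₁ = b ∧ σ r₂ = c ∧ σ r₃ = d) = ∅ := by
      apply Finset.filter_eq_empty_iff.mpr
      rintro σ _ ⟨rfl, rfl, rfl, rfl⟩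
      exact habc ⟨⟨fun h => h01 (σ.injective h), fun h => h02 (σ.injective h),
        fun h => h12 (σ.injective h)⟩, fun h => h03 (σ.injective h),
        fun h => h13 (σ.injective h), fun h => h23 (σ.injective h)⟩
    rw [h2]; simp

end pres

section expand

variable {K : Type*} [Field K] {κ : Type*} [Fintype κ] [DecidableEq κ]

/-- the special row -/
def y0 (K : Type*) [Field K] (κ : Type*) [Fintype κ] : Option κ → K
  | none => -(Fintype.card κ : K)
  | some _ => 1

lemma sum_y0 : ∑ a, y0 K κ a = 0 := by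
  rw [Fintype.sum_option]
  simp [y0]

/-- rows of the extension -/
def wr (w : κ → κ → K) (i : κ) : Option κ → K
  | none => 0
  | some j => w i j

lemma sum_wr (w : κ → κ → K) (i : κ) (h : ∑ j, w i j = 0) : ∑ a, wr w i a = 0 := by
  rw [Fintype.sum_option]
  simp [wr, h]

/-- the base point plus `t` times the block `w` -/
def pt (w : κ → κ → K) : Matrix (Option κ) (Option κ) K :=
  Matrix.of fun i j => match i with
    | none => y0 K κ j
    | some i => 1 + wr w i j

/-- the permanent along a line -/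
noncomputable def PP (w : κ → κ → K) : K[X] :=
  ∑ σ : Perm (Option κ), C (y0 K κ (σ none)) * ∏ i : κ, (1 + X * C (wr w i (σ (some i))))

lemma wr_smul (t : K) (w : κ → κ → K) (i : κ) (j : Option κ) :
    wr (t • w) i j = t * wr w i j := by
  cases j <;> simp [wr]

lemma eval_PP (w : κ → κ → K) (t : K) : (PP w).eval t = (pt (t • w)).permanent := by
  rw [PP, permanent_eq, Polynomial.eval_finsetSum]
  refine Finset.sum_congr rfl fun σ _ => ?_
  rw [Fintype.prod_option, eval_mul, eval_C, eval_prod]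
  congr 1
  refine Finset.prod_congr rfl fun i _ => ?_
  change _ = 1 + wr (t • w) i (σ (some i))
  rw [wr_smul]
  simp only [eval_add, eval_one, eval_mul, eval_X, eval_C]

lemma coeff3_prod {α : Type*} [DecidableEq α] (s : Finset α) (g : α → K) :
    2 * (∏ i ∈ s, (1 + X * C (g i) : K[X])).coeff 2 = (∑ i ∈ s, g i) ^ 2 - ∑ i ∈ s, (g i) ^ 2 ∧
    6 * (∏ i ∈ s, (1 + X * C (g i) : K[X])).coeff 3 = (∑ i ∈ s, g i) ^ 3 -
      3 * (∑ i ∈ s, g i) * (∑ i ∈ s, (g i) ^ 2) + 2 * ∑ i ∈ s, (g i) ^ 3 := by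
  induction s using Finset.induction_on with
  | empty => simp [Polynomial.coeff_one]
  | insert a s ha ih =>
    obtain ⟨h2, h3⟩ := ih
    have h1 := (coeff_prod_one_add s g).2.1
    rw [Finset.prod_insert ha, Finset.sum_insert ha, Finset.sum_insert ha, Finset.sum_insert ha]
    set P := ∏ i ∈ s, (1 + X * C (g i) : K[X])
    have e : (1 + X * C (g a)) * P = P + (C (g a) * P) * X := by ring
    rw [e]
    refine ⟨?_, ?_⟩
    · rw [Polynomial.coeff_add, Polynomial.coeff_mul_X, Polynomial.coeff_C_mul, h1, mul_add, h2]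
      ring
    · rw [Polynomial.coeff_add, Polynomial.coeff_mul_X, Polynomial.coeff_C_mul, mul_add, h3]
      have h4 : 6 * (g a * P.coeff 2) = 3 * g a * (2 * P.coeff 2) := by ring
      rw [h4, h2]
      ring

lemma newton2 {α : Type*} [Fintype α] [DecidableEq α] (g : α → K) :
    ∑ a, ∑ b, (if a ≠ b then g a * g b else 0) = (∑ i, g i) ^ 2 - ∑ i, (g i) ^ 2 := by
  rw [Finset.sum_congr rfl fun a _ => sum_ite_ne a fun b => g a * g b, Finset.sum_sub_distrib,
    Finset.sum_congr rfl fun a _ => (Finset.mul_sum univ g (g a)).symm, ← Finset.sum_mul]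
  simp only [sq]

lemma newton3 {α : Type*} [Fintype α] [DecidableEq α] (g : α → K) :
    ∑ a, ∑ b, ∑ c, (if a ≠ b ∧ a ≠ c ∧ b ≠ c then g a * g b * g c else 0) =
      (∑ i, g i) ^ 3 - 3 * (∑ i, g i) * (∑ i, (g i) ^ 2) + 2 * ∑ i, (g i) ^ 3 := by
  have h1 : ∀ a b, ∑ c, (if a ≠ b ∧ a ≠ c ∧ b ≠ c then g a * g b * g c else 0) =
      if a ≠ b then g a * g b * ((∑ i, g i) - g a - g b) else 0 := by
    intro a b
    by_cases hab : a = b
    · rw [if_neg (by simpa using hab)]
      apply Finset.sum_eq_zero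
      intro c _
      rw [if_neg]; rintro ⟨h, _⟩; exact h hab
    · rw [if_pos hab]
      have h1 : ∀ c, (if a ≠ b ∧ a ≠ c ∧ b ≠ c then g a * g b * g c else 0) =
          (if a ≠ c then g a * g b * g c else 0) - (if c = b then g a * g b * g c else 0) := by
        intro c
        by_cases h1 : a = c
        · subst h1
          rw [if_neg (by rintro ⟨_, h, _⟩; exact h rfl), if_neg (by simp), if_neg hab, sub_zero]
        · by_cases h2 : b = c
          · subst h2
            rw [if_neg (by rintro ⟨_, _, h⟩; exact h rfl), if_pos h1, if_pos rfl, sub_self]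
          · rw [if_pos ⟨hab, h1, h2⟩, if_pos h1, if_neg (fun h => h2 h.symm), sub_zero]
      rw [Finset.sum_congr rfl fun c _ => h1 c, Finset.sum_sub_distrib,
        sum_ite_ne a fun c => g a * g b * g c, Finset.sum_ite_eq' univ b,
        if_pos (Finset.mem_univ _), ← Finset.mul_sum]
      ring
  have h2 : ∀ a, ∑ b, ∑ c, (if a ≠ b ∧ a ≠ c ∧ b ≠ c then g a * g b * g c else 0) =
      g a * (∑ i, g i) ^ 2 - 2 * (g a ^ 2 * ∑ i, g i) - g a * ∑ i, (g i) ^ 2 + 2 * g a ^ 3 := by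
    intro a
    rw [Finset.sum_congr rfl fun b _ => h1 a b,
      sum_ite_ne a fun b => g a * g b * ((∑ i, g i) - g a - g b)]
    have h3 : ∀ b, g a * g b * ((∑ i, g i) - g a - g b) =
        (g a * ((∑ i, g i) - g a)) * g b - g a * (g b ^ 2) := by
      intro b; ring
    rw [Finset.sum_congr rfl fun b _ => h3 b, Finset.sum_sub_distrib, ← Finset.mul_sum,
      ← Finset.mul_sum]
    ring
  rw [Finset.sum_congr rfl fun a _ => h2 a]
  simp only [Finset.sum_add_distrib, Finset.sum_sub_distrib, ← Finset.sum_mul, ← Finset.mul_sum]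
  ring

/-- quadratic part of the permanent at the base point -/
lemma coeff_two_PP (hκ : 2 ≤ Fintype.card κ) : ∃ N : ℕ, N ≠ 0 ∧ ∀ w : κ → κ → K,
    (∀ i, ∑ j, w i j = 0) → (∀ j, ∑ i, w i j = 0) →
    (PP w).coeff 2 * 2 = - (2 * N) * ∑ i, ∑ j, w i j ^ 2 := by
  obtain ⟨N, hN0, hN⟩ := pres3 K (Option κ)
  refine ⟨N, hN0 (by simp; omega), ?_⟩
  intro w hr hc
  have h1 : (PP w).coeff 2 * 2 = ∑ σ : Perm (Option κ), ∑ i, ∑ i', (if i ≠ i' then
      y0 K κ (σ none) * wr w i (σ (some i)) * wr w i' (σ (some i')) else 0) := by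
    rw [PP, Polynomial.finsetSum_coeff, Finset.sum_mul]
    refine Finset.sum_congr rfl fun σ _ => ?_
    rw [Polynomial.coeff_C_mul]
    have h2 := (coeff3_prod univ fun i => wr w i (σ (some i))).1
    rw [← newton2] at h2
    rw [mul_assoc, mul_comm (Polynomial.coeff _ 2) 2, h2, Finset.mul_sum]
    refine Finset.sum_congr rfl fun i _ => ?_
    rw [Finset.mul_sum]
    refine Finset.sum_congr rfl fun i' _ => ?_
    split_ifs <;> ring
  have h3 : ∀ i i' : κ, ∑ σ : Perm (Option κ), (if i ≠ i' then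
      y0 K κ (σ none) * wr w i (σ (some i)) * wr w i' (σ (some i')) else 0) =
      if i ≠ i' then 2 * N * ∑ j, w i j * w i' j else 0 := by
    intro i i'
    by_cases hi : i = i'
    · simp [hi]
    · simp only [ne_eq, hi, not_false_eq_true, if_true]
      rw [hN none (some i) (some i') (by simp) (by simp) (by simpa using hi)
        (fun a b c => y0 K κ a * wr w i b * wr w i' c),
        dist3 _ _ _ (sum_wr w i (hr i)) (sum_wr w i' (hr i')), sum_y0]
      rw [Fintype.sum_option]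
      simp only [wr, y0]
      have : ∑ j, (1 : K) * w i j * w i' j = ∑ j, w i j * w i' j :=
        Finset.sum_congr rfl fun j _ => by ring
      rw [this]
      ring
  rw [h1, Finset.sum_comm]
  have h4 : ∀ i, ∑ σ : Perm (Option κ), ∑ i', (if i ≠ i' then
      y0 K κ (σ none) * wr w i (σ (some i)) * wr w i' (σ (some i')) else 0) =
      ∑ i', if i ≠ i' then 2 * N * ∑ j, w i j * w i' j else 0 := by
    intro i
    rw [Finset.sum_comm]
    exact Finset.sum_congr rfl fun i' _ => h3 i i'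
  rw [Finset.sum_congr rfl fun i _ => h4 i]
  have h5 : ∀ i, ∑ i', (if i ≠ i' then 2 * N * ∑ j, w i j * w i' j else 0) =
      - (2 * N) * ∑ j, w i j ^ 2 := by
    intro i
    rw [sum_ite_ne i fun i' => 2 * N * ∑ j, w i j * w i' j, ← Finset.mul_sum, Finset.sum_comm]
    have h6 : ∑ j, ∑ i', w i j * w i' j = 0 := by
      apply Finset.sum_eq_zero
      intro j _
      rw [← Finset.mul_sum, hc j, mul_zero]
    rw [h6]
    have : ∑ j, w i j * w i j = ∑ j, w i j ^ 2 := Finset.sum_congr rfl fun j _ => by ring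
    rw [this]; ring
  rw [Finset.sum_congr rfl fun i _ => h5 i, ← Finset.mul_sum]

/-- cubic part of the permanent at the base point -/
lemma coeff_three_PP (hκ : 3 ≤ Fintype.card κ) : ∃ N : ℕ, N ≠ 0 ∧ ∀ w : κ → κ → K,
    (∀ i, ∑ j, w i j = 0) → (∀ j, ∑ i, w i j = 0) →
    (PP w).coeff 3 * 6 = - (12 * N) * ∑ i, ∑ j, w i j ^ 3 := by
  obtain ⟨N, hN0, hN⟩ := pres4 K (Option κ)
  refine ⟨N, hN0 (by simp; omega), ?_⟩
  intro w hr hc
  have h1 : (PP w).coeff 3 * 6 = ∑ σ : Perm (Option κ), ∑ i, ∑ i', ∑ i'',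
      (if i ≠ i' ∧ i ≠ i'' ∧ i' ≠ i'' then
      y0 K κ (σ none) * wr w i (σ (some i)) * wr w i' (σ (some i')) * wr w i'' (σ (some i''))
      else 0) := by
    rw [PP, Polynomial.finsetSum_coeff, Finset.sum_mul]
    refine Finset.sum_congr rfl fun σ _ => ?_
    rw [Polynomial.coeff_C_mul]
    have h2 := (coeff3_prod univ fun i => wr w i (σ (some i))).2
    rw [← newton3] at h2
    rw [mul_assoc, mul_comm (Polynomial.coeff _ 3) 6, h2, Finset.mul_sum]
    refine Finset.sum_congr rfl fun i _ => ?_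
    rw [Finset.mul_sum]
    refine Finset.sum_congr rfl fun i' _ => ?_
    rw [Finset.mul_sum]
    refine Finset.sum_congr rfl fun i'' _ => ?_
    split_ifs <;> ring
  have h3 : ∀ i i' i'' : κ, ∑ σ : Perm (Option κ), (if i ≠ i' ∧ i ≠ i'' ∧ i' ≠ i'' then
      y0 K κ (σ none) * wr w i (σ (some i)) * wr w i' (σ (some i')) * wr w i'' (σ (some i''))
      else 0) =
      if i ≠ i' ∧ i ≠ i'' ∧ i' ≠ i'' then - (6 * N) * ∑ j, w i j * w i' j * w i'' j else 0 := by
    intro i i' i''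
    by_cases hi : i ≠ i' ∧ i ≠ i'' ∧ i' ≠ i''
    · simp only [if_pos hi]
      rw [hN none (some i) (some i') (some i'') (by simp) (by simp) (by simpa using hi.1)
        (by simp) (by simpa using hi.2.1) (by simpa using hi.2.2)
        (fun a b c d => y0 K κ a * wr w i b * wr w i' c * wr w i'' d),
        dist4 _ _ _ _ sum_y0 (sum_wr w i (hr i)) (sum_wr w i' (hr i')) (sum_wr w i'' (hr i''))]
      have e : ∀ k : κ, ∑ a, y0 K κ a * wr w k a = 0 := by
        intro k
        rw [Fintype.sum_option]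
        simp only [wr, y0, mul_zero, one_mul, zero_add]
        exact hr k
      rw [e i, e i', e i'', Fintype.sum_option]
      simp only [wr, y0]
      have : ∑ j, (1 : K) * w i j * w i' j * w i'' j = ∑ j, w i j * w i' j * w i'' j :=
        Finset.sum_congr rfl fun j _ => by ring
      rw [this]
      ring
    · simp only [if_neg hi, Finset.sum_const_zero]
  have h4 : ∑ σ : Perm (Option κ), ∑ i, ∑ i', ∑ i'',
      (if i ≠ i' ∧ i ≠ i'' ∧ i' ≠ i'' then
      y0 K κ (σ none) * wr w i (σ (some i)) * wr w i' (σ (some i')) * wr w i'' (σ (some i''))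
      else 0) = ∑ i, ∑ i', ∑ i'', if i ≠ i' ∧ i ≠ i'' ∧ i' ≠ i'' then
        - (6 * N) * ∑ j, w i j * w i' j * w i'' j else 0 := by
    rw [Finset.sum_comm]
    refine Finset.sum_congr rfl fun i _ => ?_
    rw [Finset.sum_comm]
    refine Finset.sum_congr rfl fun i' _ => ?_
    rw [Finset.sum_comm]
    exact Finset.sum_congr rfl fun i'' _ => h3 i i' i''
  rw [h1, h4]
  have h5 : ∀ i i' i'', (if i ≠ i' ∧ i ≠ i'' ∧ i' ≠ i'' then
        - (6 * N) * ∑ j, w i j * w i' j * w i'' j else 0) =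
        - (6 * N) * ∑ j, (if i ≠ i' ∧ i ≠ i'' ∧ i' ≠ i'' then w i j * w i' j * w i'' j else 0) := by
    intro i i' i''
    split_ifs <;> simp
  rw [Finset.sum_congr rfl fun i _ => Finset.sum_congr rfl fun i' _ =>
    Finset.sum_congr rfl fun i'' _ => h5 i i' i'']
  simp only [← Finset.mul_sum]
  have h6 : ∑ i, ∑ i', ∑ i'', ∑ j, (if i ≠ i' ∧ i ≠ i'' ∧ i' ≠ i'' then
      w i j * w i' j * w i'' j else 0) = ∑ j, ∑ i, ∑ i', ∑ i'',
      (if i ≠ i' ∧ i ≠ i'' ∧ i' ≠ i'' then w i j * w i' j * w i'' j else 0) := by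
    rw [Finset.sum_comm (s := univ) (t := univ) (f := fun (j : κ) (i : κ) => ∑ i', ∑ i'',
      (if i ≠ i' ∧ i ≠ i'' ∧ i' ≠ i'' then w i j * w i' j * w i'' j else 0))]
    refine Finset.sum_congr rfl fun i _ => ?_
    rw [Finset.sum_comm (s := univ) (t := univ) (f := fun (j : κ) (i' : κ) => ∑ i'',
      (if i ≠ i' ∧ i ≠ i'' ∧ i' ≠ i'' then w i j * w i' j * w i'' j else 0))]
    refine Finset.sum_congr rfl fun i' _ => ?_
    rw [Finset.sum_comm]
  rw [h6]
  have h7 : ∀ j, ∑ i, ∑ i', ∑ i'', (if i ≠ i' ∧ i ≠ i'' ∧ i' ≠ i'' then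
      w i j * w i' j * w i'' j else 0) = 2 * ∑ i, w i j ^ 3 := by
    intro j
    rw [dist3 (fun i => w i j) (fun i => w i j) (fun i => w i j) (hc j) (hc j), hc j]
    have : ∑ a, w a j * w a j * w a j = ∑ i, w i j ^ 3 := Finset.sum_congr rfl fun j _ => by ring
    rw [this]; ring
  rw [Finset.sum_congr rfl fun j _ => h7 j, ← Finset.mul_sum, Finset.sum_comm]
  ring

end expand

end Pool.Agent.H632R2.Dc
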