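import Pool.Agent.H632R2.Dc1
import Pool.Agent.H632R2.Dc3
import Pool.Agent.H632R2.Border3

set_option autoImplicit false

open Module Finset

namespace Pool.Agent.H632R2.Dc

section core'

variable {κ : Type*} [Field κ] [CharZero κ] {I : Type*} [Fintype I] [DecidableEq I]

/-- `core` without the hypothesis that every coordinate is used -/
theorem core' (M : Submodule κ (I → κ)) (h2 : ∀ w ∈ M, ∀ w' ∈ M, ∑ i, w i * w' i = 0)
    (h3 : ∀ w ∈ M, ∀ w' ∈ M, ∀ w'' ∈ M, ∑ i, w i * w' i * w'' i = 0) :
    3 * finrank κ ↥M ≤ Fintype.card I := by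
  classical
  set Z : I → Prop := fun i => ∃ w ∈ M, w i ≠ 0 with hZ
  set M' : Submodule κ ({i // Z i} → κ) := M.map (res Z) with hM'
  have hinj : ∀ w ∈ M, res Z w = 0 → w = 0 := by
    intro w hw h
    funext i
    by_contra hi
    have hZi : Z i := ⟨w, hw, hi⟩
    have := congrFun h ⟨i, hZi⟩
    exact hi this
  have hsum : ∀ F : I → κ, (∀ i, ¬ Z i → F i = 0) → ∑ i : {i // Z i}, F i = ∑ i, F i := by
    intro F hF
    rw [← Fintype.sum_subtype_add_sum_subtype Z F]
    rw [Finset.sum_eq_zero (s := (univ : Finset {i // ¬ Z i})) (fun i _ => hF i i.2), add_zero]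
  have hz : ∀ w ∈ M, ∀ i, ¬ Z i → w i = 0 := by
    intro w hw i hi
    by_contra h
    exact hi ⟨w, hw, h⟩
  have hfin : finrank κ ↥M' = finrank κ ↥M := by
    have hinj' : Function.Injective ((res Z).comp M.subtype) := by
      rw [← LinearMap.ker_eq_bot, LinearMap.ker_eq_bot']
      intro w hw
      exact Subtype.ext (hinj w w.2 hw)
    have h1 := (LinearEquiv.finrank_eq (LinearEquiv.ofInjective ((res Z).comp M.subtype) hinj'))
    rw [LinearMap.range_comp, Submodule.range_subtype] at h1
    exact h1.symm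
  rw [← hfin]
  by_cases hne : Nonempty {i // Z i}
  · refine (core M' ?_ ?_ ?_).trans (Fintype.card_subtype_le Z)
    · rintro _ ⟨w, hw, rfl⟩ _ ⟨w', hw', rfl⟩
      refine (hsum (fun i => w i * w' i) ?_).trans (h2 w hw w' hw')
      intro i hi
      simp only [hz w hw i hi, zero_mul]
    · rintro _ ⟨w, hw, rfl⟩ _ ⟨w', hw', rfl⟩ _ ⟨w'', hw'', rfl⟩
      refine (hsum (fun i => w i * w' i * w'' i) ?_).trans (h3 w hw w' hw' w'' hw'')
      intro i hi
      simp only [hz w hw i hi, zero_mul]
    · rintro ⟨i, w, hw, hi⟩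
      exact ⟨res Z w, ⟨w, hw, rfl⟩, hi⟩
  · have : IsEmpty {i // Z i} := not_nonempty_iff.mp hne
    have : finrank κ ↥M' = 0 := by
      have : Subsingleton ({i // Z i} → κ) := inferInstance
      exact finrank_zero_of_subsingleton
    omega

/-- polarized form -/
theorem core'' (M : Submodule κ (I → κ)) (h2 : ∀ w ∈ M, ∑ i, w i ^ 2 = 0)
    (h3 : ∀ w ∈ M, ∑ i, w i ^ 3 = 0) :
    3 * finrank κ ↥M ≤ Fintype.card I := by
  refine core' M ?_ ?_
  · intro w hw w' hw'
    have h : 2 * ∑ i, w i * w' i = ∑ i, (w + w') i ^ 2 - ∑ i, w i ^ 2 - ∑ i, w' i ^ 2 := by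
      rw [Finset.mul_sum, ← Finset.sum_sub_distrib, ← Finset.sum_sub_distrib]
      refine Finset.sum_congr rfl fun i _ => ?_
      rw [Pi.add_apply]; ring
    rw [h2 _ (M.add_mem hw hw'), h2 _ hw, h2 _ hw'] at h
    have h' : (2 : κ) * ∑ i, w i * w' i = 0 := by rw [h]; ring
    exact (mul_eq_zero.mp h').resolve_left two_ne_zero
  · intro a ha b hb c hc
    have h : 6 * ∑ i, a i * b i * c i = ∑ i, (a + b + c) i ^ 3 - ∑ i, (a + b) i ^ 3
        - ∑ i, (a + c) i ^ 3 - ∑ i, (b + c) i ^ 3 + ∑ i, a i ^ 3 + ∑ i, b i ^ 3 + ∑ i, c i ^ 3 := by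
      rw [Finset.mul_sum, ← Finset.sum_sub_distrib, ← Finset.sum_sub_distrib,
        ← Finset.sum_sub_distrib, ← Finset.sum_add_distrib, ← Finset.sum_add_distrib,
        ← Finset.sum_add_distrib]
      refine Finset.sum_congr rfl fun i _ => ?_
      simp only [Pi.add_apply]; ring
    rw [h3 _ (M.add_mem (M.add_mem ha hb) hc), h3 _ (M.add_mem ha hb), h3 _ (M.add_mem ha hc),
      h3 _ (M.add_mem hb hc), h3 _ ha, h3 _ hb, h3 _ hc] at h
    have h' : (6 : κ) * ∑ i, a i * b i * c i = 0 := by rw [h]; ring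
    exact (mul_eq_zero.mp h').resolve_left (by norm_num)

end core'

section place

variable {K Ω : Type*} [Field K] [Field Ω] (B : ValuationSubring K) (φ : B →+* Ω)

/-- reduction of a subspace along a place -/
def red {I : Type*} (hφ : Function.Surjective φ) (D : Submodule K (I → K)) :
    Submodule Ω (I → Ω) where
  carrier := {x | ∃ w : I → B, (fun i => (w i : K)) ∈ D ∧ (fun i => φ (w i)) = x}
  add_mem' := by
    rintro _ _ ⟨w, hw, rfl⟩ ⟨w', hw', rfl⟩
    refine ⟨w + w', D.add_mem hw hw', ?_⟩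
    funext i
    simp
  zero_mem' := ⟨0, D.zero_mem, by funext i; simp⟩
  smul_mem' := by
    rintro c _ ⟨w, hw, rfl⟩
    obtain ⟨b, rfl⟩ := hφ c
    refine ⟨b • w, D.smul_mem (b : K) hw, ?_⟩
    funext i
    simp

variable {B φ}

lemma red_mono {I : Type*} (hφ : Function.Surjective φ) {D D' : Submodule K (I → K)}
    (h : D ≤ D') : red B φ hφ D ≤ red B φ hφ D' := by
  rintro _ ⟨w, hw, rfl⟩
  exact ⟨w, h hw, rfl⟩

lemma le_finrank_red {I : Type*} [Fintype I] (hφ : Function.Surjective φ) (d : ℕ) :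
    ∀ D : Submodule K (I → K), d ≤ finrank K ↥D → d ≤ finrank Ω ↥(red B φ hφ D) := by
  classical
  induction d with
  | zero => intro D _; exact Nat.zero_le _
  | succ d ih =>
    intro D hD
    obtain ⟨w, hw, hw0⟩ : ∃ w ∈ D, w ≠ 0 := by
      apply Submodule.exists_mem_ne_zero_of_ne_bot
      rintro rfl
      rw [finrank_bot] at hD
      omega
    have hne : ∃ i ∈ (Finset.univ : Finset I), w i ≠ 0 := by
      by_contra hcon
      push Not at hcon
      exact hw0 (funext fun i => hcon i (Finset.mem_univ i))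
    obtain ⟨i₀, _, hi₀, hmax⟩ := Border.exists_max (O := B) Finset.univ w hne
    let ℓ : ↥D →ₗ[K] K := (LinearMap.proj i₀).comp D.subtype
    have h1 := LinearMap.finrank_range_add_finrank_ker ℓ
    have h2 : finrank K ↥(LinearMap.range ℓ) ≤ 1 := by
      have := Submodule.finrank_le (LinearMap.range ℓ)
      rwa [finrank_self] at this
    set D' : Submodule K (I → K) := (LinearMap.ker ℓ).map D.subtype with hD'
    have h3 : finrank K ↥D' = finrank K ↥(LinearMap.ker ℓ) :=
      Submodule.finrank_map_subtype_eq D (LinearMap.ker ℓ)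
    have h4 := ih D' (by omega)
    have hD'D : D' ≤ D := by
      rintro _ ⟨x, _, rfl⟩
      exact x.2
    have hlt : red B φ hφ D' < red B φ hφ D := by
      refine lt_of_le_of_ne (red_mono hφ hD'D) ?_
      intro heq
      let u : I → B := fun i => ⟨w i / w i₀, hmax i (Finset.mem_univ i)⟩
      have hu : (fun i => φ (u i)) ∈ red B φ hφ D := by
        refine ⟨u, ?_, rfl⟩
        have : (fun i => ((u i : B) : K)) = (w i₀)⁻¹ • w := by
          funext i
          simp only [u, Pi.smul_apply, smul_eq_mul]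
          rw [div_eq_inv_mul]
        rw [this]
        exact D.smul_mem _ hw
      rw [← heq] at hu
      obtain ⟨x, hx, hxu⟩ := hu
      obtain ⟨y, hy, hyx⟩ := hx
      have hy0 : (y : I → K) i₀ = 0 := hy
      have hx0 : ((x i₀ : B) : K) = 0 := by
        rw [← hy0]
        exact (congrFun hyx i₀).symm
      have hx1 : x i₀ = 0 := Subtype.ext hx0
      have h5 := congrFun hxu i₀
      simp only [hx1, map_zero] at h5
      have h6 : u i₀ = 1 := Subtype.ext (div_self hi₀)
      rw [h6, map_one] at h5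
      exact zero_ne_one h5
    have h7 := Submodule.finrank_lt_finrank_of_lt hlt
    omega

/-- lifting of a simple root `0` -/
lemma exists_root [IsAlgClosed K] (hloc : ∀ x : B, φ x ≠ 0 → IsUnit x) (f : Polynomial B) (c : Ω)
    (hc : c ≠ 0) (hf : f.map φ = Polynomial.C c * Polynomial.X) :
    ∃ s : B, φ s = 0 ∧ f.eval s = 0 := by
  classical
  by_contra hcon
  push Not at hcon
  have h0 : φ (f.coeff 0) = 0 := by
    rw [← Polynomial.coeff_map, hf]; simp
  have h1 : φ (f.coeff 1) = c := by
    rw [← Polynomial.coeff_map, hf]; simp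
  set F : Polynomial K := f.map B.subtype with hF
  have hF0 : F.eval 0 = (f.coeff 0 : K) := by
    rw [← Polynomial.coeff_zero_eq_eval_zero, hF, Polynomial.coeff_map]; rfl
  have hF1 : F.derivative.eval 0 = (f.coeff 1 : K) := by
    rw [← Polynomial.coeff_zero_eq_eval_zero, Polynomial.coeff_derivative, hF,
      Polynomial.coeff_map]
    simp
  have hne : F.eval 0 ≠ 0 := by
    intro h
    refine hcon 0 (map_zero _) ?_
    rw [← Polynomial.coeff_zero_eq_eval_zero]
    apply Subtype.ext
    rw [← hF0, h]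
    rfl
  have hroot : ∀ z ∈ F.roots, 1 / (0 - z) ∈ B := by
    intro z hz
    have hz' : F.eval z = 0 := (Polynomial.mem_roots'.mp hz).2
    have hz0 : z ≠ 0 := by
      rintro rfl
      exact hne hz'
    have hzinv : z⁻¹ ∈ B := by
      rcases B.mem_or_inv_mem z with h | h
      · have hφz : φ ⟨z, h⟩ ≠ 0 := by
          intro h2
          refine hcon ⟨z, h⟩ h2 ?_
          apply Subtype.ext
          have h4 := Polynomial.hom_eval₂ f (RingHom.id B) B.subtype ⟨z, h⟩
          rw [RingHom.comp_id, Polynomial.eval₂_id] at h4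
          exact h4.trans ((Polynomial.eval_map _ _).symm.trans hz')
        obtain ⟨y, hy⟩ := isUnit_iff_exists_inv.mp (hloc _ hφz)
        have : ((y : B) : K) = z⁻¹ := by
          have h3 : z * ((y : B) : K) = 1 := congrArg Subtype.val hy
          exact eq_inv_of_mul_eq_one_right h3
        rw [← this]
        exact y.2
      · exact h
    rw [zero_sub, one_div, inv_neg]
    exact B.neg_mem _ hzinv
  have hsum : (F.roots.map fun z ↦ 1 / (0 - z)).sum ∈ B := by
    apply B.toSubring.multiset_sum_mem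
    intro x hx
    obtain ⟨z, hz, rfl⟩ := Multiset.mem_map.mp hx
    exact hroot z hz
  have hd := (IsAlgClosed.splits F).eval_derivative_eq_eval_mul_sum hne
  rw [hF0, hF1] at hd
  have h2 : f.coeff 1 = f.coeff 0 * ⟨_, hsum⟩ := Subtype.ext hd
  rw [h2, map_mul, h0, zero_mul] at h1
  exact hc h1.symm

end place

end Pool.Agent.H632R2.Dc
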