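import Pool.Agent.H632R2.Dc4

set_option autoImplicit false
set_option linter.unusedSectionVars false

open Module Finset

namespace Pool.Agent.H632R2.Dc

open Pool.Agent.H567

section bas

variable {κ : Type*} [Fintype κ] [DecidableEq κ]

/-- base point plus corner plus block -/
def bas {S : Type*} [CommRing S] (s : S) (w : κ × κ → S) : Option κ × Option κ → S
  | (none, none) => -(Fintype.card κ : S) + s
  | (none, some _) => 1
  | (some _, none) => 1
  | (some i, some j) => 1 + w (i, j)

lemma map_bas {S T : Type*} [CommRing S] [CommRing T] (ψ : S →+* T) (s : S) (w : κ × κ → S)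
    (x : Option κ × Option κ) : ψ (bas s w x) = bas (ψ s) (fun i => ψ (w i)) x := by
  rcases x with ⟨_ | i, _ | j⟩ <;> simp [bas]

/-- linear extension by zero -/
def exL (K : Type*) [Field K] (κ : Type*) :
    (κ × κ → K) →ₗ[K] (Option κ × Option κ → K) where
  toFun w := fun x => match x with
    | (some i, some j) => w (i, j)
    | _ => 0
  map_add' w w' := by
    funext x
    rcases x with ⟨_ | i, _ | j⟩ <;> simp
  map_smul' c w := by
    funext x
    rcases x with ⟨_ | i, _ | j⟩ <;> simp

lemma bas_eq {K : Type*} [Field K] (s : K) (w : κ × κ → K) :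
    bas s w = bas s 0 + exL K κ w := by
  funext x
  rcases x with ⟨_ | i, _ | j⟩ <;> simp [bas, exL]

lemma pt_eq {K : Type*} [Field K] (w : κ × κ → K) :
    (Matrix.of fun i j => bas 0 w (i, j)) = pt (fun i j => w (i, j)) := by
  ext i j
  rcases i with _ | i <;> rcases j with _ | j <;> simp [bas, pt, y0, wr]

/-- the generic permanent -/
noncomputable def perP (S : Type*) [CommRing S] (τ : Type*) [Fintype τ] [DecidableEq τ] :
    MvPolynomial (τ × τ) S :=
  (Matrix.of fun i j : τ => (MvPolynomial.X (i, j) : MvPolynomial (τ × τ) S)).permanent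

lemma aeval_perP {S T : Type*} [CommRing S] [CommRing T] [Algebra S T] {τ : Type*} [Fintype τ]
    [DecidableEq τ] (x : τ × τ → T) :
    MvPolynomial.aeval x (perP S τ) = (Matrix.of fun i j => x (i, j)).permanent := by
  rw [perP, permanent_eq, permanent_eq, map_sum]
  refine Finset.sum_congr rfl fun σ _ => ?_
  rw [map_prod]
  refine Finset.prod_congr rfl fun i _ => ?_
  simp

lemma map_perP {S T : Type*} [CommRing S] [CommRing T] (ψ : S →+* T) {τ : Type*} [Fintype τ]
    [DecidableEq τ] : MvPolynomial.map ψ (perP S τ) = perP T τ := by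
  rw [perP, permanent_eq, perP, permanent_eq, map_sum]
  refine Finset.sum_congr rfl fun σ _ => ?_
  rw [map_prod]
  refine Finset.prod_congr rfl fun i _ => ?_
  simp

/-- the permanent in the direction of the corner -/
lemma perm_corner (Ω : Type*) [Field Ω] [CharZero Ω] (κ : Type*) [Fintype κ] [DecidableEq κ] :
    ∃ c : Ω, c ≠ 0 ∧ (Matrix.of fun i j : Option κ =>
      bas (κ := κ) (Polynomial.X : Polynomial Ω) (fun _ => 0) (i, j)).permanent =
      Polynomial.C c * Polynomial.X := by
  obtain ⟨N, hN, hN0⟩ := exists_card_prescribed 1 (Option κ)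
  refine ⟨(N : Ω), ?_, ?_⟩
  · have := hN0 (by simp)
    exact_mod_cast this
  · rw [permanent_eq]
    have h1 : ∀ σ : Equiv.Perm (Option κ), ∏ i, (Matrix.of fun i j : Option κ =>
        bas (κ := κ) (Polynomial.X : Polynomial Ω) (fun _ => 0) (i, j)) i (σ i) =
        ∑ a, if σ none = a then bas (κ := κ) (Polynomial.X : Polynomial Ω) (fun _ => 0) (none, a)
          else 0 := by
      intro σ
      rw [Fintype.prod_option, Finset.sum_ite_eq, if_pos (Finset.mem_univ _)]
      rw [Finset.prod_eq_one, mul_one]
      · rfl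
      · intro i _
        rcases h : σ (some i) with _ | j <;> simp [bas]
    rw [Finset.sum_congr rfl fun σ _ => h1 σ, Finset.sum_comm]
    have h2 : ∀ a : Option κ, ∑ σ : Equiv.Perm (Option κ), (if σ none = a then
        bas (κ := κ) (Polynomial.X : Polynomial Ω) (fun _ => 0) (none, a) else 0) =
        (N : Polynomial Ω) * bas (κ := κ) (Polynomial.X : Polynomial Ω) (fun _ => 0) (none, a) := by
      intro a
      rw [← Finset.sum_filter, Finset.sum_const, nsmul_eq_mul]
      have h3 := hN (fun _ => none) (fun _ => a) (fun x y _ => Subsingleton.elim x y)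
        (fun x y _ => Subsingleton.elim x y)
      have h4 : (univ.filter fun σ : Equiv.Perm (Option κ) => σ none = a).card = N := by
        rw [← h3]
        congr 1
        ext σ
        simp
      rw [h4]
    rw [Finset.sum_congr rfl fun a _ => h2 a, ← Finset.mul_sum, Fintype.sum_option]
    simp [bas]

end bas

section evalmap

lemma pmap_aeval {S T : Type*} [CommRing S] [CommRing T] (φ : S →+* T) {σ : Type*}
    (x : σ → Polynomial S) (G : MvPolynomial σ S) :
    (MvPolynomial.aeval x G).map φ =
      MvPolynomial.aeval (fun i => (x i).map φ) (MvPolynomial.map φ G) := by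
  induction G using MvPolynomial.induction_on with
  | C a => simp
  | add p q hp hq => simp only [map_add, Polynomial.map_add, hp, hq]
  | mul_X p v hp => simp only [map_mul, Polynomial.map_mul, hp, MvPolynomial.aeval_X,
      MvPolynomial.map_X]

lemma peval_aeval {S : Type*} [CommRing S] {σ : Type*}
    (x : σ → Polynomial S) (s : S) (G : MvPolynomial σ S) :
    (MvPolynomial.aeval x G).eval s = MvPolynomial.eval (fun i => (x i).eval s) G := by
  induction G using MvPolynomial.induction_on with
  | C a => simp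
  | add p q hp hq => simp only [map_add, Polynomial.eval_add, hp, hq]
  | mul_X p v hp => simp only [map_mul, Polynomial.eval_mul, hp, MvPolynomial.aeval_X,
      MvPolynomial.eval_X]

end evalmap

section main

variable {K Ω : Type*} [Field K] [IsAlgClosed K] [Field Ω] [CharZero Ω] {B : ValuationSubring K}
  {φ : B →+* Ω} {κ : Type*} [Fintype κ] [DecidableEq κ]

/-- the constraints cutting out the linear space -/
def TT {n : ℕ} (L : (Option κ × Option κ → K) →ₗ[K] Matrix (Fin n) (Fin n) K) (v : Fin n → K) :
    (κ × κ → K) →ₗ[K] (κ → K) × (κ → K) × (Fin n → K) where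
  toFun w := (fun i => ∑ j, w (i, j), fun j => ∑ i, w (i, j), (L (exL K κ w)).mulVec v)
  map_add' w w' := by
    simp only [Pi.add_apply, Finset.sum_add_distrib, map_add, Matrix.add_mulVec]
    rfl
  map_smul' c w := by
    simp only [Pi.smul_apply, ← Finset.smul_sum, map_smul, Matrix.smul_mulVec]
    rfl

theorem main_abs (hφ : Function.Surjective φ) (hloc : ∀ x : B, φ x ≠ 0 → IsUnit x)
    (h3 : 3 ≤ Fintype.card κ) {n : ℕ} (B₀ : Matrix (Fin n) (Fin n) K)
    (L : (Option κ × Option κ → K) →ₗ[K] Matrix (Fin n) (Fin n) K)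
    (G : MvPolynomial (Option κ × Option κ) B)
    (hG : ∀ x, (B₀ + L x).det = MvPolynomial.eval x (MvPolynomial.map B.subtype G))
    (hP : MvPolynomial.map φ G = perP Ω (Option κ)) :
    2 * Fintype.card κ ^ 2 ≤ 3 * n + 6 * Fintype.card κ := by
  classical
  -- compatibility of evaluation
  have hev : ∀ x : Option κ × Option κ → B, (B₀ + L (fun i => (x i : K))).det =
      ((MvPolynomial.eval x G : B) : K) := by
    intro x
    rw [hG, MvPolynomial.eval_map]
    exact (MvPolynomial.eval₂_comp B.subtype x G).symm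
  have hred : ∀ x : Option κ × Option κ → B, φ (MvPolynomial.eval x G) =
      MvPolynomial.eval (fun i => φ (x i)) (perP Ω (Option κ)) := by
    intro x
    rw [← hP, MvPolynomial.eval_map]
    exact (MvPolynomial.eval₂_comp φ x G)
  -- the corner
  set G1 : Polynomial B := MvPolynomial.aeval
    (bas (κ := κ) (Polynomial.X : Polynomial B) (fun _ => 0)) G with hG1
  obtain ⟨c, hc, hcorner⟩ := perm_corner Ω κ
  have hG1φ : G1.map φ = Polynomial.C c * Polynomial.X := by
    rw [hG1, pmap_aeval, hP, aeval_perP, ← hcorner]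
    congr 1
    ext i j
    rw [Matrix.of_apply, Matrix.of_apply]
    have := map_bas (Polynomial.mapRingHom φ) (κ := κ) (Polynomial.X : Polynomial B) (fun _ => 0)
      (i, j)
    rw [Polynomial.coe_mapRingHom] at this
    rw [this]
    simp
  obtain ⟨s, hs, hs0⟩ := exists_root hloc G1 c hc hG1φ
  have hs1 : MvPolynomial.eval (bas (κ := κ) s (fun _ => 0)) G = 0 := by
    refine Eq.trans ?_ hs0
    rw [hG1, peval_aeval]
    congr 2
    funext x
    have := map_bas (Polynomial.evalRingHom s) (κ := κ) (Polynomial.X : Polynomial B) (fun _ => 0) x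
    rw [Polynomial.coe_evalRingHom] at this
    rw [this]
    simp
  have hbasK : ∀ w : κ × κ → B, (fun i => ((bas s w i : B) : K)) =
      bas (s : K) (fun _ => 0) + exL K κ (fun i => (w i : K)) := by
    intro w
    funext x
    have h1 := map_bas B.subtype s w x
    have h2 : bas (s : K) (fun i => (w i : K)) = bas (s : K) 0 + exL K κ (fun i => (w i : K)) :=
      bas_eq (s : K) (fun i => (w i : K))
    change B.subtype (bas s w x) = _
    rw [h1]
    exact congrFun h2 x
  have hdet : (B₀ + L (bas (s : K) (fun _ => 0))).det = 0 := by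
    have h1 := hev (bas (κ := κ) s (fun _ => 0))
    rw [hs1, hbasK] at h1
    have h2 : exL K κ (fun i => ((0 : B) : K)) = 0 := by
      have : (fun _ : κ × κ => ((0 : B) : K)) = 0 := rfl
      rw [this, map_zero]
    rw [h2, add_zero] at h1
    exact h1
  obtain ⟨v, hv, hv0⟩ := Matrix.exists_mulVec_eq_zero_iff.mpr hdet
  set D := LinearMap.ker (TT (κ := κ) L v) with hD
  have hDmem : ∀ w ∈ D, (∀ i, ∑ j, w (i, j) = 0) ∧ (∀ j, ∑ i, w (i, j) = 0) ∧
      (L (exL K κ w)).mulVec v = 0 := by
    intro w hw
    rw [hD, LinearMap.mem_ker] at hw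
    have h1 := congrArg Prod.fst hw
    have h2 := congrArg (fun x => x.2.1) hw
    have h4 := congrArg (fun x => x.2.2) hw
    exact ⟨fun i => congrFun h1 i, fun j => congrFun h2 j, h4⟩
  have hdim : Fintype.card κ * Fintype.card κ ≤ finrank K ↥D + (2 * Fintype.card κ + n) := by
    have h1 := LinearMap.finrank_range_add_finrank_ker (TT (κ := κ) L v)
    have h2 := Submodule.finrank_le (LinearMap.range (TT (κ := κ) L v))
    rw [finrank_fintype_fun_eq_card, Fintype.card_prod] at h1
    rw [Module.finrank_prod, Module.finrank_prod, finrank_fintype_fun_eq_card,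
      finrank_fintype_fun_eq_card, Fintype.card_fin] at h2
    rw [← hD] at h1
    omega
  have hzero : ∀ w : κ × κ → B, (fun i => (w i : K)) ∈ D →
      MvPolynomial.eval (bas s w) G = 0 := by
    intro w hw
    apply Subtype.ext
    rw [← hev, hbasK]
    apply Matrix.exists_mulVec_eq_zero_iff.mp
    refine ⟨v, hv, ?_⟩
    rw [map_add, ← add_assoc, Matrix.add_mulVec, hv0, (hDmem _ hw).2.2, add_zero]
  have hperm : ∀ x ∈ red B φ hφ D, (pt (fun i j => x (i, j))).permanent = 0 := by
    rintro _ ⟨w, hw, rfl⟩
    have h1 := hred (bas s w)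
    rw [hzero w hw, map_zero] at h1
    rw [← pt_eq (fun i => φ (w i))]
    refine Eq.trans ?_ h1.symm
    rw [← MvPolynomial.coe_aeval_eq_eval]
    have h2 := aeval_perP (S := Ω) (T := Ω) (fun i => φ (bas s w i))
    refine Eq.trans ?_ h2.symm
    congr 1
    ext i j
    rw [Matrix.of_apply, Matrix.of_apply, map_bas, hs]
  have hPP : ∀ x ∈ red B φ hφ D, PP (fun i j => x (i, j)) = 0 := by
    intro x hx
    apply Polynomial.funext
    intro t
    rw [eval_PP, Polynomial.eval_zero]
    exact hperm (t • x) (Submodule.smul_mem _ t hx)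
  have hrow : ∀ x ∈ red B φ hφ D, ∀ i, ∑ j, x (i, j) = 0 := by
    rintro _ ⟨w, hw, rfl⟩ i
    have h1 : ∑ j, w (i, j) = 0 := by
      apply Subtype.ext
      exact (map_sum B.subtype _ _).trans ((hDmem _ hw).1 i)
    have h2 := congrArg φ h1
    rwa [map_sum, map_zero] at h2
  have hcol : ∀ x ∈ red B φ hφ D, ∀ j, ∑ i, x (i, j) = 0 := by
    rintro _ ⟨w, hw, rfl⟩ j
    have h1 : ∑ i, w (i, j) = 0 := by
      apply Subtype.ext
      exact (map_sum B.subtype _ _).trans ((hDmem _ hw).2.1 j)
    have h2 := congrArg φ h1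
    rwa [map_sum, map_zero] at h2
  have hsq : ∀ x ∈ red B φ hφ D, ∑ i, x i ^ 2 = 0 := by
    obtain ⟨N, hN, h⟩ := coeff_two_PP (K := Ω) (κ := κ) (by omega)
    intro x hx
    have h1 := h (fun i j => x (i, j)) (hrow x hx) (hcol x hx)
    rw [hPP x hx, Polynomial.coeff_zero, zero_mul] at h1
    rw [Fintype.sum_prod_type]
    have h2 : (-(2 * (N : Ω))) ≠ 0 := by
      rw [neg_ne_zero]
      exact mul_ne_zero two_ne_zero (by exact_mod_cast hN)
    exact (mul_eq_zero.mp h1.symm).resolve_left h2
  have hcu : ∀ x ∈ red B φ hφ D, ∑ i, x i ^ 3 = 0 := by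
    obtain ⟨N, hN, h⟩ := coeff_three_PP (K := Ω) (κ := κ) h3
    intro x hx
    have h1 := h (fun i j => x (i, j)) (hrow x hx) (hcol x hx)
    rw [hPP x hx, Polynomial.coeff_zero, zero_mul] at h1
    rw [Fintype.sum_prod_type]
    have h2 : (-(12 * (N : Ω))) ≠ 0 := by
      rw [neg_ne_zero]
      exact mul_ne_zero (by norm_num) (by exact_mod_cast hN)
    exact (mul_eq_zero.mp h1.symm).resolve_left h2
  have hcore := core'' (red B φ hφ D) hsq hcu
  have hle := le_finrank_red (B := B) (φ := φ) hφ _ D le_rfl
  rw [Fintype.card_prod] at hcore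
  have e : Fintype.card κ ^ 2 = Fintype.card κ * Fintype.card κ := sq _
  omega

end main

end Pool.Agent.H632R2.Dc
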