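import Pool.Agent.H632R2.Dc5

set_option autoImplicit false
set_option linter.unusedSectionVars false

open Module Finset

namespace Pool.Agent.H632R2.Dc

open Pool.Agent.H567 Pool.Agent.H632R2.Border

/-- An affine-linear polynomial is its constant term plus a linear form, on all points. -/
theorem eval_of_totalDegree_le_one {K : Type*} [Field K] {τ : Type*} [Fintype τ] [DecidableEq τ]
    (p : MvPolynomial τ K) (hp : p.totalDegree ≤ 1) (x : τ → K) :
    MvPolynomial.eval x p = MvPolynomial.coeff 0 p +
      ∑ i, MvPolynomial.coeff (Finsupp.single i 1) p * x i := by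
  rw [MvPolynomial.eval_eq']
  have hsub : p.support ⊆ insert 0 (Finset.univ.image (fun i : τ => Finsupp.single i 1)) := by
    intro d hd
    rw [Finset.mem_insert, Finset.mem_image]
    have h1 : (d.sum fun _ e => e) ≤ 1 := le_trans (MvPolynomial.le_totalDegree hd) hp
    have hsum : (d.sum fun _ e => e) = ∑ i, d i := by
      rw [Finsupp.sum_fintype]
      intro i; rfl
    rw [hsum] at h1
    by_cases h0 : d = 0
    · exact Or.inl h0
    · right
      obtain ⟨i, hi⟩ : ∃ i, d i ≠ 0 := by
        by_contra hcon
        push Not at hcon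
        exact h0 (Finsupp.ext hcon)
      refine ⟨i, Finset.mem_univ _, ?_⟩
      have h2 : d i ≤ ∑ j, d j := Finset.single_le_sum (fun j _ => Nat.zero_le _) (Finset.mem_univ i)
      have h3 : d i = 1 := by omega
      ext j
      by_cases hij : i = j
      · subst hij; simp [h3]
      · rw [Finsupp.single_eq_of_ne (Ne.symm hij)]
        have h4 : d i + d j ≤ ∑ l, d l := by
          rw [← Finset.sum_pair hij]
          exact Finset.sum_le_sum_of_subset (Finset.subset_univ _)
        omega
  rw [Finset.sum_subset hsub]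
  · rw [Finset.sum_insert, Finset.sum_image]
    · congr 1
      · simp
      · apply Finset.sum_congr rfl
        intro i _
        congr 1
        rw [Finset.prod_eq_single i]
        · simp
        · intro j _ hj
          rw [Finsupp.single_eq_of_ne hj, pow_zero]
        · simp
    · intro i _ j _ hij
      exact Finsupp.single_left_injective one_ne_zero hij
    · rw [Finset.mem_image]
      rintro ⟨i, _, hi⟩
      have := DFunLike.congr_fun hi i
      simp at this
  · intro d _ hd
    rw [MvPolynomial.notMem_support_iff.mp hd, zero_mul]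

lemma rename_perP {S : Type*} [CommRing S] {τ τ' : Type*} [Fintype τ] [DecidableEq τ]
    [Fintype τ'] [DecidableEq τ'] (e : τ ≃ τ') :
    MvPolynomial.rename (Prod.map e e) (perP S τ) = perP S τ' := by
  rw [perP, permanent_eq, perP, permanent_eq, map_sum, ← Equiv.sum_comp (Equiv.permCongr e)]
  refine Finset.sum_congr rfl fun σ _ => ?_
  rw [map_prod, ← Equiv.prod_comp e]
  refine Finset.prod_congr rfl fun i _ => ?_
  simp [Equiv.permCongr_apply]

/-- the linear part of an affine matrix -/
noncomputable def linPart {R K : Type*} [Field R] [Field K] (ι : R →+* K) {τ τ' : Type*} [Fintype τ']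
    [DecidableEq τ'] (f : τ' → τ) {n : ℕ}
    (A : Matrix (Fin n) (Fin n) (MvPolynomial τ' R)) :
    (τ → K) →ₗ[K] Matrix (Fin n) (Fin n) K where
  toFun x := Matrix.of fun a b =>
        ∑ i : τ', ι (MvPolynomial.coeff (Finsupp.single i 1) (A a b)) * x (f i)
  map_add' x y := by
    ext a b
    simp [mul_add, Finset.sum_add_distrib]
  map_smul' c x := by
    ext a b
    simp only [Matrix.of_apply, Matrix.smul_apply, Pi.smul_apply, smul_eq_mul,
      RingHom.id_apply]
    rw [Finset.mul_sum]
    apply Finset.sum_congr rfl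
    intro i _
    ring

/-- the border determinantal complexity of the permanent -/
theorem border_dc (k : Type*) [Field k] [CharZero k] (m n : ℕ)
    (A : Matrix (Fin n) (Fin n) (MvPolynomial (Fin m × Fin m) (RatFunc k)))
    (hA : ∀ i j, (A i j).totalDegree ≤ 1)
    (hdet : ∀ d, (MvPolynomial.coeff d A.det).denom.eval 0 ≠ 0 ∧
      (MvPolynomial.coeff d A.det).eval (RingHom.id k) 0 =
        MvPolynomial.coeff d (Matrix.of fun i j : Fin m =>
          (MvPolynomial.X (i, j) : MvPolynomial (Fin m × Fin m) k)).permanent) :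
    2 * m ^ 2 ≤ 3 * n + 10 * m := by
  classical
  by_cases hm : m < 4
  · interval_cases m <;> omega
  obtain ⟨p, rfl⟩ : ∃ p, m = p + 1 := ⟨m - 1, by omega⟩
  have hcard : Fintype.card (Option (Fin p)) = Fintype.card (Fin (p + 1)) := by simp
  let e : Option (Fin p) ≃ Fin (p + 1) := Fintype.equivOfCardEq hcard
  -- the valuation ring
  set K := AlgebraicClosure (RatFunc k) with hK
  let ι : RatFunc k →+* K := algebraMap (RatFunc k) K
  obtain ⟨B, hB, hBloc⟩ := IsLocalRing.exists_factor_valuationRing
    (ι.comp (O0 k).subtype)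
  set θ : O0 k →+* B := (ι.comp (O0 k).subtype).codRestrict B.toSubring hB with hθ
  let Ω := IsLocalRing.ResidueField B
  let φ : B →+* Ω := IsLocalRing.residue B
  have hφs : Function.Surjective φ := IsLocalRing.residue_surjective
  have hloc : ∀ x : B, φ x ≠ 0 → IsUnit x := by
    intro x hx
    by_contra hcon
    exact hx ((IsLocalRing.residue_eq_zero_iff x).mpr ((IsLocalRing.mem_maximalIdeal x).mpr hcon))
  let τ : k →+* Ω := (φ.comp θ).comp (ψ0 k)
  have hchar : CharZero Ω := charZero_of_injective_ringHom τ.injective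
  have hcomp : ∀ x : O0 k, φ (θ x) = τ (φ0 k x) := by
    intro x
    have h1 : ¬ IsUnit (x - ψ0 k (φ0 k x)) := by
      intro hu
      have h2 := hu.map (φ0 k)
      rw [map_sub, φψ, sub_self] at h2
      exact not_isUnit_zero h2
    have h2 : ¬ IsUnit (θ (x - ψ0 k (φ0 k x))) := fun hu => h1 (hBloc.map_nonunit _ hu)
    have h3 : φ (θ (x - ψ0 k (φ0 k x))) = 0 := by
      by_contra hcon
      exact h2 (hloc _ hcon)
    rw [map_sub, map_sub, sub_eq_zero] at h3
    exact h3
  -- lift of the determinant
  have hrange : A.det ∈ (MvPolynomial.map (σ := Fin (p + 1) × Fin (p + 1))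
      (O0 k).subtype).range := by
    rw [RingHom.mem_range]
    change _ ∈ Set.range _
    rw [MvPolynomial.mem_range_map_iff_coeffs_subset]
    intro x hx
    rw [Finset.mem_coe, MvPolynomial.mem_coeffs_iff] at hx
    obtain ⟨d, _, rfl⟩ := hx
    exact ⟨⟨_, (hdet d).1⟩, rfl⟩
  obtain ⟨G₀, hG₀⟩ := hrange
  have hG₀φ : MvPolynomial.map (φ0 k) G₀ = perP k (Fin (p + 1)) := by
    ext d
    rw [MvPolynomial.coeff_map]
    refine Eq.trans ?_ (hdet d).2
    have h1 := congrArg (MvPolynomial.coeff d) hG₀
    rw [MvPolynomial.coeff_map] at h1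
    rw [← h1]
    rfl
  let ρ : MvPolynomial (Fin (p + 1) × Fin (p + 1)) B → MvPolynomial (Option (Fin p) × Option (Fin p)) B :=
    fun F => MvPolynomial.rename (Prod.map e.symm e.symm) F
  let G : MvPolynomial (Option (Fin p) × Option (Fin p)) B := ρ (MvPolynomial.map θ G₀)
  have hP : MvPolynomial.map φ G = perP Ω (Option (Fin p)) := by
    change MvPolynomial.map φ (MvPolynomial.rename _ _) = _
    rw [MvPolynomial.map_rename, MvPolynomial.map_map]
    have h1 : φ.comp θ = τ.comp (φ0 k) := RingHom.ext hcomp
    rw [h1, ← MvPolynomial.map_map, hG₀φ, map_perP, rename_perP]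
  -- the matrix
  let B₀ : Matrix (Fin n) (Fin n) K := Matrix.of fun a b => ι (MvPolynomial.coeff 0 (A a b))
  let L : (Option (Fin p) × Option (Fin p) → K) →ₗ[K] Matrix (Fin n) (Fin n) K :=
    linPart ι (fun i : Fin (p + 1) × Fin (p + 1) => (e.symm i.1, e.symm i.2)) A
  have hG : ∀ x, (B₀ + L x).det = MvPolynomial.eval x (MvPolynomial.map B.subtype G) := by
    intro x
    let pt : Fin (p + 1) × Fin (p + 1) → K := fun i => x (e.symm i.1, e.symm i.2)
    have h1 : B₀ + L x = (MvPolynomial.eval pt).mapMatrix ((MvPolynomial.map ι).mapMatrix A) := by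
      ext a b
      rw [RingHom.mapMatrix_apply, Matrix.map_apply, RingHom.mapMatrix_apply, Matrix.map_apply,
        eval_of_totalDegree_le_one _ ((totalDegree_map_le ι (A a b)).trans (hA a b))]
      simp only [MvPolynomial.coeff_map]
      rfl
    have h2 : MvPolynomial.map B.subtype (MvPolynomial.map θ G₀) = MvPolynomial.map ι A.det := by
      rw [← hG₀, MvPolynomial.map_map, MvPolynomial.map_map]
      rfl
    rw [h1, ← RingHom.map_det, ← RingHom.map_det, ← h2]
    change _ = MvPolynomial.eval x (MvPolynomial.map B.subtype (MvPolynomial.rename _ _))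
    rw [MvPolynomial.map_rename, MvPolynomial.eval_rename]
    rfl
  have h := main_abs (φ := φ) hφs hloc (κ := Fin p) (by simp; omega) B₀ L G hG hP
  rw [Fintype.card_fin] at h
  nlinarith

end Pool.Agent.H632R2.Dc
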