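import Mathlib
import Pool.Agent.H598R2.Count

/-!
Laman's theorem for the generic planar rigidity matrix, on top of the count matroid file.
-/

set_option linter.unusedSectionVars false
set_option linter.unusedVariables false

namespace Pool.Agent.H632R2.Laman

open Pool.Agent.H598R2.Cnt

variable {V : Type} [Fintype V] [DecidableEq V]

/-- the row of the rigidity matrix of the pair `e` at the realization `p` -/
def rv (p : V → Fin 2 → ℝ) (e : Finset V) : V → Fin 2 → ℝ :=
  fun w => if w ∈ e then ∑ x ∈ e, (p w - p x) else 0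

theorem rv_pair (p : V → Fin 2 → ℝ) {u v : V} (h : u ≠ v) (w : V) :
    rv p {u, v} w = if w = u then p u - p v else if w = v then p v - p u else 0 := by
  unfold rv
  by_cases h1 : w = u
  · subst h1
    simp [Finset.sum_pair h]
  · by_cases h2 : w = v
    · subst h2
      simp [Finset.sum_pair h, h1]
    · simp [h1, h2]

theorem rv_of_notMem (p : V → Fin 2 → ℝ) {e : Finset V} {w : V} (h : w ∉ e) : rv p e w = 0 := by
  simp [rv, h]

/-- rows only depend on the positions of the members of the pair -/
theorem rv_congr {p q : V → Fin 2 → ℝ} {e : Finset V} (h : ∀ x ∈ e, p x = q x) :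
    rv p e = rv q e := by
  funext w
  unfold rv
  split_ifs with hw
  · exact Finset.sum_congr rfl fun x hx => by rw [h x hx, h w hw]
  · rfl

/-- genericity: the coordinates are algebraically independent over `ℚ` -/
def Gen (p : V → Fin 2 → ℝ) : Prop :=
  AlgebraicIndependent ℚ (fun c : V × Fin 2 => p c.1 c.2)

theorem exists_algInd (ι : Type) [Fintype ι] : ∃ x : ι → ℝ, AlgebraicIndependent ℚ x := by
  obtain ⟨s, hs⟩ := exists_isTranscendenceBasis ℚ ℝ
  have hinf : s.Infinite := by
    intro hfin
    have hc : s.Countable := hfin.countable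
    have halg : Algebra.IsAlgebraic (Algebra.adjoin ℚ (Set.range ((↑) : s → ℝ))) ℝ := hs.isAlgebraic
    have h1 := Algebra.IsAlgebraic.cardinalMk_le_max (Algebra.adjoin ℚ (Set.range ((↑) : s → ℝ))) ℝ
    have h2 : Cardinal.mk (Algebra.adjoin ℚ (Set.range ((↑) : s → ℝ))) ≤ Cardinal.aleph0 := by
      refine (Algebra.cardinalMk_adjoin_le ℚ _).trans ?_
      simp only [Subtype.range_coe_subtype, Set.ofPred_mem_eq]
      simp [hc]
    have h3 : Cardinal.mk ℝ ≤ Cardinal.aleph0 := h1.trans (by simpa using h2)
    rw [Cardinal.mk_real] at h3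
    exact absurd h3 (not_le.mpr Cardinal.aleph0_lt_continuum)
  have : Infinite s := hinf.to_subtype
  obtain ⟨f⟩ : Nonempty (ι ↪ s) := by
    have hι : Cardinal.mk ι ≤ Cardinal.mk s :=
      (Cardinal.mk_le_aleph0 (α := ι)).trans (Cardinal.aleph0_le_mk s)
    exact (Cardinal.le_def ι s).mp hι
  exact ⟨fun i => (f i : ℝ), hs.1.comp f f.injective⟩

theorem exists_gen (V : Type) [Fintype V] : ∃ p : V → Fin 2 → ℝ, Gen p := by
  obtain ⟨z, hz⟩ := exists_algInd (V × Fin 2)
  exact ⟨fun v k => z (v, k), hz⟩

/-! ### Specialisation -/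

/-- The matrix of rows -/
noncomputable def mat (p : V → Fin 2 → ℝ) (I : Finset (Finset V)) :
    Matrix I (V × Fin 2) ℝ := fun e c => rv p e.1 c.1 c.2

theorem indep_iff_det (p : V → Fin 2 → ℝ) (I : Finset (Finset V)) :
    LinearIndepOn ℝ (rv p) (I : Set (Finset V)) ↔ (mat p I * (mat p I).transpose).det ≠ 0 := by
  rw [linearIndepOn_finset_iff]
  have hvm : ∀ (f : Finset V → ℝ) (w : V) (k : Fin 2),
      Matrix.vecMul (fun e : I => f e.1) (mat p I) (w, k) = (∑ e ∈ I, f e • rv p e) w k := by
    intro f w k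
    simp only [Matrix.vecMul, dotProduct, mat, Finset.sum_apply, Pi.smul_apply, smul_eq_mul]
    rw [← Finset.sum_coe_sort I]
  constructor
  · intro h hdet
    obtain ⟨c, hc0, hc⟩ := Matrix.exists_vecMul_eq_zero_iff.2 hdet
    apply hc0
    have h1 : Matrix.vecMul c (mat p I) ⬝ᵥ Matrix.vecMul c (mat p I) = 0 := by
      have h2 : Matrix.vecMul c (mat p I) ⬝ᵥ Matrix.vecMul c (mat p I) =
          Matrix.vecMul c (mat p I * (mat p I).transpose) ⬝ᵥ c := by
        rw [← Matrix.vecMul_vecMul, Matrix.vecMul_transpose, dotProduct_comm,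
          ← Matrix.dotProduct_mulVec, dotProduct_comm]
      rw [h2, hc, zero_dotProduct]
    have h3 : Matrix.vecMul c (mat p I) = 0 := dotProduct_self_eq_zero.1 h1
    let f : Finset V → ℝ := fun e => if he : e ∈ I then c ⟨e, he⟩ else 0
    have hf : (fun e : I => f e.1) = c := by
      funext e
      simp [f, e.2]
    have h4 : ∑ e ∈ I, f e • rv p e = 0 := by
      funext w k
      rw [← hvm f w k, hf, h3]
      rfl
    funext e
    have h5 := h f h4 e.1 e.2
    rw [← hf]
    exact h5
  · intro hdet f hf e he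
    have h1 : Matrix.vecMul (fun e : I => f e.1) (mat p I) = 0 := by
      funext c
      rw [show c = (c.1, c.2) from rfl, hvm f c.1 c.2, hf]
      rfl
    have h2 : Matrix.vecMul (fun e : I => f e.1) (mat p I * (mat p I).transpose) = 0 := by
      rw [← Matrix.vecMul_vecMul, h1, Matrix.zero_vecMul]
    have h3 := Matrix.eq_zero_of_vecMul_eq_zero hdet h2
    exact congrFun h3 ⟨e, he⟩

/-- polynomial matrix of rows -/
noncomputable def pmat (I : Finset (Finset V)) :
    Matrix I (V × Fin 2) (MvPolynomial (V × Fin 2) ℚ) := fun e c =>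
  if c.1 ∈ e.1 then ∑ x ∈ e.1, (MvPolynomial.X (c.1, c.2) - MvPolynomial.X (x, c.2)) else 0

theorem pmat_map (p : V → Fin 2 → ℝ) (I : Finset (Finset V)) :
    (pmat I).map (MvPolynomial.aeval (fun c : V × Fin 2 => p c.1 c.2)) = mat p I := by
  ext e c
  simp only [Matrix.map_apply, pmat, mat, rv]
  split_ifs with h
  · simp [Finset.sum_apply]
  · simp

theorem det_eq (p : V → Fin 2 → ℝ) (I : Finset (Finset V)) :
    (mat p I * (mat p I).transpose).det =
      MvPolynomial.aeval (fun c : V × Fin 2 => p c.1 c.2) ((pmat I * (pmat I).transpose).det) := by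
  rw [← pmat_map p I, AlgHom.map_det, AlgHom.mapMatrix_apply]
  congr 1
  rw [← Matrix.transpose_map, ← Matrix.map_mul]

/-- independence somewhere implies independence at every generic point -/
theorem indep_gen {p z : V → Fin 2 → ℝ} (hz : Gen z) {I : Finset (Finset V)}
    (h : LinearIndepOn ℝ (rv p) (I : Set (Finset V))) :
    LinearIndepOn ℝ (rv z) (I : Set (Finset V)) := by
  rw [indep_iff_det, det_eq] at h ⊢
  intro h0
  apply h
  have : (pmat I * (pmat I).transpose).det = 0 := by
    have hinj : Function.Injective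
      (MvPolynomial.aeval (R := ℚ) (fun c : V × Fin 2 => z c.1 c.2)) := hz
    apply hinj
    rw [h0, map_zero]
  rw [this, map_zero]

/-! ### Sparse sets are independent -/

/-- 0-extension: new pairs at a new vertex with independent directions -/
theorem ext0 {p : V → Fin 2 → ℝ} {I S : Finset (Finset V)} {v : V}
    (hI : LinearIndepOn ℝ (rv p) (I : Set (Finset V))) (hv : ∀ e ∈ I, v ∉ e)
    (hS : LinearIndepOn ℝ (fun e => rv p e v) (S : Set (Finset V))) :
    LinearIndepOn ℝ (rv p) ((I ∪ S : Finset (Finset V)) : Set (Finset V)) := by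
  rw [linearIndepOn_finset_iff] at hI hS ⊢
  intro f hf
  have hvI : ∀ e ∈ I, rv p e v = 0 := fun e he => rv_of_notMem p (hv e he)
  have hdisj : Disjoint I S := by
    rw [Finset.disjoint_left]
    intro e heI heS
    have h1 := hS (fun e' => if e' = e then 1 else 0) (by
      rw [Finset.sum_eq_single e]
      · simp [hvI e heI]
      · intro b _ hb
        simp [hb]
      · intro h
        exact absurd heS h) e heS
    simp at h1
  rw [Finset.sum_union hdisj] at hf
  have h1 : ∑ e ∈ S, f e • rv p e v = 0 := by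
    have h2 := congrFun hf v
    rw [Pi.add_apply, Finset.sum_apply, Finset.sum_apply] at h2
    rw [Finset.sum_eq_zero (s := I)] at h2
    · simpa using h2
    · intro e he
      rw [Pi.smul_apply, hvI e he, smul_zero]
  have h2 := hS f h1
  have h3 : ∑ e ∈ S, f e • rv p e = 0 := Finset.sum_eq_zero fun e he => by rw [h2 e he, zero_smul]
  rw [h3, add_zero] at hf
  have h4 := hI f hf
  intro e he
  rcases Finset.mem_union.1 he with he | he
  · exact h4 e he
  · exact h2 e he

/-- two vectors of the plane with nonzero determinant are independent -/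
theorem indep2 {x y : Fin 2 → ℝ} (h : x 0 * y 1 - x 1 * y 0 ≠ 0) {a b : ℝ}
    (h1 : a • x + b • y = 0) : a = 0 ∧ b = 0 := by
  have h2 := congrFun h1 0
  have h3 := congrFun h1 1
  simp only [Pi.add_apply, Pi.smul_apply, smul_eq_mul, Pi.zero_apply] at h2 h3
  constructor
  · have : a * (x 0 * y 1 - x 1 * y 0) = 0 := by linear_combination y 1 * h2 - y 0 * h3
    exact (mul_eq_zero.1 this).resolve_right h
  · have : b * (x 0 * y 1 - x 1 * y 0) = 0 := by linear_combination x 0 * h3 - x 1 * h2
    exact (mul_eq_zero.1 this).resolve_right h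

/-- generic triples are not collinear -/
theorem Gen.not_collinear {z : V → Fin 2 → ℝ} (hz : Gen z) {a b c : V} (hab : a ≠ b) (hac : a ≠ c)
    (hbc : b ≠ c) : (z a 0 - z b 0) * (z a 1 - z c 1) - (z a 1 - z b 1) * (z a 0 - z c 0) ≠ 0 := by
  intro h
  have hinj : Function.Injective
      (MvPolynomial.aeval (R := ℚ) (fun c : V × Fin 2 => z c.1 c.2)) := hz
  let P : MvPolynomial (V × Fin 2) ℚ :=
    (MvPolynomial.X (a, 0) - MvPolynomial.X (b, 0)) * (MvPolynomial.X (a, 1) - MvPolynomial.X (c, 1)) -
    (MvPolynomial.X (a, 1) - MvPolynomial.X (b, 1)) * (MvPolynomial.X (a, 0) - MvPolynomial.X (c, 0))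
  have h1 : P = 0 := by
    apply hinj
    simp only [P, map_sub, map_mul, MvPolynomial.aeval_X, map_zero]
    exact h
  -- evaluate at a special point
  have h2 := congrArg (MvPolynomial.eval (fun q : V × Fin 2 =>
    if q = (a, 0) then (1 : ℚ) else if q = (a, 1) then 1 else if q = (b, 1) then 1 else 0)) h1
  simp [P, Ne.symm hab, Ne.symm hac, Ne.symm hbc] at h2

theorem Gen.ne {z : V → Fin 2 → ℝ} (hz : Gen z) {a b : V} (hab : a ≠ b) (k : Fin 2) :
    z a k ≠ z b k := by
  intro h
  have h1 := hz.injective (show (fun c : V × Fin 2 => z c.1 c.2) (a, k) = (fun c : V × Fin 2 => z c.1 c.2) (b, k) from h)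
  exact hab (congrArg Prod.fst h1)

theorem pair_of_mem {e : Finset V} (h : e.card = 2) {v : V} (hv : v ∈ e) :
    ∃ a, a ≠ v ∧ e = {v, a} := by
  obtain ⟨x, y, hxy, rfl⟩ := Finset.card_eq_two.1 h
  rcases Finset.mem_insert.1 hv with rfl | hv
  · exact ⟨y, hxy.symm, rfl⟩
  · rw [Finset.mem_singleton] at hv
    subst hv
    exact ⟨x, hxy, Finset.pair_comm _ _⟩

/-- in a nonempty sparse set of pairs, some vertex has degree between one and three -/
theorem exists_low_degree {I : Finset (Finset V)} (hP : Pairs I) (hI : Sp I) (hne : I.Nonempty) :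
    ∃ v, 1 ≤ (I.filter (v ∈ ·)).card ∧ (I.filter (v ∈ ·)).card ≤ 3 := by
  by_contra hcon
  push Not at hcon
  let X := I.biUnion id
  have hX : ∀ v ∈ X, 4 ≤ (I.filter (v ∈ ·)).card := by
    intro v hv
    obtain ⟨e, he, hve⟩ := Finset.mem_biUnion.1 hv
    have h1 : 1 ≤ (I.filter (v ∈ ·)).card :=
      Finset.card_pos.2 ⟨e, Finset.mem_filter.2 ⟨he, hve⟩⟩
    have := hcon v h1
    omega
  have hsum : ∑ v ∈ X, (I.filter (v ∈ ·)).card = 2 * I.card := by
    have h1 : ∑ v ∈ X, (I.filter (v ∈ ·)).card = ∑ e ∈ I, (X.filter (· ∈ e)).card := by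
      simp only [Finset.card_filter]
      rw [Finset.sum_comm]
    rw [h1]
    have h2 : ∀ e ∈ I, (X.filter (· ∈ e)).card = 2 := by
      intro e he
      rw [← hP e he]
      congr 1
      ext x
      simp only [Finset.mem_filter]
      exact ⟨fun h => h.2, fun h => ⟨Finset.mem_biUnion.2 ⟨e, he, h⟩, h⟩⟩
    rw [Finset.sum_congr rfl h2]
    simp [mul_comm]
  have h3 : 4 * X.card ≤ 2 * I.card := by
    rw [← hsum]
    calc 4 * X.card = ∑ _v ∈ X, 4 := by simp [mul_comm]
      _ ≤ _ := Finset.sum_le_sum hX
  obtain ⟨e, he⟩ := hne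
  have h4 : 2 ≤ X.card := by
    rw [← hP e he]
    exact Finset.card_le_card (Finset.subset_biUnion_of_mem id he)
  have h5 := hI X h4
  have h6 : ins I X = I.card := by
    have h7 : ∀ e ∈ I, e ⊆ X := fun e he => Finset.subset_biUnion_of_mem id he
    unfold ins
    rw [Finset.filter_true_of_mem h7]
  omega

theorem tight_notMem {I : Finset (Finset V)} (hI : Sp I) {v : V} (hv : ∀ e ∈ I, v ∉ e) {Y : Finset V}
    (hY : Tight I Y) {x y : V} (hxy : x ≠ y) (hx : x ∈ Y) (hy : y ∈ Y) (hxv : x ≠ v)
    (hyv : y ≠ v) : v ∉ Y := by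
  intro hvY
  have h1 : ins I (Y.erase v) = ins I Y := by
    unfold ins
    congr 1
    ext e
    simp only [Finset.mem_filter]
    refine ⟨fun h => ⟨h.1, h.2.trans (Finset.erase_subset _ _)⟩, fun h => ⟨h.1, fun w hw => ?_⟩⟩
    refine Finset.mem_erase.2 ⟨?_, h.2 hw⟩
    rintro rfl
    exact hv e h.1 hw
  have h2 : 2 ≤ (Y.erase v).card := by
    rw [← Finset.card_pair hxy]
    apply Finset.card_le_card
    intro w hw
    simp only [Finset.mem_insert, Finset.mem_singleton] at hw
    rcases hw with rfl | rfl
    · exact Finset.mem_erase.2 ⟨hxv, hx⟩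
    · exact Finset.mem_erase.2 ⟨hyv, hy⟩
  have h3 := hI _ h2
  have h4 := Finset.card_erase_add_one hvY
  have h5 := hY.2
  omega

/-- no tight set of `I₀` contains three neighbours of `v` -/
theorem no_tight_abc {I : Finset (Finset V)} (hI : Sp I) {v a b c : V} (hav : a ≠ v) (hbv : b ≠ v)
    (hcv : c ≠ v) (hab : a ≠ b) (hac : a ≠ c) (hbc : b ≠ c) (h1 : {v, a} ∈ I) (h2 : {v, b} ∈ I)
    (h3 : {v, c} ∈ I) {Y : Finset V} (hY : Tight (I.filter (v ∉ ·)) Y) (ha : a ∈ Y) (hb : b ∈ Y)
    (hc : c ∈ Y) : False := by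
  have hI0 : Sp (I.filter (v ∉ ·)) := hI.mono (Finset.filter_subset _ _)
  have hvY : v ∉ Y := tight_notMem hI0 (fun e he => (Finset.mem_filter.1 he).2) hY hab ha hb hav hbv
  have h4 := hI (insert v Y) (by rw [Finset.card_insert_of_notMem hvY]; have := hY.1; omega)
  have h5 : ins (I.filter (v ∉ ·)) Y + 3 ≤ ins I (insert v Y) := by
    have hab' : ({v, a} : Finset V) ≠ {v, b} := by
      intro he
      have : a ∈ ({v, b} : Finset V) := he ▸ (by simp)
      simp [hav, hab] at this
    have hac' : ({v, a} : Finset V) ≠ {v, c} := by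
      intro he
      have : a ∈ ({v, c} : Finset V) := he ▸ (by simp)
      simp [hav, hac] at this
    have hbc' : ({v, b} : Finset V) ≠ {v, c} := by
      intro he
      have : b ∈ ({v, c} : Finset V) := he ▸ (by simp)
      simp [hbv, hbc] at this
    have hc3 : ({({v, a} : Finset V), {v, b}, {v, c}} : Finset (Finset V)).card = 3 := by
      rw [Finset.card_insert_of_notMem, Finset.card_pair hbc']
      simp [hab', hac']
    unfold ins
    rw [← hc3, ← Finset.card_union_of_disjoint]
    · apply Finset.card_le_card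
      intro e he
      simp only [Finset.mem_union, Finset.mem_filter, Finset.mem_insert,
        Finset.mem_singleton] at he ⊢
      rcases he with ⟨⟨he, _⟩, heY⟩ | rfl | rfl | rfl
      · exact ⟨he, heY.trans (Finset.subset_insert _ _)⟩
      · exact ⟨h1, Finset.insert_subset_insert _ (Finset.singleton_subset_iff.2 ha)⟩
      · exact ⟨h2, Finset.insert_subset_insert _ (Finset.singleton_subset_iff.2 hb)⟩
      · exact ⟨h3, Finset.insert_subset_insert _ (Finset.singleton_subset_iff.2 hc)⟩
    · rw [Finset.disjoint_left]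
      intro e he he'
      simp only [Finset.mem_filter, Finset.mem_insert, Finset.mem_singleton] at he he'
      rcases he' with rfl | rfl | rfl <;> simp at he
  rw [Finset.card_insert_of_notMem hvY] at h4
  have h6 := hY.2
  omega

theorem exists_tight_or {I : Finset (Finset V)} (hI : Sp I) {x y : V} (hxy : x ≠ y)
    (h : ¬ ({x, y} ∉ I ∧ Sp (insert {x, y} I))) : ∃ Y, Tight I Y ∧ x ∈ Y ∧ y ∈ Y := by
  by_cases hm : ({x, y} : Finset V) ∈ I
  · exact ⟨{x, y}, tight_pair hI hm (Finset.card_pair hxy), by simp, by simp⟩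
  · have h1 : ¬ Sp (insert {x, y} I) := fun hs => h ⟨hm, hs⟩
    obtain ⟨Y, hY, hs⟩ := exists_tight_of_not_sp hI h1
    exact ⟨Y, hY, hs (by simp), hs (by simp)⟩

/-- The reduction step at a vertex of degree three -/
theorem exists_split {I : Finset (Finset V)} (hP : Pairs I) (hI : Sp I) {v a b c : V} (hav : a ≠ v)
    (hbv : b ≠ v) (hcv : c ≠ v) (hab : a ≠ b) (hac : a ≠ c) (hbc : b ≠ c) (h1 : {v, a} ∈ I)
    (h2 : {v, b} ∈ I) (h3 : {v, c} ∈ I) :
    ({a, b} ∉ I.filter (v ∉ ·) ∧ Sp (insert {a, b} (I.filter (v ∉ ·)))) ∨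
    ({b, c} ∉ I.filter (v ∉ ·) ∧ Sp (insert {b, c} (I.filter (v ∉ ·)))) ∨
    ({c, a} ∉ I.filter (v ∉ ·) ∧ Sp (insert {c, a} (I.filter (v ∉ ·)))) := by
  by_contra hcon
  push Not at hcon
  obtain ⟨hn1, hn2, hn3⟩ := hcon
  set J := I.filter (v ∉ ·) with hJ
  have hJs : Sp J := hI.mono (Finset.filter_subset _ _)
  have hJP : ∀ e ∈ J, e.card = 2 := fun e he => hP e (Finset.mem_filter.1 he).1
  obtain ⟨A, hA, haA, hbA⟩ := exists_tight_or hJs hab (by rintro ⟨h, h'⟩; exact hn1 h h')
  obtain ⟨B, hB, hbB, hcB⟩ := exists_tight_or hJs hbc (by rintro ⟨h, h'⟩; exact hn2 h h')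
  obtain ⟨C, hC, hcC, haC⟩ := exists_tight_or hJs hac.symm (by rintro ⟨h, h'⟩; exact hn3 h h')
  have key : ∀ Y, Tight J Y → a ∈ Y → b ∈ Y → c ∈ Y → False := fun Y hY h4 h5 h6 =>
    no_tight_abc hI hav hbv hcv hab hac hbc h1 h2 h3 hY h4 h5 h6
  have iAB : (A ∩ B).card ≤ 1 := by
    by_contra hlt
    push Not at hlt
    exact key _ (hA.union hJs hB hlt) (by simp [haA]) (by simp [hbA]) (by simp [hcB])
  have iBC : (B ∩ C).card ≤ 1 := by
    by_contra hlt
    push Not at hlt
    exact key _ (hB.union hJs hC hlt) (by simp [haC]) (by simp [hbB]) (by simp [hcC])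
  have iAC : (A ∩ C).card ≤ 1 := by
    by_contra hlt
    push Not at hlt
    exact key _ (hA.union hJs hC hlt) (by simp [haA]) (by simp [hbA]) (by simp [hcC])
  have cAB := Finset.card_union_add_card_inter A B
  have cABC := Finset.card_union_add_card_inter (A ∪ B) C
  have e1 : (A ∩ B).card = 1 := le_antisymm iAB (Finset.card_pos.2 ⟨b, by simp [hbA, hbB]⟩)
  have e2 : 2 ≤ ((A ∪ B) ∩ C).card := by
    rw [← Finset.card_pair hac]
    apply Finset.card_le_card
    intro w hw
    simp only [Finset.mem_insert, Finset.mem_singleton] at hw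
    rcases hw with rfl | rfl
    · simp [haA, haC]
    · simp [hcB, hcC]
  have e3 : ins J A + ins J B + ins J C ≤ ins J (A ∪ B ∪ C) := by
    unfold ins
    rw [← Finset.card_union_of_disjoint, ← Finset.card_union_of_disjoint]
    · apply Finset.card_le_card
      intro e he
      simp only [Finset.mem_union, Finset.mem_filter] at he ⊢
      rcases he with (he | he) | he
      · exact ⟨he.1, he.2.trans (by intro x hx; simp [hx])⟩
      · exact ⟨he.1, he.2.trans (by intro x hx; simp [hx])⟩
      · exact ⟨he.1, he.2.trans (by intro x hx; simp [hx])⟩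
    · rw [Finset.disjoint_left]
      intro e he he'
      simp only [Finset.mem_union, Finset.mem_filter] at he he'
      have h4 := hJP e he'.1
      rcases he with he | he
      · have := Finset.card_le_card (Finset.subset_inter he.2 he'.2)
        omega
      · have := Finset.card_le_card (Finset.subset_inter he.2 he'.2)
        omega
    · rw [Finset.disjoint_left]
      intro e he he'
      simp only [Finset.mem_filter] at he he'
      have h4 := hJP e he'.1
      have := Finset.card_le_card (Finset.subset_inter he.2 he'.2)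
      omega
  have hA2 := hA.2
  have hB2 := hB.2
  have hC2 := hC.2
  have hA1 := hA.1
  have hle : A.card ≤ (A ∪ B ∪ C).card :=
    Finset.card_le_card (by intro x hx; simp [hx])
  have hs := hJs (A ∪ B ∪ C) (hA1.trans hle)
  exact key (A ∪ B ∪ C) ⟨hA1.trans hle, by omega⟩ (by simp [haA]) (by simp [hbA]) (by simp [hcB])

/-- geometric 1-extension -/
theorem ext1 {z : V → Fin 2 → ℝ} (hz : Gen z) {J : Finset (Finset V)} {v a b c : V} (hav : a ≠ v)
    (hbv : b ≠ v) (hcv : c ≠ v) (hab : a ≠ b) (hac : a ≠ c) (hbc : b ≠ c) (hv : ∀ e ∈ J, v ∉ e)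
    (hn : {a, b} ∉ J) (hJ : LinearIndepOn ℝ (rv z) ((insert {a, b} J : Finset (Finset V)) : Set (Finset V))) :
    ∃ p, LinearIndepOn ℝ (rv p)
      ((J ∪ {{v, a}, {v, b}, {v, c}} : Finset (Finset V)) : Set (Finset V)) := by
  let p : V → Fin 2 → ℝ := Function.update z v (fun k => (z a k + z b k) / 2)
  have hpv : p v = fun k => (z a k + z b k) / 2 := Function.update_self _ _ _
  have hpn : ∀ x, x ≠ v → p x = z x := fun x hx => Function.update_of_ne hx _ _
  have hJp : ∀ e ∈ J, rv p e = rv z e := fun e he =>
    rv_congr fun x hx => hpn x (by rintro rfl; exact hv e he hx)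
  refine ⟨p, ?_⟩
  rw [linearIndepOn_finset_iff] at hJ ⊢
  intro f hf
  have hab' : ({v, a} : Finset V) ≠ {v, b} := by
    intro he
    have : a ∈ ({v, b} : Finset V) := he ▸ (by simp)
    simp [hav, hab] at this
  have hac' : ({v, a} : Finset V) ≠ {v, c} := by
    intro he
    have : a ∈ ({v, c} : Finset V) := he ▸ (by simp)
    simp [hav, hac] at this
  have hbc' : ({v, b} : Finset V) ≠ {v, c} := by
    intro he
    have : b ∈ ({v, c} : Finset V) := he ▸ (by simp)
    simp [hbv, hbc] at this
  have hdisj : Disjoint J ({{v, a}, {v, b}, {v, c}} : Finset (Finset V)) := by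
    rw [Finset.disjoint_left]
    intro e he he'
    simp only [Finset.mem_insert, Finset.mem_singleton] at he'
    rcases he' with rfl | rfl | rfl <;> exact hv _ he (by simp)
  rw [Finset.sum_union hdisj, Finset.sum_insert (by simp [hab', hac']),
    Finset.sum_pair hbc', Finset.sum_congr rfl (fun e he => by rw [hJp e he])] at hf
  -- coordinates at `v`
  have hrowv : ∀ x, x ≠ v → rv p {v, x} v = p v - p x := by
    intro x hx
    rw [rv_pair p hx.symm, if_pos rfl]
  have hrowx : ∀ x, x ≠ v → rv p {v, x} x = p x - p v := by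
    intro x hx
    rw [rv_pair p hx.symm, if_neg hx, if_pos rfl]
  have hrow0 : ∀ x w, x ≠ v → w ≠ v → w ≠ x → rv p {v, x} w = 0 := by
    intro x w hx hw hwx
    rw [rv_pair p hx.symm, if_neg hw, if_neg hwx]
  have h1 := congrFun hf v
  have hJv : (∑ e ∈ J, f e • rv z e) v = 0 := by
    rw [Finset.sum_apply]
    exact Finset.sum_eq_zero fun e he => by rw [Pi.smul_apply, rv_of_notMem z (hv e he), smul_zero]
  have h2 : ((f {v, a} - f {v, b}) / 2) • (fun k => z b k - z a k) +
      f {v, c} • (fun k => (z a k + z b k) / 2 - z c k) = (0 : Fin 2 → ℝ) := by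
    rw [Pi.add_apply, hJv, Pi.add_apply, Pi.add_apply, Pi.smul_apply, Pi.smul_apply, Pi.smul_apply,
      hrowv a hav, hrowv b hbv, hrowv c hcv, hpv, hpn a hav, hpn b hbv, hpn c hcv] at h1
    funext k
    have h3 := congrFun h1 k
    simp only [Pi.add_apply, Pi.smul_apply, smul_eq_mul, Pi.sub_apply, Pi.zero_apply] at h3 ⊢
    linear_combination h3
  have h3 := indep2 (by
    have h4 := hz.not_collinear hab hac hbc
    intro h5
    apply h4
    linear_combination (-1 : ℝ) * h5) h2
  have hfab : f {v, a} = f {v, b} := by linarith [h3.1]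
  have hfc : f {v, c} = 0 := h3.2
  -- the remaining dependency
  have h4 : ∑ e ∈ insert {a, b} J,
      (if e = {a, b} then f {v, a} / 2 else f e) • rv z e = 0 := by
    rw [Finset.sum_insert hn, if_pos rfl]
    have h5 : ∑ e ∈ J, (if e = {a, b} then f {v, a} / 2 else f e) • rv z e =
        ∑ e ∈ J, f e • rv z e := by
      refine Finset.sum_congr rfl fun e he => ?_
      rw [if_neg (by rintro rfl; exact hn he)]
    rw [h5]
    have h6 : (f {v, a} / 2) • rv z {a, b} =
        f {v, a} • rv p {v, a} + f {v, b} • rv p {v, b} + f {v, c} • rv p {v, c} := by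
      rw [hfc, zero_smul, add_zero, ← hfab]
      funext w
      rw [Pi.add_apply, Pi.smul_apply, Pi.smul_apply, Pi.smul_apply, rv_pair z hab]
      by_cases hwv : w = v
      · subst hwv
        rw [if_neg (Ne.symm hav), if_neg (Ne.symm hbv), hrowv a hav, hrowv b hbv, hpv,
          hpn a hav, hpn b hbv]
        funext k
        simp only [Pi.add_apply, Pi.smul_apply, smul_eq_mul, Pi.sub_apply, Pi.zero_apply]
        ring
      · by_cases hwa : w = a
        · subst hwa
          rw [if_pos rfl, hrowx w hav, hrow0 b w hbv hwv hab, hpv, hpn w hav]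
          funext k
          simp only [Pi.add_apply, Pi.smul_apply, smul_eq_mul, Pi.sub_apply, Pi.zero_apply]
          ring
        · by_cases hwb : w = b
          · subst hwb
            rw [if_neg hwa, if_pos rfl, hrowx w hbv, hrow0 a w hav hwv hwa, hpv, hpn w hbv]
            funext k
            simp only [Pi.add_apply, Pi.smul_apply, smul_eq_mul, Pi.sub_apply, Pi.zero_apply]
            ring
          · rw [if_neg hwa, if_neg hwb, hrow0 a w hav hwv hwa, hrow0 b w hbv hwv hwb]
            simp
    rw [h6, add_comm]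
    rw [← hf]
    abel
  have h5 := hJ _ h4
  have hfa : f {v, a} = 0 := by
    have := h5 {a, b} (Finset.mem_insert_self _ _)
    simp only [if_true] at this
    linarith
  intro e he
  rcases Finset.mem_union.1 he with he | he
  · have := h5 e (Finset.mem_insert_of_mem he)
    rwa [if_neg (by rintro rfl; exact hn he)] at this
  · simp only [Finset.mem_insert, Finset.mem_singleton] at he
    rcases he with rfl | rfl | rfl
    · exact hfa
    · rw [← hfab]; exact hfa
    · exact hfc

theorem star_image {I : Finset (Finset V)} (hP : Pairs I) {v : V} :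
    ∃ N : Finset V, v ∉ N ∧ I.filter (v ∈ ·) = N.image (fun x => ({v, x} : Finset V)) ∧
      N.card = (I.filter (v ∈ ·)).card := by
  refine ⟨((I.filter (v ∈ ·)).biUnion id).erase v, Finset.notMem_erase _ _, ?_, ?_⟩
  · ext e
    simp only [Finset.mem_filter, Finset.mem_image, Finset.mem_erase, Finset.mem_biUnion, id]
    constructor
    · rintro ⟨he, hv⟩
      obtain ⟨a, ha, rfl⟩ := pair_of_mem (hP e he) hv
      exact ⟨a, ⟨ha, _, ⟨he, hv⟩, by simp⟩, rfl⟩
    · rintro ⟨x, ⟨hx, e', ⟨he', hv'⟩, hxe'⟩, rfl⟩
      obtain ⟨a, ha, rfl⟩ := pair_of_mem (hP e' he') hv'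
      simp only [Finset.mem_insert, Finset.mem_singleton] at hxe'
      rcases hxe' with rfl | rfl
      · exact absurd rfl hx
      · exact ⟨he', by simp⟩
  · have h1 : I.filter (v ∈ ·) = (((I.filter (v ∈ ·)).biUnion id).erase v).image
        (fun x => ({v, x} : Finset V)) := by
      ext e
      simp only [Finset.mem_filter, Finset.mem_image, Finset.mem_erase, Finset.mem_biUnion, id]
      constructor
      · rintro ⟨he, hv⟩
        obtain ⟨a, ha, rfl⟩ := pair_of_mem (hP e he) hv
        exact ⟨a, ⟨ha, _, ⟨he, hv⟩, by simp⟩, rfl⟩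
      · rintro ⟨x, ⟨hx, e', ⟨he', hv'⟩, hxe'⟩, rfl⟩
        obtain ⟨a, ha, rfl⟩ := pair_of_mem (hP e' he') hv'
        simp only [Finset.mem_insert, Finset.mem_singleton] at hxe'
        rcases hxe' with rfl | rfl
        · exact absurd rfl hx
        · exact ⟨he', by simp⟩
    conv_rhs => rw [h1]
    rw [Finset.card_image_of_injOn]
    intro x hx y hy hxy
    simp only [Finset.coe_erase, Set.mem_sdiff, Set.mem_singleton_iff] at hx hy
    have : x ∈ ({v, y} : Finset V) := by
      rw [← show ({v, x} : Finset V) = {v, y} from hxy]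
      simp
    simp only [Finset.mem_insert, Finset.mem_singleton] at this
    exact this.resolve_left hx.2

/-- **Laman, hard direction**: a sparse set of pairs is independent at some point. -/
theorem indep_of_sp {I : Finset (Finset V)} (hP : Pairs I) (hI : Sp I) :
    ∃ p : V → Fin 2 → ℝ, LinearIndepOn ℝ (rv p) (I : Set (Finset V)) := by
  induction hn : I.card using Nat.strong_induction_on generalizing I with
  | _ n ih =>
  rcases I.eq_empty_or_nonempty with rfl | hne
  · exact ⟨0, by simp⟩
  obtain ⟨z, hz⟩ := exists_gen V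
  obtain ⟨v, hd1, hd3⟩ := exists_low_degree hP hI hne
  obtain ⟨N, hvN, hN, hNc⟩ := star_image hP (v := v)
  set J := I.filter (v ∉ ·) with hJ
  have hsplit : J ∪ I.filter (v ∈ ·) = I := by
    rw [hJ, Finset.union_comm]
    exact Finset.filter_union_filter_not_eq _ _
  have hcard : J.card + (I.filter (v ∈ ·)).card = I.card := by
    rw [add_comm]
    exact Finset.card_filter_add_card_filter_not _
  have hJP : Pairs J := fun e he => hP e (Finset.mem_filter.1 he).1
  have hJs : Sp J := hI.mono (Finset.filter_subset _ _)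
  have hJv : ∀ e ∈ J, v ∉ e := fun e he => (Finset.mem_filter.1 he).2
  obtain ⟨q, hq⟩ := ih J.card (by omega) hJP hJs rfl
  have hJz := indep_gen hz hq
  rw [← hNc] at hd1 hd3
  rcases (by omega : N.card = 1 ∨ N.card = 2 ∨ N.card = 3) with h1 | h1 | h1
  · obtain ⟨a, rfl⟩ := Finset.card_eq_one.1 h1
    have hav : a ≠ v := by rintro rfl; simp at hvN
    refine ⟨z, ?_⟩
    rw [← hsplit]
    apply ext0 hJz hJv
    rw [hN, Finset.image_singleton, linearIndepOn_finset_iff]
    intro f hf e he
    rw [Finset.mem_singleton] at he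
    subst he
    rw [Finset.sum_singleton, rv_pair z hav.symm, if_pos rfl] at hf
    have h2 := congrFun hf 0
    simp only [Pi.smul_apply, smul_eq_mul, Pi.sub_apply, Pi.zero_apply] at h2
    exact (mul_eq_zero.1 h2).resolve_right (sub_ne_zero.2 (hz.ne hav.symm 0))
  · obtain ⟨a, b, hab, rfl⟩ := Finset.card_eq_two.1 h1
    have hav : a ≠ v := by rintro rfl; simp at hvN
    have hbv : b ≠ v := by rintro rfl; simp at hvN
    refine ⟨z, ?_⟩
    rw [← hsplit]
    apply ext0 hJz hJv
    rw [hN, Finset.image_insert, Finset.image_singleton, linearIndepOn_finset_iff]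
    intro f hf
    have hne' : ({v, a} : Finset V) ≠ {v, b} := by
      intro he
      have : a ∈ ({v, b} : Finset V) := he ▸ (by simp)
      simp [hav, hab] at this
    rw [Finset.sum_pair hne', rv_pair z hav.symm, rv_pair z hbv.symm, if_pos rfl, if_pos rfl] at hf
    have h2 := indep2 (x := z v - z a) (y := z v - z b)
      (hz.not_collinear hav.symm hbv.symm hab) hf
    intro e he
    simp only [Finset.mem_insert, Finset.mem_singleton] at he
    rcases he with rfl | rfl
    · exact h2.1
    · exact h2.2
  · obtain ⟨a, b, c, hab, hac, hbc, rfl⟩ := Finset.card_eq_three.1 h1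
    have hav : a ≠ v := by rintro rfl; simp at hvN
    have hbv : b ≠ v := by rintro rfl; simp at hvN
    have hcv : c ≠ v := by rintro rfl; simp at hvN
    have hmem : ∀ x ∈ ({a, b, c} : Finset V), ({v, x} : Finset V) ∈ I := by
      intro x hx
      have : ({v, x} : Finset V) ∈ I.filter (v ∈ ·) := by
        rw [hN]
        exact Finset.mem_image_of_mem _ hx
      exact (Finset.mem_filter.1 this).1
    have himg : I.filter (v ∈ ·) = {{v, a}, {v, b}, {v, c}} := by
      rw [hN]
      simp [Finset.image_insert, Finset.image_singleton]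
    have hIeq : J ∪ {{v, a}, {v, b}, {v, c}} = I := by rw [← himg]; exact hsplit
    have step : ∀ x y w : V, x ≠ v → y ≠ v → w ≠ v → x ≠ y → x ≠ w → y ≠ w →
        J ∪ {{v, x}, {v, y}, {v, w}} = I → {x, y} ∉ J → Sp (insert {x, y} J) →
        ∃ p : V → Fin 2 → ℝ, LinearIndepOn ℝ (rv p) (I : Set (Finset V)) := by
      intro x y w hx hy hw hxy hxw hyw hE hnot hsp
      have hP' : Pairs (insert {x, y} J) := by
        intro e he
        rcases Finset.mem_insert.1 he with rfl | he
        · exact Finset.card_pair hxy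
        · exact hJP e he
      obtain ⟨q', hq'⟩ := ih (insert {x, y} J).card
        (by rw [Finset.card_insert_of_notMem hnot]; omega) hP' hsp rfl
      obtain ⟨p, hp⟩ := ext1 hz hx hy hw hxy hxw hyw hJv hnot (indep_gen hz hq')
      rw [hE] at hp
      exact ⟨p, hp⟩
    rcases exists_split hP hI hav hbv hcv hab hac hbc (hmem a (by simp)) (hmem b (by simp))
      (hmem c (by simp)) with ⟨h2, h3⟩ | ⟨h2, h3⟩ | ⟨h2, h3⟩
    · exact step a b c hav hbv hcv hab hac hbc hIeq h2 h3
    · refine step b c a hbv hcv hav hbc hab.symm hac.symm ?_ h2 h3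
      rw [← hIeq]
      congr 1
      ext e
      simp only [Finset.mem_insert, Finset.mem_singleton]
      tauto
    · refine step c a b hcv hav hbv hac.symm hbc.symm hab ?_ h2 h3
      rw [← hIeq]
      congr 1
      ext e
      simp only [Finset.mem_insert, Finset.mem_singleton]
      tauto

/-- **Laman, hard direction**: a sparse set of pairs is independent at every generic point. -/
theorem indep_gen_of_sp {z : V → Fin 2 → ℝ} (hz : Gen z) {I : Finset (Finset V)} (hP : Pairs I)
    (hI : Sp I) : LinearIndepOn ℝ (rv z) (I : Set (Finset V)) := by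
  obtain ⟨p, hp⟩ := indep_of_sp hP hI
  exact indep_gen hz hp

/-! ### Independent sets are sparse -/

/-- the three trivial motions restricted to `X` -/
def triv (p : V → Fin 2 → ℝ) (X : Finset V) (i : Fin 3) : X × Fin 2 → ℝ := fun c =>
  match i with
  | 0 => if c.2 = 0 then 1 else 0
  | 1 => if c.2 = 0 then 0 else 1
  | 2 => if c.2 = 0 then - p c.1.1 1 else p c.1.1 0

theorem rv_dot_triv (p : V → Fin 2 → ℝ) (X : Finset V) {e : Finset V} (he : e.card = 2)
    (heX : e ⊆ X) (i : Fin 3) : ∑ c : X × Fin 2, rv p e c.1.1 c.2 * triv p X i c = 0 := by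
  obtain ⟨u, v, huv, rfl⟩ := Finset.card_eq_two.1 he
  rw [Fintype.sum_prod_type]
  have hu : u ∈ X := heX (by simp)
  have hv : v ∈ X := heX (by simp)
  have hne : (⟨u, hu⟩ : X) ≠ ⟨v, hv⟩ := fun h => huv (congrArg Subtype.val h)
  rw [Finset.sum_eq_add (⟨u, hu⟩ : X) ⟨v, hv⟩ hne]
  · simp only [rv_pair p huv, Fin.sum_univ_two, if_true, if_neg huv.symm]
    fin_cases i
    · simp [triv]
    · simp [triv]
    · simp [triv]
      ring
  · intro x _ hx
    have h1 : x.1 ≠ u := fun h => hx.1 (Subtype.ext h)
    have h2 : x.1 ≠ v := fun h => hx.2 (Subtype.ext h)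
    simp [rv_pair p huv, h1, h2]
  · intro h; exact absurd (Finset.mem_univ _) h
  · intro h; exact absurd (Finset.mem_univ _) h

theorem sp_of_indep {p : V → Fin 2 → ℝ} {I : Finset (Finset V)} (hP : Pairs I)
    (h : LinearIndepOn ℝ (rv p) (I : Set (Finset V))) : Sp I := by
  intro X hX
  unfold ins
  set J := I.filter (· ⊆ X) with hJ
  have hJi : LinearIndepOn ℝ (rv p) (J : Set (Finset V)) :=
    h.mono (by exact_mod_cast Finset.filter_subset _ _)
  rw [linearIndepOn_finset_iff] at hJi
  by_cases hconst : ∀ x ∈ X, ∀ y ∈ X, p x = p y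
  · -- rows vanish
    have hJe : J = ∅ := by
      rw [Finset.eq_empty_iff_forall_notMem]
      intro e he
      have he' := Finset.mem_filter.1 he
      have h0 : rv p e = 0 := by
        funext w
        unfold rv
        split_ifs with hw
        · refine Finset.sum_eq_zero fun x hx => ?_
          rw [hconst w (he'.2 hw) x (he'.2 hx), sub_self]
        · rfl
      have h1 := hJi (fun e' => if e' = e then 1 else 0) (by
        rw [Finset.sum_eq_single e]
        · simp [h0]
        · intro b _ hb
          simp [hb]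
        · intro h
          exact absurd he h) e he
      simp at h1
    rw [hJe, Finset.card_empty]
    omega
  · push Not at hconst
    obtain ⟨x, hx, y, hy, hxy⟩ := hconst
    let F : J ⊕ Fin 3 → (X × Fin 2 → ℝ) := Sum.elim (fun e c => rv p e.1 c.1.1 c.2) (triv p X)
    have hF : LinearIndependent ℝ F := by
      rw [Fintype.linearIndependent_iff]
      intro g hg
      rw [Fintype.sum_sum_type] at hg
      simp only [F, Sum.elim_inl, Sum.elim_inr] at hg
      set s : X × Fin 2 → ℝ := ∑ i : Fin 3, g (Sum.inr i) • triv p X i with hs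
      set r : X × Fin 2 → ℝ := ∑ e : J, g (Sum.inl e) • (fun c : X × Fin 2 => rv p e.1 c.1.1 c.2)
        with hr
      have hrs : r ⬝ᵥ s = 0 := by
        rw [hr, hs, sum_dotProduct]
        refine Finset.sum_eq_zero fun e _ => ?_
        rw [dotProduct_sum]
        refine Finset.sum_eq_zero fun i _ => ?_
        rw [smul_dotProduct, dotProduct_smul]
        have he' := Finset.mem_filter.1 e.2
        have : (fun c : X × Fin 2 => rv p e.1 c.1.1 c.2) ⬝ᵥ triv p X i = 0 :=
          rv_dot_triv p X (hP _ he'.1) he'.2 i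
        rw [this, smul_zero, smul_zero]
      have hss : s ⬝ᵥ s = 0 := by
        have h1 : s = - r := by
          rw [eq_neg_iff_add_eq_zero, add_comm]
          exact hg
        have h2 : r = - s := by rw [h1, neg_neg]
        rw [h2, neg_dotProduct] at hrs
        linarith
      have hs0 : s = 0 := dotProduct_self_eq_zero.1 hss
      have hr0 : r = 0 := by
        rw [hs0, add_zero] at hg
        exact hg
      -- the coefficients of the rows vanish
      have hrow : ∀ e : J, g (Sum.inl e) = 0 := by
        let f : Finset V → ℝ := fun e => if he : e ∈ J then g (Sum.inl ⟨e, he⟩) else 0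
        have h1 : ∑ e ∈ J, f e • rv p e = 0 := by
          funext w k
          rw [← Finset.sum_coe_sort J]
          have h2 : ∀ e : J, f e.1 = g (Sum.inl e) := fun e => by simp [f, e.2]
          by_cases hw : w ∈ X
          · have h3 := congrFun hr0 (⟨w, hw⟩, k)
            rw [hr] at h3
            simp only [Finset.sum_apply, Pi.smul_apply, smul_eq_mul, Pi.zero_apply] at h3 ⊢
            rw [← h3]
            exact Finset.sum_congr rfl fun e _ => by rw [h2]
          · simp only [Finset.sum_apply, Pi.smul_apply, smul_eq_mul, Pi.zero_apply]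
            refine Finset.sum_eq_zero fun e _ => ?_
            rw [rv_of_notMem p (fun h' => hw ((Finset.mem_filter.1 e.2).2 h'))]
            simp
        intro e
        have h2 := hJi f h1 e.1 e.2
        simpa [f, e.2] using h2
      -- the coefficients of the trivial motions vanish
      have e1 : ∀ w (hw : w ∈ X), g (Sum.inr 0) - g (Sum.inr 2) * p w 1 = 0 := by
        intro w hw
        have h1 := congrFun hs0 (⟨w, hw⟩, 0)
        rw [hs] at h1
        simp [Fin.sum_univ_three, triv] at h1
        linarith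
      have e2 : ∀ w (hw : w ∈ X), g (Sum.inr 1) + g (Sum.inr 2) * p w 0 = 0 := by
        intro w hw
        have h1 := congrFun hs0 (⟨w, hw⟩, 1)
        rw [hs] at h1
        simp [Fin.sum_univ_three, triv] at h1
        linarith
      have g2 : g (Sum.inr 2) = 0 := by
        by_contra hne
        apply hxy
        funext k
        fin_cases k
        · have h1 := e2 x hx
          have h2 := e2 y hy
          have h3 : g (Sum.inr 2) * (p x 0 - p y 0) = 0 := by linear_combination h1 - h2
          have h4 := (mul_eq_zero.1 h3).resolve_left hne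
          show p x 0 = p y 0
          linarith
        · have h1 := e1 x hx
          have h2 := e1 y hy
          have h3 : g (Sum.inr 2) * (p x 1 - p y 1) = 0 := by linear_combination h2 - h1
          have h4 := (mul_eq_zero.1 h3).resolve_left hne
          show p x 1 = p y 1
          linarith
      have g0 : g (Sum.inr 0) = 0 := by
        have := e1 x hx
        rw [g2] at this
        linarith
      have g1 : g (Sum.inr 1) = 0 := by
        have := e2 x hx
        rw [g2] at this
        linarith
      intro i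
      rcases i with e | i
      · exact hrow e
      · fin_cases i
        · exact g0
        · exact g1
        · exact g2
    have h1 := hF.fintype_card_le_finrank
    rw [Module.finrank_fintype_fun_eq_card] at h1
    simp only [Fintype.card_sum, Fintype.card_prod, Fintype.card_coe, Fintype.card_fin] at h1
    omega

/-- **Laman's theorem**, independence form -/
theorem indep_iff_sp {z : V → Fin 2 → ℝ} (hz : Gen z) {I : Finset (Finset V)} (hP : Pairs I) :
    LinearIndepOn ℝ (rv z) (I : Set (Finset V)) ↔ Sp I :=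
  ⟨sp_of_indep hP, indep_gen_of_sp hz hP⟩

/-- **Laman's theorem**, rank form -/
theorem rig_iff_rank {z : V → Fin 2 → ℝ} (hz : Gen z) {Γ : Finset (Finset V)} (hP : Pairs Γ)
    {U : Finset V} (hU : ∀ e ∈ Γ, e ⊆ U) (hU2 : 2 ≤ U.card) :
    Rig Γ U ↔ 2 * U.card ≤ Module.finrank ℝ (Submodule.span ℝ (rv z '' (Γ : Set (Finset V)))) + 3 := by
  constructor
  · rintro ⟨I, hIΓ, hI, -, hIc⟩
    have h1 := indep_gen_of_sp hz (fun e he => hP e (hIΓ he)) hI
    have h2 : I.card = Module.finrank ℝ (Submodule.span ℝ (rv z '' (I : Set (Finset V)))) := by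
      have h3 := finrank_span_set_eq_card (R := ℝ) (s := rv z '' (I : Set (Finset V))) h1.id_image
      rw [h3, Set.toFinset_image, Finset.toFinset_coe, Finset.card_image_of_injOn h1.injOn]
    have h3 : Module.finrank ℝ (Submodule.span ℝ (rv z '' (I : Set (Finset V)))) ≤
        Module.finrank ℝ (Submodule.span ℝ (rv z '' (Γ : Set (Finset V)))) :=
      Submodule.finrank_mono (Submodule.span_mono (Set.image_mono (by exact_mod_cast hIΓ)))
    omega
  · intro h
    obtain ⟨B, hBΓ, hspan, hB⟩ : ∃ B : Set (Finset V), B ⊆ (Γ : Set (Finset V)) ∧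
        Submodule.span ℝ (rv z '' B) = Submodule.span ℝ (rv z '' (Γ : Set (Finset V))) ∧
        LinearIndepOn ℝ (rv z) B := by
      obtain ⟨B, hB1, hB2, hB3, hB4⟩ := exists_linearIndepOn_extension
        (linearIndepOn_empty ℝ (rv z)) (Set.empty_subset (Γ : Set (Finset V)))
      refine ⟨B, hB1, le_antisymm (Submodule.span_mono (Set.image_mono hB1)) ?_, hB4⟩
      exact Submodule.span_le.2 hB3
    have hfin : B.Finite := (Finset.finite_toSet Γ).subset hBΓ
    lift B to Finset (Finset V) using hfin
    have hBΓ' : B ⊆ Γ := by exact_mod_cast hBΓ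
    have hBs : Sp B := sp_of_indep (fun e he => hP e (hBΓ' he)) hB
    have h2 : B.card = Module.finrank ℝ (Submodule.span ℝ (rv z '' (B : Set (Finset V)))) := by
      have h3 := finrank_span_set_eq_card (R := ℝ) (s := rv z '' (B : Set (Finset V))) hB.id_image
      rw [h3, Set.toFinset_image, Finset.toFinset_coe, Finset.card_image_of_injOn hB.injOn]
    rw [hspan] at h2
    have h4 := hBs U hU2
    have h5 : ins B U = B.card := by
      have h6 : ∀ e ∈ B, e ⊆ U := fun e he => hU e (hBΓ' he)
      unfold ins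
      rw [Finset.filter_true_of_mem h6]
    exact ⟨B, hBΓ', hBs, fun e he => hU e (hBΓ' he), by omega⟩

end Pool.Agent.H632R2.Laman
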